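import Mathlib

/-!
# Algebraically independent points
-/

set_option linter.unusedSectionVars false
set_option linter.unusedSimpArgs false

namespace Pool.ML

open Cardinal Matrix

theorem algInd_transfer {ι : Type} [Finite ι] (x y : ι → ℂ) (hy : AlgebraicIndependent ℚ y)
    (h : ∀ i, y i ∈ Algebra.adjoin ℚ (Set.range x)) : AlgebraicIndependent ℚ x := by
  set A := Algebra.adjoin ℚ (Set.range x) with hA
  let y' : ι → A := fun i => ⟨y i, h i⟩
  let x' : ι → A := fun i => ⟨x i, Algebra.subset_adjoin ⟨i, rfl⟩⟩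
  have hy' : AlgebraicIndependent ℚ y' := by
    apply AlgebraicIndependent.of_comp A.val
    exact hy
  have htop : Algebra.adjoin ℚ (Set.range x') = ⊤ := by
    have h1 : (Algebra.adjoin ℚ (Set.range x')).map A.val = (⊤ : Subalgebra ℚ A).map A.val := by
      rw [AlgHom.map_adjoin, ← Set.range_comp]
      have : (A.val ∘ x' : ι → ℂ) = x := rfl
      rw [this, Algebra.map_top, Subalgebra.range_val]
    exact Subalgebra.map_injective Subtype.val_injective h1
  have : Algebra.IsAlgebraic (Algebra.adjoin ℚ (Set.range x')) A := by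
    constructor
    intro a
    have ha : a ∈ Algebra.adjoin ℚ (Set.range x') := by rw [htop]; trivial
    exact isAlgebraic_algebraMap (⟨a, ha⟩ : Algebra.adjoin ℚ (Set.range x'))
  have h2 : IsTranscendenceBasis ℚ x' :=
    Algebra.IsAlgebraic.isTranscendenceBasis_of_le_trdeg_of_finite ℚ x' hy'.cardinalMk_le_trdeg
  exact h2.1.map' (f := A.val) Subtype.val_injective

theorem exists_eval_ne {ι : Type} [Fintype ι] (P : MvPolynomial ι ℂ) (hP : P ≠ 0)
    (O : Set (ι → ℂ)) (hO : IsOpen O) (hne : O.Nonempty) :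
    ∃ x ∈ O, MvPolynomial.eval x P ≠ 0 := by
  by_contra hcon
  push Not at hcon
  obtain ⟨x₀, hx₀⟩ := hne
  obtain ⟨ε, hε, hball⟩ := Metric.isOpen_iff.mp hO x₀ hx₀
  apply hP
  apply MvPolynomial.funext_set (s := fun i => Metric.ball (x₀ i) ε)
  · intro i
    exact infinite_of_mem_nhds (x₀ i) (Metric.ball_mem_nhds _ hε)
  · intro x hx
    rw [map_zero]
    apply hcon
    apply hball
    rw [Metric.mem_ball, dist_pi_lt_iff hε]
    intro i
    exact hx i (Set.mem_univ i)

theorem exists_algInd {ι : Type} [Fintype ι] (U : Set (ι → ℂ)) (hU : IsOpen U)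
    (hne : U.Nonempty) : ∃ x ∈ U, AlgebraicIndependent ℚ x := by
  have hc0 : Countable (MvPolynomial ι ℚ) := by
    rw [← Cardinal.mk_le_aleph0_iff]
    refine le_trans MvPolynomial.cardinalMk_le_max ?_
    simp
  have hc : Countable {g : MvPolynomial ι ℚ // g ≠ 0} := inferInstance
  have hd : Dense (⋂ g : {g : MvPolynomial ι ℚ // g ≠ 0},
      {x : ι → ℂ | MvPolynomial.aeval x g.1 ≠ 0}) := by
    apply dense_iInter_of_isOpen
    · intro g
      have hcont : Continuous fun x : ι → ℂ => MvPolynomial.aeval x g.1 := by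
        have h1 : (fun x : ι → ℂ => MvPolynomial.aeval x g.1) = fun x =>
            MvPolynomial.eval x (MvPolynomial.map (algebraMap ℚ ℂ) g.1) := by
          funext x
          rw [MvPolynomial.eval_map, MvPolynomial.aeval_def]
        rw [h1]
        exact MvPolynomial.continuous_eval _
      exact isOpen_ne_fun hcont continuous_const
    · intro g
      rw [dense_iff_inter_open]
      intro O hO hOne
      obtain ⟨x, hx, hx'⟩ := exists_eval_ne (MvPolynomial.map (algebraMap ℚ ℂ) g.1) (by
        intro h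
        apply g.2
        apply MvPolynomial.map_injective _ (algebraMap ℚ ℂ).injective
        rw [h, map_zero]) O hO hOne
      refine ⟨x, hx, ?_⟩
      rw [Set.mem_ofPred_eq, MvPolynomial.aeval_def, ← MvPolynomial.eval_map]
      exact hx'
  obtain ⟨x, hxU, hx⟩ := (dense_iff_inter_open.mp hd) U hU hne
  refine ⟨x, hxU, ?_⟩
  rw [algebraicIndependent_iff]
  intro p hp
  by_contra hp0
  have := Set.mem_iInter.mp hx ⟨p, hp0⟩
  exact this hp

/-- A matrix of rank `ρ` has a `ρ × ρ` submatrix with non-zero determinant. -/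
theorem exists_minor_ne {I J ρ : Type} [Fintype I] [Fintype J] [Fintype ρ] [DecidableEq ρ]
    (p : Matrix I J ℂ) (hr : p.rank = Fintype.card ρ) :
    ∃ (a : ρ → I) (b : ρ → J), (p.submatrix a b).det ≠ 0 := by
  have key : ∀ {I J : Type} [Fintype I] [Fintype J] (p : Matrix I J ℂ),
      p.rank = Fintype.card ρ → ∃ a : ρ → I, LinearIndependent ℂ (p.submatrix a id).row := by
    intro I J _ _ p hr
    obtain ⟨f, hf1, hf2, hf3⟩ := Submodule.exists_fun_fin_finrank_span_eq ℂ (Set.range p.row)
    have hcard : Module.finrank ℂ (Submodule.span ℂ (Set.range p.row)) = Fintype.card ρ := by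
      rw [← Matrix.rank_eq_finrank_span_row, hr]
    choose a ha using hf1
    let e : ρ ≃ Fin (Module.finrank ℂ (Submodule.span ℂ (Set.range p.row))) :=
      Fintype.equivOfCardEq (by rw [hcard]; simp)
    refine ⟨a ∘ e, ?_⟩
    have h1 : (p.submatrix (a ∘ e) id).row = f ∘ e := by
      funext k
      rw [Function.comp_apply, ← ha (e k)]
      rfl
    rw [h1]
    exact hf3.comp _ e.injective
  obtain ⟨a, ha⟩ := key p hr
  have h2 : ((p.submatrix a id)ᵀ).rank = Fintype.card ρ := by
    rw [Matrix.rank_transpose]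
    exact ha.rank_matrix
  obtain ⟨b, hb⟩ := key _ h2
  refine ⟨a, b, ?_⟩
  have h3 : ((p.submatrix a id)ᵀ).submatrix b id = (p.submatrix a b)ᵀ := rfl
  rw [h3] at hb
  have h4 := Matrix.linearIndependent_rows_iff_isUnit.mp hb
  have h5 := (Matrix.isUnit_iff_isUnit_det _).mp h4
  rw [Matrix.det_transpose] at h5
  exact h5.ne_zero

end Pool.ML
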