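import Pool.Agent.ML14.Link

/-!
# All data with algebraically independent entries have the same number of critical points
-/

set_option linter.unusedSectionVars false
set_option linter.unusedSimpArgs false

namespace Pool.ML

open Matrix Cardinal

/-- Any two families of the same finite size of algebraically independent complex numbers are
conjugate under a field automorphism. -/
theorem exists_autom {ι : Type} [Finite ι] (v w : ι → ℂ) (hv : AlgebraicIndependent ℚ v)
    (hw : AlgebraicIndependent ℚ w) : ∃ φ : ℂ ≃+* ℂ, ∀ i, φ (v i) = w i := by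
  obtain ⟨s, hvs, hs⟩ := exists_isTranscendenceBasis_superset hv.to_subtype_range
  obtain ⟨t, hwt, ht⟩ := exists_isTranscendenceBasis_superset hw.to_subtype_range
  have hC : ℵ₀ < #ℂ := by
    rw [Cardinal.mk_complex]
    exact Cardinal.aleph0_lt_continuum
  have hQ : #ℚ ≤ ℵ₀ := Cardinal.mk_le_aleph0
  have hs1 : #ℂ = #s :=
    IsAlgClosed.cardinal_eq_cardinal_transcendence_basis_of_aleph0_lt' _ hs hQ hC
  have ht1 : #ℂ = #t :=
    IsAlgClosed.cardinal_eq_cardinal_transcendence_basis_of_aleph0_lt' _ ht hQ hC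
  let v' : ι → s := fun i => ⟨v i, hvs ⟨i, rfl⟩⟩
  let w' : ι → t := fun i => ⟨w i, hwt ⟨i, rfl⟩⟩
  have hv' : Function.Injective v' := fun i j h => hv.injective (congrArg Subtype.val h)
  have hw' : Function.Injective w' := fun i j h => hw.injective (congrArg Subtype.val h)
  let f : (Set.range v') ↪ t :=
    (Equiv.ofInjective v' hv').symm.toEmbedding.trans ⟨w', hw'⟩
  have hlt : #(Set.range v') < #s := by
    rw [← hs1]
    refine lt_of_le_of_lt ?_ hC
    have : Countable (Set.range v') := (Set.finite_range v').countable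
    exact Cardinal.mk_le_aleph0
  have hne : Nonempty (s ≃ t) := by
    rw [← Cardinal.eq, ← hs1, ht1]
  obtain ⟨e, he⟩ := Cardinal.extend_function_of_lt f hlt hne
  have hev : ∀ i, e (v' i) = w' i := by
    intro i
    have h1 := he ⟨v' i, i, rfl⟩
    rw [h1]
    have h2 : (Equiv.ofInjective v' hv').symm ⟨v' i, i, rfl⟩ = i := by
      rw [Equiv.symm_apply_eq]
      rfl
    change w' ((Equiv.ofInjective v' hv').symm ⟨v' i, i, rfl⟩) = w' i
    rw [h2]
  let := IsAlgClosed.isAlgClosure_of_transcendence_basis _ hs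
  let := IsAlgClosed.isAlgClosure_of_transcendence_basis _ ht
  let r : MvPolynomial s ℚ ≃ₐ[ℚ] MvPolynomial t ℚ := MvPolynomial.renameEquiv ℚ e
  let E : Algebra.adjoin ℚ (Set.range ((↑) : s → ℂ)) ≃+*
      Algebra.adjoin ℚ (Set.range ((↑) : t → ℂ)) :=
    (hs.1.aevalEquiv.symm.trans (r.trans ht.1.aevalEquiv)).toRingEquiv
  refine ⟨IsAlgClosure.equivOfEquiv ℂ ℂ E, ?_⟩
  intro i
  have hmem : v i ∈ Algebra.adjoin ℚ (Set.range ((↑) : s → ℂ)) :=
    Algebra.subset_adjoin ⟨v' i, rfl⟩
  have h1 := IsAlgClosure.equivOfEquiv_algebraMap ℂ ℂ E ⟨v i, hmem⟩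
  have h2 : algebraMap (Algebra.adjoin ℚ (Set.range ((↑) : s → ℂ))) ℂ ⟨v i, hmem⟩ = v i := rfl
  rw [h2] at h1
  rw [h1]
  have h3 : hs.1.aevalEquiv.symm ⟨v i, hmem⟩ = MvPolynomial.X (v' i) := by
    rw [AlgEquiv.symm_apply_eq]
    apply Subtype.ext
    simp [v']
  have h4 : E ⟨v i, hmem⟩ = ht.1.aevalEquiv (r (hs.1.aevalEquiv.symm ⟨v i, hmem⟩)) := rfl
  rw [h4, h3]
  have h5 : r (MvPolynomial.X (v' i)) = MvPolynomial.X (w' i) := by
    simp only [r, MvPolynomial.renameEquiv_apply, MvPolynomial.rename_X]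
    rw [hev]
  rw [h5]
  change ((ht.1.aevalEquiv (MvPolynomial.X (w' i)) : Algebra.adjoin ℚ
    (Set.range ((↑) : t → ℂ))) : ℂ) = w i
  simp [w']

end Pool.ML
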