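import Pool.Agent.ML14.Upper

/-!
# Two-sided bounds
-/

set_option linter.unusedSectionVars false
set_option linter.unusedSimpArgs false
set_option linter.unusedVariables false

namespace Pool.ML

open Matrix

theorem card_le_UBq {q s k : ℕ}
    (u : Matrix (Option (Fin q) ⊕ Fin s) (Option (Fin q) ⊕ Fin k) ℂ) (hu : Alg u) (N : ℕ)
    (p : Fin N → Matrix (Option (Fin q) ⊕ Fin s) (Option (Fin q) ⊕ Fin k) ℂ)
    (hp : Function.Injective p) (hcrit : ∀ l, PCrit (q + 1) u (p l)) : N ≤ UBq q s k := by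
  have hcard : Fintype.card (Option (Fin q)) = q + 1 := by simp
  have hcrit' : ∀ l, PCrit (Fintype.card (Option (Fin q))) u (p l) := by
    intro l
    rw [hcard]
    exact hcrit l
  set n := q + 1 + k with hn
  set τ := N + s * (q + 1) + (q + 1) * q + (q + s) + 1 with hτ
  have h1 := main_count u hu N p hp hcrit' τ (n * τ)
  rw [card_BB, card_box, card_SB, card_SB, card_SB, card_SB] at h1
  simp only [Fintype.card_prod, Fintype.card_option, Fintype.card_fin] at h1
  exact arith q s k N _ _ _ _ _ τ n rfl rfl hn hτ rfl rfl rfl h1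

/-- The upper bound for data with algebraically independent entries. -/
theorem card_le_upper {m n r : ℕ} (hr : 1 ≤ r) (hm : r ≤ m) (hn : r ≤ n)
    (u : Matrix (Fin m) (Fin n) ℂ) (hu : Alg u) (N : ℕ)
    (p : Fin N → Matrix (Fin m) (Fin n) ℂ) (hp : Function.Injective p)
    (hcrit : ∀ l, PCrit r u (p l)) : N ≤ UBq (r - 1) (m - r) (n - r) := by
  have e : Option (Fin (r - 1)) ⊕ Fin (m - r) ≃ Fin m :=
    Fintype.equivOfCardEq (by
      simp only [Fintype.card_sum, Fintype.card_fin, Fintype.card_option]; omega)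
  have f : Option (Fin (r - 1)) ⊕ Fin (n - r) ≃ Fin n :=
    Fintype.equivOfCardEq (by
      simp only [Fintype.card_sum, Fintype.card_fin, Fintype.card_option]; omega)
  apply card_le_UBq (u.submatrix e f) (hu.submatrix e f) N (fun l => (p l).submatrix e f)
  · intro l l' h
    apply hp
    ext i j
    have := congrFun (congrFun h (e.symm i)) (f.symm j)
    simpa using this
  · intro l
    have h1 := (hcrit l).submatrix e f
    have h2 : r - 1 + 1 = r := by omega
    rw [h2]
    exact h1

/-- The upper bound. -/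
theorem UBq_eq {m n r : ℕ} (hr : 1 ≤ r) (hm : r ≤ m) (hn : r ≤ n) :
    UBq (r - 1) (m - r) (n - r) = 3 ^ ((r + 1) * (m - 1)) * (m - 1).factorial ^ r *
      (r ^ 2 + r + 1) ^ (r * (r - 1)) * (8 * n ^ 2) ^ (r * (m - r)) *
        (m - 1).choose (r - 1) ^ (n - r) := by
  obtain ⟨q, rfl⟩ : ∃ q, r = q + 1 := ⟨r - 1, by omega⟩
  obtain ⟨s, rfl⟩ : ∃ s, m = q + 1 + s := ⟨m - (q + 1), by omega⟩
  obtain ⟨k, rfl⟩ : ∃ k, n = q + 1 + k := ⟨n - (q + 1), by omega⟩
  have h1 : q + 1 - 1 = q := by omega
  have h2 : q + 1 + s - (q + 1) = s := by omega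
  have h3 : q + 1 + k - (q + 1) = k := by omega
  have h4 : q + 1 + s - 1 = q + s := by omega
  rw [h1, h2, h3, h4, UBq]

/-- For data with algebraically independent entries the set of critical points is finite. -/
theorem finite_of_alg {m n r : ℕ} (hr : 1 ≤ r) (hm : r ≤ m) (hn : r ≤ n)
    (u : Matrix (Fin m) (Fin n) ℂ) (hu : Alg u) :
    {p | IsCritical r u p}.Finite ∧
      {p | IsCritical r u p}.ncard ≤ UBq (r - 1) (m - r) (n - r) := by
  have hs := Alg.sum_ne (le_trans hr hm) (le_trans hr hn) u hu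
  have key : ∀ S : Finset (Matrix (Fin m) (Fin n) ℂ), (↑S ⊆ {p | IsCritical r u p}) →
      S.card ≤ UBq (r - 1) (m - r) (n - r) := by
    intro S hS
    let e := S.equivFin.symm
    apply card_le_upper hr hm hn u hu S.card
      (fun l => (∑ i, ∑ j, u i j) • (e l : Matrix (Fin m) (Fin n) ℂ))
    · intro l l' h
      have h1 := smul_injective' _ hs h
      exact e.injective (Subtype.ext h1)
    · intro l
      exact PCrit_of_IsCritical hs (hS (e l).2)
  have hfin : {p | IsCritical r u p}.Finite := by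
    by_contra hinf
    obtain ⟨S, hS, hcard⟩ := Set.Infinite.exists_subset_card_eq hinf
      (UBq (r - 1) (m - r) (n - r) + 1)
    have := key S hS
    omega
  refine ⟨hfin, ?_⟩
  have h2 := key hfin.toFinset (by simp)
  rwa [← Set.ncard_eq_toFinset_card _ hfin] at h2

/-- The ML degree is the number of critical points of suitable data with algebraically
independent entries. -/
theorem exists_alg_of_MLDegree {m n r N : ℕ} (hm : 1 ≤ m) (hn : 1 ≤ n)
    (hN : IsMLDegree m n r N) : ∃ u : Matrix (Fin m) (Fin n) ℂ, Alg u ∧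
      {p | IsCritical r u p}.ncard = N := by
  obtain ⟨g, hg, hN⟩ := hN
  have hopen : IsOpen {x : (Fin m × Fin n) → ℂ | MvPolynomial.eval x g ≠ 0} :=
    isOpen_ne_fun (MvPolynomial.continuous_eval g) continuous_const
  have hne : {x : (Fin m × Fin n) → ℂ | MvPolynomial.eval x g ≠ 0}.Nonempty := by
    obtain ⟨x, _, hx⟩ := exists_eval_ne g hg Set.univ isOpen_univ ⟨0, trivial⟩
    exact ⟨x, hx⟩
  obtain ⟨x, hx, hx'⟩ := exists_algInd _ hopen hne
  exact ⟨Matrix.of fun i j => x (i, j), hx', (hN (Matrix.of fun i j => x (i, j)) hx).2⟩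

theorem MLDegree_le {m n r N : ℕ} (hr : 1 ≤ r) (hm : r ≤ m) (hn : r ≤ n)
    (hN : IsMLDegree m n r N) : N ≤ UBq (r - 1) (m - r) (n - r) := by
  obtain ⟨u, hu, hcard⟩ := exists_alg_of_MLDegree (le_trans hr hm) (le_trans hr hn) hN
  rw [← hcard]
  exact (finite_of_alg hr hm hn u hu).2

end Pool.ML
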