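import Pool.Agent.ML14.Step

/-!
# From open sets of data to the ML degree
-/

set_option linter.unusedSectionVars false
set_option linter.unusedSimpArgs false

namespace Pool.ML

open Matrix Filter Topology

theorem LB.reindex {I J I' J' : Type} [Fintype I] [Fintype J] [Fintype I'] [Fintype J']
    {r K : ℕ} (h : LB I J r K) (e : I' ≃ I) (f : J' ≃ J) : LB I' J' r K := by
  classical
  obtain ⟨U, hU, ⟨u₀, hu₀⟩, hS⟩ := h
  have hc : Continuous fun x : I' → J' → ℂ => (fun i j => x (e.symm i) (f.symm j)) := by
    fun_prop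
  refine ⟨(fun x : I' → J' → ℂ => (fun i j => x (e.symm i) (f.symm j))) ⁻¹' U,
    hU.preimage hc, ⟨fun i j => u₀ (e i) (f j), by simpa using hu₀⟩, ?_⟩
  intro u hu
  obtain ⟨S, hcard, hp⟩ := hS _ hu
  have hinj : Function.Injective fun p : Matrix I J ℂ => p.submatrix e f := by
    intro p q hpq
    ext i j
    have := congrFun (congrFun hpq (e.symm i)) (f.symm j)
    simpa using this
  refine ⟨S.image fun p => p.submatrix e f, ?_, ?_⟩
  · rw [Finset.card_image_of_injective _ hinj, hcard]
  · intro p hp'
    obtain ⟨q, hq, rfl⟩ := Finset.mem_image.mp hp'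
    have h1 := (hp q hq).submatrix e f
    have h2 : (Matrix.of fun i j => u (e.symm i) (f.symm j)).submatrix e f = Matrix.of u := by
      ext i j
      simp
    rw [h2] at h1
    exact h1

theorem LB.transpose {I J : Type} [Fintype I] [Fintype J]
    {r K : ℕ} (h : LB I J r K) : LB J I r K := by
  classical
  obtain ⟨U, hU, ⟨u₀, hu₀⟩, hS⟩ := h
  have hc : Continuous fun x : J → I → ℂ => (fun i j => x j i) := by
    fun_prop
  refine ⟨(fun x : J → I → ℂ => (fun i j => x j i)) ⁻¹' U,
    hU.preimage hc, ⟨fun i j => u₀ j i, hu₀⟩, ?_⟩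
  intro u hu
  obtain ⟨S, hcard, hp⟩ := hS _ hu
  refine ⟨S.image fun p => pᵀ, ?_, ?_⟩
  · rw [Finset.card_image_of_injective _ Matrix.transpose_injective, hcard]
  · intro p hp'
    obtain ⟨q, hq, rfl⟩ := Finset.mem_image.mp hp'
    exact (hp q hq).transpose

/-- One more column. -/
theorem LB_col {m n r K : ℕ} (hr : 1 ≤ r) (hm : r ≤ m) (hn : r ≤ n)
    (h : LB (Fin m) (Fin n) r K) :
    LB (Fin m) (Fin (n + 1)) r (K * (m - 1).choose (r - 1)) := by
  have : Nonempty (Fin r) := ⟨⟨0, hr⟩⟩
  have e : Fin r ⊕ Fin (m - r) ≃ Fin m :=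
    Fintype.equivOfCardEq (by simp only [Fintype.card_sum, Fintype.card_fin]; omega)
  have f : Fin r ⊕ Fin (n - r) ≃ Fin n :=
    Fintype.equivOfCardEq (by simp only [Fintype.card_sum, Fintype.card_fin]; omega)
  have g : Fin (n + 1) ≃ Fin r ⊕ (Fin (n - r) ⊕ Unit) :=
    Fintype.equivOfCardEq (by
      simp only [Fintype.card_sum, Fintype.card_fin, Fintype.card_unit]; omega)
  have h1 := h.reindex e f
  have h2 : LB (Fin r ⊕ Fin (m - r)) (Fin r ⊕ Fin (n - r)) (Fintype.card (Fin r)) K := by
    rw [Fintype.card_fin]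
    exact h1
  have h3 := (step K h2).reindex e.symm g
  have h4 : Fintype.card (Fin r ⊕ Fin (m - r)) = m := by
    simp only [Fintype.card_sum, Fintype.card_fin]; omega
  rw [h4, Fintype.card_fin] at h3
  exact h3

/-- One more row. -/
theorem LB_row {m n r K : ℕ} (hr : 1 ≤ r) (hm : r ≤ m) (hn : r ≤ n)
    (h : LB (Fin m) (Fin n) r K) :
    LB (Fin (m + 1)) (Fin n) r (K * (n - 1).choose (r - 1)) :=
  (LB_col hr hn hm h.transpose).transpose

/-- The base case: matrices of full rank. -/
theorem LB_base {m r : ℕ} (hr : 1 ≤ r) (hm : r ≤ m) : LB (Fin m) (Fin r) r 1 := by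
  classical
  have h1 : LB (Fin r ⊕ Fin (m - r)) (Fin r ⊕ Fin 0) r 1 := by
    set U : Set ((Fin r ⊕ Fin (m - r)) → (Fin r ⊕ Fin 0) → ℂ) :=
      {u | (Matrix.of u).toBlocks₁₁.det ≠ 0} ∩ ⋂ i, ⋂ j, {u | u i j ≠ 0} with hUdef
    refine ⟨U, ?_, ?_, ?_⟩
    · apply IsOpen.inter
      · have hc : Continuous fun u : (Fin r ⊕ Fin (m - r)) → (Fin r ⊕ Fin 0) → ℂ =>
            (Matrix.of u).toBlocks₁₁.det := by
          apply Continuous.matrix_det
          apply continuous_matrix
          intro i j
          simp only [Matrix.toBlocks₁₁, Matrix.of_apply]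
          fun_prop
        exact isOpen_ne_fun hc continuous_const
      · apply isOpen_iInter_of_finite
        intro i
        apply isOpen_iInter_of_finite
        intro j
        exact isOpen_ne_fun (by fun_prop) continuous_const
    · refine ⟨fun i j => ((posPoint (Fin r) (Fin (m - r)) (Fin 0) i j : ℚ) : ℂ), ?_, ?_⟩
      · have h2 := posPoint_det (ρ := Fin r) (σ := Fin (m - r)) (κ := Fin 0)
        have h3 : (Matrix.of (fun i j =>
            ((posPoint (Fin r) (Fin (m - r)) (Fin 0) i j : ℚ) : ℂ))).toBlocks₁₁ =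
            (Rat.castHom ℂ).mapMatrix (posPoint (Fin r) (Fin (m - r)) (Fin 0)).toBlocks₁₁ := by
          ext i j
          simp [Matrix.toBlocks₁₁]
        change (Matrix.of _).toBlocks₁₁.det ≠ 0
        rw [h3, ← RingHom.map_det]
        intro h4
        apply h2
        exact (Rat.castHom ℂ).injective (by rw [h4, map_zero])
      · simp only [Set.mem_iInter]
        intro i j
        change ((posPoint (Fin r) (Fin (m - r)) (Fin 0) i j : ℚ) : ℂ) ≠ 0
        rw [Rat.cast_ne_zero]
        rcases j with j | j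
        · rcases i with i | i
          · simp only [posPoint, Matrix.fromBlocks_apply₁₁, Matrix.of_apply]
            split_ifs <;> norm_num
          · simp [posPoint]
        · exact j.elim0
    · intro u hu
      have hne : ∀ i j, u i j ≠ 0 := by
        intro i j
        have := hu.2
        simp only [Set.mem_iInter] at this
        exact this i j
      have hG : G (Matrix.of u) (Matrix.of u) = 0 := by
        ext i j
        simp [G, hne i j]
      refine ⟨{Matrix.of u}, by simp, ?_⟩
      intro p hp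
      rw [Finset.mem_singleton] at hp
      rw [hp]
      refine ⟨?_, hne, by rw [hG]; simp, by rw [hG]; simp⟩
      apply le_antisymm
      · have := Matrix.rank_le_card_width (Matrix.of u)
        simpa using this
      · have h2 : (Matrix.fromCols (1 : Matrix (Fin r) (Fin r) ℂ)
            (0 : Matrix (Fin r) (Fin (m - r)) ℂ)) * Matrix.of u *
            (Matrix.fromRows (1 : Matrix (Fin r) (Fin r) ℂ) (0 : Matrix (Fin 0) (Fin r) ℂ)) =
            (Matrix.of u).toBlocks₁₁ := by
          conv_lhs => rw [← Matrix.fromBlocks_toBlocks (Matrix.of u)]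
          rw [← Matrix.fromRows_fromCols_eq_fromBlocks, Matrix.fromCols_mul_fromRows]
          simp [Matrix.fromCols_mul_fromRows]
        have h3 : (Matrix.of u).toBlocks₁₁.rank = r := by
          rw [Matrix.rank_of_det_ne_zero hu.1, Fintype.card_fin]
        calc r = ((Matrix.of u).toBlocks₁₁).rank := h3.symm
          _ ≤ (Matrix.of u).rank := by
            rw [← h2]
            exact le_trans (Matrix.rank_mul_le_left _ _) (Matrix.rank_mul_le_right _ _)
  have e : Fin m ≃ Fin r ⊕ Fin (m - r) :=
    Fintype.equivOfCardEq (by simp only [Fintype.card_sum, Fintype.card_fin]; omega)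
  have f : Fin r ≃ Fin r ⊕ Fin 0 :=
    Fintype.equivOfCardEq (by simp only [Fintype.card_sum, Fintype.card_fin]; omega)
  exact h1.reindex e f

end Pool.ML
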