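import Pool.Agent.ML14.Ext

/-!
# The map of the extended coordinates is a local homeomorphism at the limit solutions
-/

set_option linter.unusedSectionVars false
set_option linter.unusedSimpArgs false

namespace Pool.ML

open Matrix Filter Topology

theorem hasDerivAt_mul_entry {a b c : Type} [Fintype b] (P : ℂ → Matrix a b ℂ)
    (P' : Matrix a b ℂ) (Q : ℂ → Matrix b c ℂ) (Q' : Matrix b c ℂ)
    (hP : ∀ i k, HasDerivAt (fun t => P t i k) (P' i k) 0)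
    (hQ : ∀ k j, HasDerivAt (fun t => Q t k j) (Q' k j) 0) (i : a) (j : c) :
    HasDerivAt (fun t => (P t * Q t) i j) ((P' * Q 0 + P 0 * Q') i j) 0 := by
  have h1 : (P' * Q 0 + P 0 * Q') i j = ∑ k, (P' i k * Q 0 k j + P 0 i k * Q' k j) := by
    rw [Matrix.add_apply, Matrix.mul_apply, Matrix.mul_apply, ← Finset.sum_add_distrib]
  rw [h1]
  simp only [Matrix.mul_apply]
  apply HasDerivAt.fun_sum
  intro k _
  exact (hP i k).mul (hQ k j)

variable {ρ σ κ : Type} [Fintype ρ] [Fintype σ] [Fintype κ]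
  [DecidableEq ρ] [DecidableEq σ] [DecidableEq κ]

theorem hasDerivAt_line {a b : Type} (A A' : Matrix a b ℂ) (i : a) (j : b) :
    HasDerivAt (fun t : ℂ => (A + t • A') i j) (A' i j) 0 := by
  simp only [Matrix.add_apply, Matrix.smul_apply, smul_eq_mul]
  have h := ((hasDerivAt_id (0 : ℂ)).mul_const (A' i j)).const_add (A i j)
  simpa using h

theorem hasDerivAt_pmat (X Y : Matrix (ρ ⊕ σ) (ρ ⊕ κ) ℂ) (i : ρ ⊕ σ) (j : ρ ⊕ κ) :
    HasDerivAt (fun t : ℂ => pmat (X + t • Y) i j) (dpmat X Y i j) 0 := by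
  have h1 := hasDerivAt_mul_entry (fun t : ℂ => Lm (X + t • Y)) (Ld Y)
    (fun t => (X + t • Y).toBlocks₁₁) Y.toBlocks₁₁
    (fun i k => by
      simp only [Lm_add, Ld_smul]
      exact hasDerivAt_line _ _ _ _)
    (fun k l => by
      simp only [blocks_add, blocks_smul]
      exact hasDerivAt_line _ _ _ _)
  have h2 := hasDerivAt_mul_entry (fun t : ℂ => Lm (X + t • Y) * (X + t • Y).toBlocks₁₁) _
    (fun t => Um (X + t • Y)) (Ud Y) h1
    (fun k l => by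
      simp only [Um_add, Ud_smul]
      exact hasDerivAt_line _ _ _ _) i j
  have h3 : (Ld Y * (X + (0 : ℂ) • Y).toBlocks₁₁ + Lm (X + (0 : ℂ) • Y) * Y.toBlocks₁₁) *
      Um (X + (0 : ℂ) • Y) + Lm (X + (0 : ℂ) • Y) * (X + (0 : ℂ) • Y).toBlocks₁₁ * Ud Y =
      dpmat X Y := by
    rw [zero_smul, add_zero, dpmat, Matrix.add_mul]
  rw [h3] at h2
  exact h2

theorem hasDerivAt_gmat (X Y : Matrix (ρ ⊕ σ) (ρ ⊕ κ) ℂ) (i : ρ ⊕ σ) (j : ρ ⊕ κ) :
    HasDerivAt (fun t : ℂ => gmat (X + t • Y) i j) (dgmat X Y i j) 0 := by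
  have h1 := hasDerivAt_mul_entry (fun t : ℂ => Nm (X + t • Y)) (Nd Y)
    (fun t => (X + t • Y).toBlocks₂₂) Y.toBlocks₂₂
    (fun i k => by
      simp only [Nm_add, Nd_smul]
      exact hasDerivAt_line _ _ _ _)
    (fun k l => by
      simp only [blocks_add, blocks_smul]
      exact hasDerivAt_line _ _ _ _)
  have h2 := hasDerivAt_mul_entry (fun t : ℂ => Nm (X + t • Y) * (X + t • Y).toBlocks₂₂) _
    (fun t => Vm (X + t • Y)) (Vd Y) h1
    (fun k l => by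
      simp only [Vm_add, Vd_smul]
      exact hasDerivAt_line _ _ _ _) i j
  have h3 : (Nd Y * (X + (0 : ℂ) • Y).toBlocks₂₂ + Nm (X + (0 : ℂ) • Y) * Y.toBlocks₂₂) *
      Vm (X + (0 : ℂ) • Y) + Nm (X + (0 : ℂ) • Y) * (X + (0 : ℂ) • Y).toBlocks₂₂ * Vd Y =
      dgmat X Y := by
    rw [zero_smul, add_zero, dgmat, Matrix.add_mul]
  rw [h3] at h2
  exact h2

theorem hasDerivAt_psi (X Y : Matrix (ρ ⊕ σ) (ρ ⊕ κ) ℂ) (i : ρ ⊕ σ) (j : ρ ⊕ κ) :
    HasDerivAt (fun t : ℂ => psi (X + t • Y) i j) (dpsi X Y i j) 0 := by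
  have h := (hasDerivAt_pmat X Y i j).mul ((hasDerivAt_gmat X Y i j).const_add 1)
  simp only [zero_smul, add_zero] at h
  exact h

/-- The extended coordinates. -/
abbrev Ec (ρ σ κ : Type) := ((ρ ⊕ σ) → (ρ ⊕ κ) → ℂ) × (ρ → ℂ) × (σ → ℂ) × ℂ

/-- The extended data. -/
abbrev Ed (ρ σ κ : Type) := ((ρ ⊕ σ) → (ρ ⊕ κ) → ℂ) × ((ρ ⊕ σ) → ℂ) × ℂ

/-- The map from the extended coordinates to the extended data. -/
def Psi (z : Ec ρ σ κ) : Ed ρ σ κ :=
  (fun i j => uold (Matrix.of z.1) z.2.1 z.2.2.1 z.2.2.2 i j,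
    fun i => dvec (Matrix.of z.1) z.2.1 i * zvec (Matrix.of z.1) z.2.2.1 i, z.2.2.2)

theorem contDiff_L (i : ρ ⊕ σ) (k : ρ) :
    ContDiff ℂ 1 (fun z : Ec ρ σ κ => Lm (Matrix.of z.1) i k) := by
  rcases i with i | i
  · simp only [Lm, Matrix.fromRows_apply_inl]
    exact contDiff_const
  · simp only [Lm, Matrix.fromRows_apply_inr, Matrix.toBlocks₂₁, Matrix.of_apply]
    fun_prop

theorem contDiff_U (k : ρ) (j : ρ ⊕ κ) :
    ContDiff ℂ 1 (fun z : Ec ρ σ κ => Um (Matrix.of z.1) k j) := by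
  rcases j with j | j
  · simp only [Um, Matrix.fromCols_apply_inl]
    exact contDiff_const
  · simp only [Um, Matrix.fromCols_apply_inr, Matrix.toBlocks₁₂, Matrix.of_apply]
    fun_prop

theorem contDiff_N (i : ρ ⊕ σ) (k : σ) :
    ContDiff ℂ 1 (fun z : Ec ρ σ κ => Nm (Matrix.of z.1) i k) := by
  rcases i with i | i
  · simp only [Nm, Matrix.fromRows_apply_inl, Matrix.toBlocks₂₁, Matrix.of_apply,
      Matrix.neg_apply, Matrix.transpose_apply]
    fun_prop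
  · simp only [Nm, Matrix.fromRows_apply_inr]
    exact contDiff_const

theorem contDiff_V (k : κ) (j : ρ ⊕ κ) :
    ContDiff ℂ 1 (fun z : Ec ρ σ κ => Vm (Matrix.of z.1) k j) := by
  rcases j with j | j
  · simp only [Vm, Matrix.fromCols_apply_inl, Matrix.toBlocks₁₂, Matrix.of_apply,
      Matrix.neg_apply, Matrix.transpose_apply]
    fun_prop
  · simp only [Vm, Matrix.fromCols_apply_inr]
    exact contDiff_const

theorem contDiff_pmat (i : ρ ⊕ σ) (j : ρ ⊕ κ) :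
    ContDiff ℂ 1 (fun z : Ec ρ σ κ => pmat (Matrix.of z.1) i j) := by
  simp only [pmat, Matrix.mul_apply]
  refine ContDiff.sum fun l _ => ContDiff.mul (ContDiff.sum fun k _ =>
    ContDiff.mul (contDiff_L i k) ?_) (contDiff_U l j)
  simp only [Matrix.toBlocks₁₁, Matrix.of_apply]
  fun_prop

theorem contDiff_gmat (i : ρ ⊕ σ) (j : ρ ⊕ κ) :
    ContDiff ℂ 1 (fun z : Ec ρ σ κ => gmat (Matrix.of z.1) i j) := by
  simp only [gmat, Matrix.mul_apply]
  refine ContDiff.sum fun l _ => ContDiff.mul (ContDiff.sum fun k _ =>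
    ContDiff.mul (contDiff_N i k) ?_) (contDiff_V l j)
  simp only [Matrix.toBlocks₂₂, Matrix.of_apply]
  fun_prop

theorem contDiff_Ngam (i : ρ ⊕ σ) :
    ContDiff ℂ 1 (fun z : Ec ρ σ κ => (Nm (Matrix.of z.1) *ᵥ z.2.2.1) i) := by
  simp only [Matrix.mulVec, dotProduct]
  refine ContDiff.sum fun t _ => ContDiff.mul (contDiff_N i t) ?_
  fun_prop

theorem contDiff_dvec (i : ρ ⊕ σ) :
    ContDiff ℂ 1 (fun z : Ec ρ σ κ => dvec (Matrix.of z.1) z.2.1 i) := by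
  simp only [dvec, Matrix.mulVec, dotProduct]
  refine ContDiff.sum fun k _ => ContDiff.mul (contDiff_L i k) (ContDiff.sum fun l _ => ?_)
  simp only [Matrix.toBlocks₁₁, Matrix.of_apply]
  fun_prop

theorem contDiff_Psi : ContDiff ℂ 1 (Psi : Ec ρ σ κ → Ed ρ σ κ) := by
  refine ContDiff.prodMk ?_ (ContDiff.prodMk ?_ ?_)
  · rw [contDiff_pi]
    intro i
    rw [contDiff_pi]
    intro j
    simp only [uold, Matrix.of_apply]
    refine ContDiff.mul (contDiff_pmat i j) (ContDiff.sub (ContDiff.add contDiff_const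
      (contDiff_gmat i j)) (ContDiff.mul (ContDiff.mul ?_ (contDiff_Ngam i)) ?_))
    · fun_prop
    · rcases j with j | j
      · simp only [Sum.elim_inl]
        fun_prop
      · simp only [Sum.elim_inr]
        exact contDiff_const
  · rw [contDiff_pi]
    intro i
    simp only [zvec]
    exact ContDiff.mul (contDiff_dvec i) (ContDiff.add contDiff_const (contDiff_Ngam i))
  · fun_prop

theorem finrank_eq : Module.finrank ℂ (Ec ρ σ κ) = Module.finrank ℂ (Ed ρ σ κ) := by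
  simp only [Module.finrank_prod, Module.finrank_pi, Module.finrank_self,
    Fintype.card_sum, Module.finrank_pi_fintype]
  ring

theorem comp_lin (φ : Ed ρ σ κ →L[ℂ] ℂ) (F : ℂ → Ed ρ σ κ) (h : HasDerivAt F 0 0) :
    HasDerivAt (fun t => φ (F t)) 0 0 := by
  have h1 := φ.hasFDerivAt.comp_hasDerivAt (0 : ℂ) h
  rw [map_zero] at h1
  exact h1

/-- At a non-degenerate limit solution the map `Psi` sends neighbourhoods to neighbourhoods. -/
theorem map_nhds_Psi [Nonempty ρ] (X : Matrix (ρ ⊕ σ) (ρ ⊕ κ) ℂ) (hX : Alg X)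
    (T : Finset (ρ ⊕ σ)) (hT : T.card = Fintype.card ρ) (c : ρ → ℂ) (γ : σ → ℂ)
    (hz : ∀ i, zvec X γ i ≠ 0 ↔ i ∈ T) (hd : ∀ i, i ∉ T → dvec X c i ≠ 0) :
    Filter.map Psi (𝓝 ((fun i j => X i j, c, γ, 0) : Ec ρ σ κ)) =
      𝓝 (Psi ((fun i j => X i j, c, γ, 0) : Ec ρ σ κ)) := by
  set z₀ : Ec ρ σ κ := (fun i j => X i j, c, γ, 0) with hz₀
  have hcd : ContDiffAt ℂ 1 (Psi : Ec ρ σ κ → Ed ρ σ κ) z₀ := contDiff_Psi.contDiffAt
  have hs := hcd.hasStrictFDerivAt one_ne_zero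
  apply hs.map_nhds_eq_of_surj
  set D := fderiv ℂ (Psi : Ec ρ σ κ → Ed ρ σ κ) z₀ with hD
  have hinj : Function.Injective (D : Ec ρ σ κ →ₗ[ℂ] Ed ρ σ κ) := by
    rw [injective_iff_map_eq_zero]
    rintro ⟨Y, c', γ', ε'⟩ hy
    have hy' : D (Y, c', γ', ε') = 0 := hy
    have hl : HasDerivAt (fun t : ℂ => Psi (z₀ + t • ((Y, c', γ', ε') : Ec ρ σ κ)))
        (0 : Ed ρ σ κ) 0 := by
      have h1 := hs.hasFDerivAt.hasLineDerivAt ((Y, c', γ', ε') : Ec ρ σ κ)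
      rw [hy'] at h1
      exact h1
    have hε : ε' = 0 := by
      have h1 := comp_lin ((ContinuousLinearMap.snd ℂ ((ρ ⊕ σ) → ℂ) ℂ).comp
        (ContinuousLinearMap.snd ℂ ((ρ ⊕ σ) → (ρ ⊕ κ) → ℂ) (((ρ ⊕ σ) → ℂ) × ℂ))) _ hl
      have h4 : (fun t : ℂ => ((ContinuousLinearMap.snd ℂ ((ρ ⊕ σ) → ℂ) ℂ).comp
        (ContinuousLinearMap.snd ℂ ((ρ ⊕ σ) → (ρ ⊕ κ) → ℂ) (((ρ ⊕ σ) → ℂ) × ℂ)))
          (Psi (z₀ + t • ((Y, c', γ', ε') : Ec ρ σ κ)))) = fun t => 0 + t * ε' := by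
        funext t
        simp [Psi, hz₀]
      rw [h4] at h1
      have h3 : HasDerivAt (fun t : ℂ => 0 + t * ε') ε' 0 := by
        have h := ((hasDerivAt_id (0 : ℂ)).mul_const ε').const_add 0
        simpa using h
      exact (h1.unique h3).symm
    subst hε
    have hY : Matrix.of Y = 0 := by
      apply dpsi_eq_zero_of_det X _ (Jac_ne_of_alg X hX)
      ext i j
      have h1 := comp_lin ((ContinuousLinearMap.proj (R := ℂ) (φ := fun _ : ρ ⊕ κ => ℂ) j).comp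
        ((ContinuousLinearMap.proj (R := ℂ) (φ := fun _ : ρ ⊕ σ => (ρ ⊕ κ) → ℂ) i).comp
        (ContinuousLinearMap.fst ℂ ((ρ ⊕ σ) → (ρ ⊕ κ) → ℂ) (((ρ ⊕ σ) → ℂ) × ℂ)))) _ hl
      have h4 : (fun t : ℂ => ((ContinuousLinearMap.proj (R := ℂ)
        (φ := fun _ : ρ ⊕ κ => ℂ) j).comp
        ((ContinuousLinearMap.proj (R := ℂ) (φ := fun _ : ρ ⊕ σ => (ρ ⊕ κ) → ℂ) i).comp
        (ContinuousLinearMap.fst ℂ ((ρ ⊕ σ) → (ρ ⊕ κ) → ℂ) (((ρ ⊕ σ) → ℂ) × ℂ))))
          (Psi (z₀ + t • ((Y, c', γ', 0) : Ec ρ σ κ)))) =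
          fun t => psi (X + t • Matrix.of Y) i j := by
        funext t
        have h5 : (z₀ + t • ((Y, c', γ', 0) : Ec ρ σ κ)).2.2.2 = 0 := by
          simp [hz₀]
        have h6 : Matrix.of (z₀ + t • ((Y, c', γ', 0) : Ec ρ σ κ)).1 =
            X + t • Matrix.of Y := rfl
        change uold (Matrix.of (z₀ + t • ((Y, c', γ', 0) : Ec ρ σ κ)).1) _ _
          (z₀ + t • ((Y, c', γ', 0) : Ec ρ σ κ)).2.2.2 i j = _
        rw [h5, uold_zero, h6]
      rw [h4] at h1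
      rw [← (h1.unique (hasDerivAt_psi X (Matrix.of Y) i j))]
      rfl
    have hY' : Y = 0 := hY
    subst hY'
    have hcγ : c' = 0 ∧ γ' = 0 := by
      apply limit_nondeg X hX T hT c γ hz hd
      intro i
      have h1 := comp_lin ((ContinuousLinearMap.proj (R := ℂ) (φ := fun _ : ρ ⊕ σ => ℂ) i).comp
        ((ContinuousLinearMap.fst ℂ ((ρ ⊕ σ) → ℂ) ℂ).comp
        (ContinuousLinearMap.snd ℂ ((ρ ⊕ σ) → (ρ ⊕ κ) → ℂ) (((ρ ⊕ σ) → ℂ) × ℂ)))) _ hl
      have h4 : (fun t : ℂ => ((ContinuousLinearMap.proj (R := ℂ)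
        (φ := fun _ : ρ ⊕ σ => ℂ) i).comp
        ((ContinuousLinearMap.fst ℂ ((ρ ⊕ σ) → ℂ) ℂ).comp
        (ContinuousLinearMap.snd ℂ ((ρ ⊕ σ) → (ρ ⊕ κ) → ℂ) (((ρ ⊕ σ) → ℂ) × ℂ))))
          (Psi (z₀ + t • ((0, c', γ', 0) : Ec ρ σ κ)))) =
          fun t => (dvec X c i + t * dvec X c' i) *
            (zvec X γ i + t * (Nm X *ᵥ γ') i) := by
        funext t
        have h6 : Matrix.of (z₀ + t • ((0, c', γ', 0) : Ec ρ σ κ)).1 = X := by
          ext a b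
          simp [hz₀]
        have h7 : (z₀ + t • ((0, c', γ', 0) : Ec ρ σ κ)).2.1 = c + t • c' := rfl
        have h8 : (z₀ + t • ((0, c', γ', 0) : Ec ρ σ κ)).2.2.1 = γ + t • γ' := rfl
        change dvec (Matrix.of (z₀ + t • ((0, c', γ', 0) : Ec ρ σ κ)).1)
          (z₀ + t • ((0, c', γ', 0) : Ec ρ σ κ)).2.1 i *
          zvec (Matrix.of (z₀ + t • ((0, c', γ', 0) : Ec ρ σ κ)).1)
          (z₀ + t • ((0, c', γ', 0) : Ec ρ σ κ)).2.2.1 i = _
        rw [h6, h7, h8]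
        simp only [dvec, zvec, Matrix.mulVec_add, Matrix.mulVec_smul, Pi.add_apply,
          Pi.smul_apply, smul_eq_mul]
        ring
      rw [h4] at h1
      have h9 : HasDerivAt (fun t : ℂ => (dvec X c i + t * dvec X c' i) *
            (zvec X γ i + t * (Nm X *ᵥ γ') i))
          (dvec X c' i * zvec X γ i + dvec X c i * (Nm X *ᵥ γ') i) 0 := by
        have ha := ((hasDerivAt_id (0 : ℂ)).mul_const (dvec X c' i)).const_add (dvec X c i)
        have hb := ((hasDerivAt_id (0 : ℂ)).mul_const ((Nm X *ᵥ γ') i)).const_add (zvec X γ i)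
        have hc := ha.fun_mul hb
        simpa using hc
      exact (h1.unique h9).symm
    rw [hcγ.1, hcγ.2]
    rfl
  have hsurj := (LinearMap.injective_iff_surjective_of_finrank_eq_finrank
    (f := (D : Ec ρ σ κ →ₗ[ℂ] Ed ρ σ κ)) finrank_eq).mp hinj
  exact LinearMap.range_eq_top.mpr hsurj

end Pool.ML
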