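import Mathlib

/-!
# Critical points of the likelihood function on matrices of given rank: a chart

`PCrit r u p` is the Poisson form of the critical equations.  In the chart of the matrices whose
leading block is invertible the solutions are the fibres of the polynomial map `psi`.
-/

set_option linter.unusedSectionVars false
set_option linter.unusedSimpArgs false

namespace Pool.ML

open Matrix

/-- `G u p = u / p - 1`, entry by entry. -/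
noncomputable def G {I J : Type*} (u p : Matrix I J ℂ) : Matrix I J ℂ :=
  Matrix.of fun i j => u i j / p i j - 1

/-- The Poisson form of the critical equations: `p` has rank `r` and non-zero entries and
`G = u / p - 1` is orthogonal to the tangent space `{Z p + p Y}`. -/
structure PCrit {I J : Type*} [Fintype I] [Fintype J] (r : ℕ) (u p : Matrix I J ℂ) : Prop where
  rk : p.rank = r
  ne : ∀ i j, p i j ≠ 0
  right : p * (G u p)ᵀ = 0
  left : (G u p)ᵀ * p = 0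

section Chart

variable {ρ σ κ : Type*} [Fintype ρ] [Fintype σ] [Fintype κ]
  [DecidableEq ρ] [DecidableEq σ] [DecidableEq κ]
variable {R S : Type*} [CommRing R] [CommRing S]

/-- The columns `(1, C)`. -/
def Lm (X : Matrix (ρ ⊕ σ) (ρ ⊕ κ) R) : Matrix (ρ ⊕ σ) ρ R :=
  Matrix.fromRows 1 X.toBlocks₂₁

/-- The rows `(1, B)`. -/
def Um (X : Matrix (ρ ⊕ σ) (ρ ⊕ κ) R) : Matrix ρ (ρ ⊕ κ) R :=
  Matrix.fromCols 1 X.toBlocks₁₂

/-- A basis of the kernel of the transpose of `Lm`. -/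
def Nm (X : Matrix (ρ ⊕ σ) (ρ ⊕ κ) R) : Matrix (ρ ⊕ σ) σ R :=
  Matrix.fromRows (-X.toBlocks₂₁ᵀ) 1

/-- A basis of the kernel of `Um`, as rows. -/
def Vm (X : Matrix (ρ ⊕ σ) (ρ ⊕ κ) R) : Matrix κ (ρ ⊕ κ) R :=
  Matrix.fromCols (-X.toBlocks₁₂ᵀ) 1

/-- The matrix of rank at most `ρ`. -/
def pmat (X : Matrix (ρ ⊕ σ) (ρ ⊕ κ) R) : Matrix (ρ ⊕ σ) (ρ ⊕ κ) R :=
  Lm X * X.toBlocks₁₁ * Um X

/-- The matrix orthogonal to the tangent space. -/
def gmat (X : Matrix (ρ ⊕ σ) (ρ ⊕ κ) R) : Matrix (ρ ⊕ σ) (ρ ⊕ κ) R :=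
  Nm X * X.toBlocks₂₂ * Vm X

/-- The data for which `pmat X` is critical. -/
def psi (X : Matrix (ρ ⊕ σ) (ρ ⊕ κ) R) : Matrix (ρ ⊕ σ) (ρ ⊕ κ) R :=
  Matrix.of fun i j => pmat X i j * (1 + gmat X i j)

theorem Lm_transpose_mul_Nm (X : Matrix (ρ ⊕ σ) (ρ ⊕ κ) R) : (Lm X)ᵀ * Nm X = 0 := by
  simp [Lm, Nm, Matrix.transpose_fromRows, Matrix.fromCols_mul_fromRows]

theorem Um_mul_Vm_transpose (X : Matrix (ρ ⊕ σ) (ρ ⊕ κ) R) : Um X * (Vm X)ᵀ = 0 := by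
  simp [Um, Vm, Matrix.transpose_fromCols, Matrix.fromCols_mul_fromRows]

theorem pmat_mul_gmat_transpose (X : Matrix (ρ ⊕ σ) (ρ ⊕ κ) R) : pmat X * (gmat X)ᵀ = 0 := by
  have h := Um_mul_Vm_transpose X
  rw [pmat, gmat, Matrix.transpose_mul, Matrix.mul_assoc, ← Matrix.mul_assoc (Um X), h]
  simp

theorem gmat_transpose_mul_pmat (X : Matrix (ρ ⊕ σ) (ρ ⊕ κ) R) : (gmat X)ᵀ * pmat X = 0 := by
  have h := Lm_transpose_mul_Nm X
  have h' : (Nm X)ᵀ * Lm X = 0 := by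
    rw [← Matrix.transpose_transpose (Lm X), ← Matrix.transpose_mul, h, Matrix.transpose_zero]
  rw [pmat, gmat, Matrix.transpose_mul, Matrix.transpose_mul, Matrix.mul_assoc,
    Matrix.mul_assoc, Matrix.mul_assoc, ← Matrix.mul_assoc (Nm X)ᵀ (Lm X), h']
  simp

theorem pmat_eq_fromBlocks (X : Matrix (ρ ⊕ σ) (ρ ⊕ κ) R) :
    pmat X = Matrix.fromBlocks X.toBlocks₁₁ (X.toBlocks₁₁ * X.toBlocks₁₂)
      (X.toBlocks₂₁ * X.toBlocks₁₁) (X.toBlocks₂₁ * X.toBlocks₁₁ * X.toBlocks₁₂) := by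
  simp [pmat, Lm, Um, Matrix.fromRows_mul, Matrix.fromRows_mul_fromCols]

theorem gmat_eq_fromBlocks (X : Matrix (ρ ⊕ σ) (ρ ⊕ κ) R) :
    gmat X = Matrix.fromBlocks (X.toBlocks₂₁ᵀ * X.toBlocks₂₂ * X.toBlocks₁₂ᵀ)
      (-(X.toBlocks₂₁ᵀ * X.toBlocks₂₂)) (-(X.toBlocks₂₂ * X.toBlocks₁₂ᵀ)) X.toBlocks₂₂ := by
  simp [gmat, Nm, Vm, Matrix.fromRows_mul, Matrix.fromRows_mul_fromCols]

theorem toBlocks_map (X : Matrix (ρ ⊕ σ) (ρ ⊕ κ) R) (f : R → S) :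
    (X.map f).toBlocks₁₁ = X.toBlocks₁₁.map f ∧ (X.map f).toBlocks₁₂ = X.toBlocks₁₂.map f ∧
    (X.map f).toBlocks₂₁ = X.toBlocks₂₁.map f ∧ (X.map f).toBlocks₂₂ = X.toBlocks₂₂.map f :=
  ⟨rfl, rfl, rfl, rfl⟩

theorem Lm_map (X : Matrix (ρ ⊕ σ) (ρ ⊕ κ) R) (f : R →+* S) : Lm (X.map f) = (Lm X).map f := by
  ext i k
  rcases i with i | i
  · simp [Lm, Matrix.one_apply, apply_ite f]
  · simp [Lm, Matrix.toBlocks₂₁]

theorem Um_map (X : Matrix (ρ ⊕ σ) (ρ ⊕ κ) R) (f : R →+* S) : Um (X.map f) = (Um X).map f := by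
  ext k j
  rcases j with j | j
  · simp [Um, Matrix.one_apply, apply_ite f]
  · simp [Um, Matrix.toBlocks₁₂]

theorem Nm_map (X : Matrix (ρ ⊕ σ) (ρ ⊕ κ) R) (f : R →+* S) : Nm (X.map f) = (Nm X).map f := by
  ext i k
  rcases i with i | i
  · simp [Nm, Matrix.toBlocks₂₁]
  · simp [Nm, Matrix.one_apply, apply_ite f]

theorem Vm_map (X : Matrix (ρ ⊕ σ) (ρ ⊕ κ) R) (f : R →+* S) : Vm (X.map f) = (Vm X).map f := by
  ext k j
  rcases j with j | j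
  · simp [Vm, Matrix.toBlocks₁₂]
  · simp [Vm, Matrix.one_apply, apply_ite f]

theorem pmat_map (X : Matrix (ρ ⊕ σ) (ρ ⊕ κ) R) (f : R →+* S) :
    pmat (X.map f) = (pmat X).map f := by
  rw [pmat, pmat, Lm_map, Um_map, (toBlocks_map X f).1, Matrix.map_mul, Matrix.map_mul]

theorem gmat_map (X : Matrix (ρ ⊕ σ) (ρ ⊕ κ) R) (f : R →+* S) :
    gmat (X.map f) = (gmat X).map f := by
  rw [gmat, gmat, Nm_map, Vm_map, (toBlocks_map X f).2.2.2, Matrix.map_mul, Matrix.map_mul]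

theorem psi_map (X : Matrix (ρ ⊕ σ) (ρ ⊕ κ) R) (f : R →+* S) :
    psi (X.map f) = (psi X).map f := by
  ext i j
  simp [psi, pmat_map, gmat_map]

end Chart

end Pool.ML
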