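import Pool.Agent.ML14.Eval

/-!
# Counting monomials
-/

set_option linter.unusedSectionVars false
set_option linter.unusedSimpArgs false

namespace Pool.ML

variable {ρ' σ κ : Type} [Fintype ρ'] [Fintype σ] [Fintype κ]
  [DecidableEq ρ'] [DecidableEq σ] [DecidableEq κ]
variable {A : Type} [CommRing A] [Nontrivial A]

/-- Exponents in the four kinds of variables. -/
abbrev Ex (ρ' σ κ : Type) :=
  ((σ × Option ρ') → ℕ) × ((Option ρ' × ρ') → ℕ) × (κ → ρ' → ℕ) × (κ → σ → ℕ)

/-- The monomial with given exponents. -/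
noncomputable def toMon (e : Ex ρ' σ κ) : Vr ρ' σ κ →₀ ℕ :=
  Finsupp.equivFunOnFinite.symm fun x =>
    Sum.elim e.1 (Sum.elim e.2.1 (Sum.elim (fun y => e.2.2.1 y.1 y.2)
      (fun y => e.2.2.2 y.1 y.2))) x

/-- The exponents of a monomial. -/
def ofMon (m : Vr ρ' σ κ →₀ ℕ) : Ex ρ' σ κ :=
  (fun x => m (Sum.inl x), fun x => m (Sum.inr (Sum.inl x)),
    fun j k => m (Sum.inr (Sum.inr (Sum.inl (j, k)))),
    fun j t => m (Sum.inr (Sum.inr (Sum.inr (j, t)))))

theorem toMon_ofMon (m : Vr ρ' σ κ →₀ ℕ) : toMon (ofMon m) = m := by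
  ext x
  rcases x with x | x | x | x <;> simp [toMon, ofMon]

/-- The box of exponents. -/
def box (ρ' σ κ : Type) [Fintype ρ'] [Fintype σ] [Fintype κ]
    [DecidableEq ρ'] [DecidableEq σ] [DecidableEq κ] (a b c d : ℕ) : Finset (Ex ρ' σ κ) :=
  (SB (σ × Option ρ') a) ×ˢ ((SB (Option ρ' × ρ') b) ×ˢ
    ((Fintype.piFinset fun _ : κ => SB ρ' c) ×ˢ (Fintype.piFinset fun _ : κ => SB σ d)))

theorem ofMon_mem (m : Vr ρ' σ κ →₀ ℕ) (a b c d : ℕ)
    (h : ∀ x, wt grp x m ≤ dg a b (fun _ => c) (fun _ => d) x) :
    ofMon m ∈ box ρ' σ κ a b c d := by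
  rw [box, Finset.mem_product, Finset.mem_product, Finset.mem_product]
  refine ⟨?_, ?_, ?_, ?_⟩
  · rw [mem_SB]
    have h1 := h Gr.c
    simp only [wt, Fintype.sum_sum_type, grp] at h1
    simp only [reduceCtorEq, if_false, Finset.sum_const_zero, add_zero, if_true] at h1
    exact h1
  · rw [mem_SB]
    have h1 := h Gr.w
    simp only [wt, Fintype.sum_sum_type, grp] at h1
    simp only [reduceCtorEq, if_false, Finset.sum_const_zero, add_zero, zero_add,
      if_true] at h1
    exact h1
  · rw [Fintype.mem_piFinset]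
    intro j
    rw [mem_SB]
    have h1 := h (Gr.y j)
    simp only [wt, Fintype.sum_sum_type, grp] at h1
    simp only [reduceCtorEq, if_false, Finset.sum_const_zero, add_zero, zero_add,
      Gr.y.injEq, Fintype.sum_prod_type] at h1
    rw [Finset.sum_eq_single j] at h1
    · simp only [if_true] at h1
      exact h1
    · intro j' _ hj'
      simp [hj']
    · intro hj
      exact absurd (Finset.mem_univ j) hj
  · rw [Fintype.mem_piFinset]
    intro j
    rw [mem_SB]
    have h1 := h (Gr.g j)
    simp only [wt, Fintype.sum_sum_type, grp] at h1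
    simp only [reduceCtorEq, if_false, Finset.sum_const_zero, add_zero, zero_add,
      Gr.g.injEq, Fintype.sum_prod_type] at h1
    rw [Finset.sum_eq_single j] at h1
    · simp only [if_true] at h1
      exact h1
    · intro j' _ hj'
      simp [hj']
    · intro hj
      exact absurd (Finset.mem_univ j) hj

theorem card_box (a b c d : ℕ) : (box ρ' σ κ a b c d).card =
    (SB (σ × Option ρ') a).card * ((SB (Option ρ' × ρ') b).card *
      ((SB ρ' c).card ^ Fintype.card κ * (SB σ d).card ^ Fintype.card κ)) := by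
  rw [box, Finset.card_product, Finset.card_product, Finset.card_product,
    Fintype.card_piFinset, Fintype.card_piFinset]
  simp

/-- The coefficients in the box. -/
noncomputable def coefL (A : Type) [CommRing A] (a b c d : ℕ) :
    MvPolynomial (Vr ρ' σ κ) A →ₗ[A] (box ρ' σ κ a b c d → A) where
  toFun F := fun e => MvPolynomial.coeff (toMon e.1) F
  map_add' F F' := by
    funext e
    simp
  map_smul' x F := by
    funext e
    simp

theorem eq_zero_of_coefL (a b c d : ℕ) (F : MvPolynomial (Vr ρ' σ κ) A)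
    (hF : Bd grp (dg a b (fun _ => c) (fun _ => d)) F) (h : coefL A a b c d F = 0) :
    F = 0 := by
  ext m
  rw [MvPolynomial.coeff_zero]
  by_contra hm
  have h1 := hF m (MvPolynomial.mem_support_iff.mpr hm)
  have h2 := congrFun h ⟨ofMon m, ofMon_mem m a b c d h1⟩
  change MvPolynomial.coeff (toMon (ofMon m)) F = 0 at h2
  rw [toMon_ofMon] at h2
  exact hm h2

/-- A linearly independent family of polynomials with degrees in the box is small. -/
theorem card_le_box {β : Type} [Fintype β] (a b c d : ℕ)
    (F : β → MvPolynomial (Vr ρ' σ κ) A) (hlin : LinearIndependent A F)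
    (hF : ∀ x, Bd grp (dg a b (fun _ => c) (fun _ => d)) (F x)) :
    Fintype.card β ≤ (box ρ' σ κ a b c d).card := by
  have hspan : ∀ x ∈ Submodule.span A (Set.range F),
      Bd grp (dg a b (fun _ => c) (fun _ => d)) x := by
    intro x hx
    induction hx using Submodule.span_induction with
    | mem x hx =>
      obtain ⟨y, rfl⟩ := hx
      exact hF y
    | zero => exact Bd.zero _
    | add x y _ _ hx hy => exact hx.add hy
    | smul r x _ hx =>
      rw [MvPolynomial.smul_eq_C_mul]
      have h1 := (Bd.const (grp := grp) (0 : Gr κ → ℕ) r).mul hx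
      rwa [zero_add] at h1
  have hdis : Disjoint (Submodule.span A (Set.range F)) (LinearMap.ker (coefL A a b c d)) := by
    rw [Submodule.disjoint_def]
    intro x hx hx'
    exact eq_zero_of_coefL a b c d x (hspan x hx) hx'
  have h2 := (hlin.map hdis).fintype_card_le_finrank
  rw [Module.finrank_pi, Fintype.card_coe] at h2
  exact h2

end Pool.ML
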