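import Pool.Agent.ML14.Chart

/-!
# The chart parametrises the critical points
-/

set_option linter.unusedSectionVars false
set_option linter.unusedSimpArgs false

namespace Pool.ML

open Matrix

variable {ρ σ κ : Type*} [Fintype ρ] [Fintype σ] [Fintype κ]
  [DecidableEq ρ] [DecidableEq σ] [DecidableEq κ]

/-- The chart: the coordinates of a matrix `p` with data `u`. -/
noncomputable def chart (u p : Matrix (ρ ⊕ σ) (ρ ⊕ κ) ℂ) : Matrix (ρ ⊕ σ) (ρ ⊕ κ) ℂ :=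
  Matrix.fromBlocks p.toBlocks₁₁ (p.toBlocks₁₁⁻¹ * p.toBlocks₁₂)
    (p.toBlocks₂₁ * p.toBlocks₁₁⁻¹) (G u p).toBlocks₂₂

theorem rank_pmat (X : Matrix (ρ ⊕ σ) (ρ ⊕ κ) ℂ) (h : X.toBlocks₁₁.det ≠ 0) :
    (pmat X).rank = Fintype.card ρ := by
  apply le_antisymm
  · rw [pmat, Matrix.mul_assoc]
    exact le_trans (Matrix.rank_mul_le_left _ _) (Matrix.rank_le_card_width _)
  · have h1 : (Matrix.fromCols (1 : Matrix ρ ρ ℂ) (0 : Matrix ρ σ ℂ)) * pmat X *
        (Matrix.fromRows (1 : Matrix ρ ρ ℂ) (0 : Matrix κ ρ ℂ)) = X.toBlocks₁₁ := by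
      rw [pmat, Lm, Um]
      have h2 : (Matrix.fromCols (1 : Matrix ρ ρ ℂ) (0 : Matrix ρ σ ℂ)) *
          Matrix.fromRows (1 : Matrix ρ ρ ℂ) X.toBlocks₂₁ = 1 := by
        simp [Matrix.fromCols_mul_fromRows]
      have h3 : Matrix.fromCols (1 : Matrix ρ ρ ℂ) X.toBlocks₁₂ *
          (Matrix.fromRows (1 : Matrix ρ ρ ℂ) (0 : Matrix κ ρ ℂ)) = 1 := by
        simp [Matrix.fromCols_mul_fromRows]
      rw [← Matrix.mul_assoc, ← Matrix.mul_assoc, h2, Matrix.mul_assoc, h3]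
      simp
    have h4 : X.toBlocks₁₁.rank = Fintype.card ρ := Matrix.rank_of_det_ne_zero h
    rw [← h4, ← h1]
    exact le_trans (Matrix.rank_mul_le_left _ _) (Matrix.rank_mul_le_right _ _)

theorem G_psi (X : Matrix (ρ ⊕ σ) (ρ ⊕ κ) ℂ) (h : ∀ i j, pmat X i j ≠ 0) :
    G (psi X) (pmat X) = gmat X := by
  ext i j
  simp only [G, psi, Matrix.of_apply]
  rw [mul_div_cancel_left₀ _ (h i j)]
  ring

/-- Points of the chart are critical for the data `psi X`. -/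
theorem pcrit_pmat (X : Matrix (ρ ⊕ σ) (ρ ⊕ κ) ℂ) (hW : X.toBlocks₁₁.det ≠ 0)
    (h : ∀ i j, pmat X i j ≠ 0) : PCrit (Fintype.card ρ) (psi X) (pmat X) where
  rk := rank_pmat X hW
  ne := h
  right := by rw [G_psi X h]; exact pmat_mul_gmat_transpose X
  left := by rw [G_psi X h]; exact gmat_transpose_mul_pmat X

theorem schur_zero (p : Matrix (ρ ⊕ σ) (ρ ⊕ κ) ℂ) (hr : p.rank = Fintype.card ρ)
    (hW : p.toBlocks₁₁.det ≠ 0) :
    p.toBlocks₂₂ = p.toBlocks₂₁ * p.toBlocks₁₁⁻¹ * p.toBlocks₁₂ := by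
  have hU : IsUnit p.toBlocks₁₁.det := isUnit_iff_ne_zero.mpr hW
  set E : Matrix (ρ ⊕ κ) ρ ℂ := Matrix.fromRows (1 : Matrix ρ ρ ℂ) (0 : Matrix κ ρ ℂ) with hE
  set K : Matrix (ρ ⊕ κ) κ ℂ := Matrix.fromRows (-(p.toBlocks₁₁⁻¹ * p.toBlocks₁₂)) 1 with hK
  have hpE : p * E = Matrix.fromRows p.toBlocks₁₁ p.toBlocks₂₁ := by
    conv_lhs => rw [← Matrix.fromBlocks_toBlocks p]
    rw [hE, ← Matrix.fromRows_fromCols_eq_fromBlocks, Matrix.fromRows_mul,
      Matrix.fromCols_mul_fromRows, Matrix.fromCols_mul_fromRows]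
    simp
  have hpK : p * K = Matrix.fromRows 0
      (p.toBlocks₂₂ - p.toBlocks₂₁ * p.toBlocks₁₁⁻¹ * p.toBlocks₁₂) := by
    conv_lhs => rw [← Matrix.fromBlocks_toBlocks p]
    rw [hK, ← Matrix.fromRows_fromCols_eq_fromBlocks, Matrix.fromRows_mul,
      Matrix.fromCols_mul_fromRows, Matrix.fromCols_mul_fromRows]
    congr 1
    · rw [Matrix.mul_neg, ← Matrix.mul_assoc, Matrix.mul_nonsing_inv _ hU]
      simp
    · rw [Matrix.mul_neg, ← Matrix.mul_assoc, Matrix.mul_one]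
      abel
  have hrE : (p * E).rank = Fintype.card ρ := by
    apply le_antisymm (Matrix.rank_le_card_width _)
    have h1 : (Matrix.fromCols (1 : Matrix ρ ρ ℂ) (0 : Matrix ρ σ ℂ)) * (p * E) =
        p.toBlocks₁₁ := by
      rw [hpE, Matrix.fromCols_mul_fromRows]
      simp
    rw [← Matrix.rank_of_det_ne_zero hW, ← h1]
    exact Matrix.rank_mul_le_right _ _
  have hrange : LinearMap.range (p * E).mulVecLin = LinearMap.range p.mulVecLin := by
    apply Submodule.eq_of_le_of_finrank_eq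
    · rw [Matrix.mulVecLin_mul]
      exact LinearMap.range_comp_le_range _ _
    · change (p * E).rank = p.rank
      rw [hrE, hr]
  have key : ∀ x : κ → ℂ,
      (p.toBlocks₂₂ - p.toBlocks₂₁ * p.toBlocks₁₁⁻¹ * p.toBlocks₁₂) *ᵥ x = 0 := by
    intro x
    have h1 : p *ᵥ (K *ᵥ x) ∈ LinearMap.range p.mulVecLin := ⟨K *ᵥ x, rfl⟩
    rw [← hrange] at h1
    obtain ⟨y, hy⟩ := h1
    rw [Matrix.mulVecLin_apply, Matrix.mulVec_mulVec, hpK, hpE] at hy
    have h2 : p.toBlocks₁₁ *ᵥ y = 0 := by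
      funext k
      have := congrFun hy (Sum.inl k)
      simpa [Matrix.mulVec, dotProduct] using this
    have h3 : y = 0 := by
      have h4 := congrArg (fun v => p.toBlocks₁₁⁻¹ *ᵥ v) h2
      simpa [Matrix.mulVec_mulVec, Matrix.nonsing_inv_mul _ hU] using h4
    funext k
    have := congrFun hy (Sum.inr k)
    rw [h3] at this
    simpa [Matrix.mulVec, dotProduct] using this.symm
  have h5 : p.toBlocks₂₂ - p.toBlocks₂₁ * p.toBlocks₁₁⁻¹ * p.toBlocks₁₂ = 0 := by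
    ext i j
    have := congrFun (key (Pi.single j 1)) i
    simpa using this
  exact sub_eq_zero.mp h5

theorem pmat_chart (u p : Matrix (ρ ⊕ σ) (ρ ⊕ κ) ℂ) (hr : p.rank = Fintype.card ρ)
    (hW : p.toBlocks₁₁.det ≠ 0) : pmat (chart u p) = p := by
  have hU : IsUnit p.toBlocks₁₁.det := isUnit_iff_ne_zero.mpr hW
  rw [pmat_eq_fromBlocks]
  conv_rhs => rw [← Matrix.fromBlocks_toBlocks p]
  simp only [chart, Matrix.toBlocks_fromBlocks₁₁, Matrix.toBlocks_fromBlocks₁₂,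
    Matrix.toBlocks_fromBlocks₂₁, Matrix.toBlocks_fromBlocks₂₂]
  congr 1
  · rw [← Matrix.mul_assoc, Matrix.mul_nonsing_inv _ hU, Matrix.one_mul]
  · rw [Matrix.mul_assoc, Matrix.nonsing_inv_mul _ hU, Matrix.mul_one]
  · rw [schur_zero p hr hW, Matrix.mul_assoc p.toBlocks₂₁ p.toBlocks₁₁⁻¹ p.toBlocks₁₁,
      Matrix.nonsing_inv_mul _ hU, Matrix.mul_one, Matrix.mul_assoc]

theorem gmat_chart (u p : Matrix (ρ ⊕ σ) (ρ ⊕ κ) ℂ) (hp : PCrit (Fintype.card ρ) u p)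
    (hW : p.toBlocks₁₁.det ≠ 0) : gmat (chart u p) = G u p := by
  have hU : IsUnit p.toBlocks₁₁.det := isUnit_iff_ne_zero.mpr hW
  have hpm := pmat_chart u p hp.rk hW
  set X := chart u p with hX
  have hXW : X.toBlocks₁₁ = p.toBlocks₁₁ := by simp [hX, chart]
  have hX4 : X.toBlocks₂₂ = (G u p).toBlocks₂₂ := by simp [hX, chart]
  set g := G u p with hg
  have h1 : Um X * gᵀ = 0 := by
    have h2 : pmat X * gᵀ = 0 := by rw [hpm]; exact hp.right
    rw [pmat] at h2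
    have h3 := congrArg (fun M => X.toBlocks₁₁⁻¹ *
      (Matrix.fromCols (1 : Matrix ρ ρ ℂ) (0 : Matrix ρ σ ℂ) * M)) h2
    have h4 : (Matrix.fromCols (1 : Matrix ρ ρ ℂ) (0 : Matrix ρ σ ℂ)) * Lm X = 1 := by
      simp [Lm, Matrix.fromCols_mul_fromRows]
    simp only [← Matrix.mul_assoc, h4, Matrix.mul_zero] at h3
    rw [Matrix.mul_one, Matrix.nonsing_inv_mul _ (by rw [hXW]; exact hU), Matrix.one_mul] at h3
    exact h3
  have h1' : gᵀ * Lm X = 0 := by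
    have h2 : gᵀ * pmat X = 0 := by rw [hpm]; exact hp.left
    rw [pmat] at h2
    have h3 := congrArg (fun M => M *
      (Matrix.fromRows (1 : Matrix ρ ρ ℂ) (0 : Matrix κ ρ ℂ)) * X.toBlocks₁₁⁻¹) h2
    have h4 : Um X * (Matrix.fromRows (1 : Matrix ρ ρ ℂ) (0 : Matrix κ ρ ℂ)) = 1 := by
      simp [Um, Matrix.fromCols_mul_fromRows]
    simp only [Matrix.mul_assoc, Matrix.zero_mul] at h3
    rw [← Matrix.mul_assoc (Um X), h4, Matrix.one_mul,
      Matrix.mul_nonsing_inv _ (by rw [hXW]; exact hU), Matrix.mul_one] at h3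
    exact h3
  have hgb : g = Matrix.fromBlocks g.toBlocks₁₁ g.toBlocks₁₂ g.toBlocks₂₁ g.toBlocks₂₂ :=
    (Matrix.fromBlocks_toBlocks g).symm
  have e1 : g.toBlocks₁₁ᵀ + X.toBlocks₁₂ * g.toBlocks₁₂ᵀ = 0 ∧
      g.toBlocks₂₁ᵀ + X.toBlocks₁₂ * g.toBlocks₂₂ᵀ = 0 := by
    rw [hgb, Matrix.fromBlocks_transpose, Um, ← Matrix.fromRows_fromCols_eq_fromBlocks,
      Matrix.fromCols_mul_fromRows] at h1
    constructor
    · ext a b
      have := congrFun (congrFun h1 a) (Sum.inl b)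
      simpa [Matrix.mul_apply] using this
    · ext a b
      have := congrFun (congrFun h1 a) (Sum.inr b)
      simpa [Matrix.mul_apply] using this
  have e2 : g.toBlocks₁₁ᵀ + g.toBlocks₂₁ᵀ * X.toBlocks₂₁ = 0 ∧
      g.toBlocks₁₂ᵀ + g.toBlocks₂₂ᵀ * X.toBlocks₂₁ = 0 := by
    rw [hgb, Matrix.fromBlocks_transpose, Lm, Matrix.fromBlocks_mul_fromRows] at h1'
    constructor
    · ext a b
      have := congrFun (congrFun h1' (Sum.inl a)) b
      simpa [Matrix.mul_apply] using this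
    · ext a b
      have := congrFun (congrFun h1' (Sum.inr a)) b
      simpa [Matrix.mul_apply] using this
  have f21 : g.toBlocks₂₁ = -(g.toBlocks₂₂ * X.toBlocks₁₂ᵀ) := by
    have := congrArg Matrix.transpose (eq_neg_of_add_eq_zero_left e1.2)
    simpa [Matrix.transpose_mul] using this
  have f12 : g.toBlocks₁₂ = -(X.toBlocks₂₁ᵀ * g.toBlocks₂₂) := by
    have := congrArg Matrix.transpose (eq_neg_of_add_eq_zero_left e2.2)
    simpa [Matrix.transpose_mul] using this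
  have f11 : g.toBlocks₁₁ = X.toBlocks₂₁ᵀ * g.toBlocks₂₂ * X.toBlocks₁₂ᵀ := by
    have := congrArg Matrix.transpose (eq_neg_of_add_eq_zero_left e2.1)
    rw [Matrix.transpose_transpose, Matrix.transpose_neg, Matrix.transpose_mul,
      Matrix.transpose_transpose, f21, Matrix.mul_neg, neg_neg] at this
    rw [this, Matrix.mul_assoc]
  rw [gmat_eq_fromBlocks, hX4, ← f12, ← f21, ← f11]
  exact Matrix.fromBlocks_toBlocks g

theorem psi_chart (u p : Matrix (ρ ⊕ σ) (ρ ⊕ κ) ℂ) (hp : PCrit (Fintype.card ρ) u p)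
    (hW : p.toBlocks₁₁.det ≠ 0) : psi (chart u p) = u := by
  ext i j
  simp only [psi, Matrix.of_apply]
  rw [gmat_chart u p hp hW, pmat_chart u p hp.rk hW]
  simp only [G, Matrix.of_apply]
  have := hp.ne i j
  field_simp
  ring

theorem chart_pmat (X : Matrix (ρ ⊕ σ) (ρ ⊕ κ) ℂ) (hW : X.toBlocks₁₁.det ≠ 0)
    (h : ∀ i j, pmat X i j ≠ 0) : chart (psi X) (pmat X) = X := by
  have hU : IsUnit X.toBlocks₁₁.det := isUnit_iff_ne_zero.mpr hW
  rw [chart, G_psi X h, pmat_eq_fromBlocks, gmat_eq_fromBlocks]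
  simp only [Matrix.toBlocks_fromBlocks₁₁, Matrix.toBlocks_fromBlocks₁₂,
    Matrix.toBlocks_fromBlocks₂₁, Matrix.toBlocks_fromBlocks₂₂]
  rw [← Matrix.mul_assoc, Matrix.nonsing_inv_mul _ hU, Matrix.one_mul, Matrix.mul_assoc,
    Matrix.mul_nonsing_inv _ hU, Matrix.mul_one]
  exact Matrix.fromBlocks_toBlocks X

end Pool.ML
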