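import Mathlib

/-!
# The ML degree of the matrices of rank at most r
-/

namespace Pool.ML

/-- `p` is a critical point of the likelihood function with data `u` on the complex `m × n`
matrices of rank at most `r`: it has rank exactly `r` (for `r < min m n` these are the smooth
points), all entries are non-zero, it is scaled so that its entries have sum one, and the
differential of `log L_u` vanishes on the tangent space `{Z p + p Y}` of the matrices of rank
`r` at `p`. -/
def IsCritical {m n : ℕ} (r : ℕ) (u p : Matrix (Fin m) (Fin n) ℂ) : Prop :=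
  p.rank = r ∧ (∀ i j, p i j ≠ 0) ∧ ∑ i, ∑ j, p i j = 1 ∧
    ∀ (Z : Matrix (Fin m) (Fin m) ℂ) (Y : Matrix (Fin n) (Fin n) ℂ),
      ∑ i, ∑ j, u i j * (Z * p + p * Y) i j / p i j =
        (∑ i, ∑ j, u i j) * ∑ i, ∑ j, (Z * p + p * Y) i j

/-- `N` is the ML degree of the variety of the `m × n` matrices of rank at most `r`: for all data
`u` outside the zero set of a non-zero polynomial there are exactly `N` critical points. -/
def IsMLDegree (m n r N : ℕ) : Prop :=
  ∃ g : MvPolynomial (Fin m × Fin n) ℂ, g ≠ 0 ∧ ∀ u : Matrix (Fin m) (Fin n) ℂ,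
    MvPolynomial.eval (fun x => u x.1 x.2) g ≠ 0 →
      {p | IsCritical r u p}.Finite ∧ {p | IsCritical r u p}.ncard = N

end Pool.ML
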