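import Mathlib

/-!
# Polynomials with bounded degrees in groups of variables
-/

set_option linter.unusedSectionVars false
set_option linter.unusedSimpArgs false

namespace Pool.ML

open Finset

variable {ι 𝒜 A : Type} [Fintype ι] [DecidableEq 𝒜] [CommRing A] (grp : ι → 𝒜)

/-- The degree of a monomial in the variables of the group `a`. -/
def wt (a : 𝒜) (m : ι →₀ ℕ) : ℕ := ∑ i, if grp i = a then m i else 0

theorem wt_add (a : 𝒜) (m m' : ι →₀ ℕ) : wt grp a (m + m') = wt grp a m + wt grp a m' := by
  rw [wt, wt, wt, ← Finset.sum_add_distrib]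
  refine Finset.sum_congr rfl fun i _ => ?_
  split_ifs <;> simp

theorem wt_zero (a : 𝒜) : wt grp a 0 = 0 := by simp [wt]

/-- The degree of `F` in the group `a` is at most `d a`. -/
def Bd (d : 𝒜 → ℕ) (F : MvPolynomial ι A) : Prop :=
  ∀ m ∈ F.support, ∀ a, wt grp a m ≤ d a

variable {grp}

theorem Bd.mono {d d' : 𝒜 → ℕ} {F : MvPolynomial ι A} (h : Bd grp d F) (hd : ∀ a, d a ≤ d' a) :
    Bd grp d' F := fun m hm a => le_trans (h m hm a) (hd a)

theorem Bd.zero (d : 𝒜 → ℕ) : Bd grp d (0 : MvPolynomial ι A) := by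
  intro m hm
  simp at hm

theorem Bd.const (d : 𝒜 → ℕ) (c : A) : Bd grp d (MvPolynomial.C c : MvPolynomial ι A) := by
  classical
  intro m hm a
  rw [MvPolynomial.mem_support_iff, MvPolynomial.coeff_C] at hm
  split_ifs at hm with h
  · rw [← h, wt_zero]
    exact Nat.zero_le _
  · exact absurd rfl hm

theorem Bd.one (d : 𝒜 → ℕ) : Bd grp d (1 : MvPolynomial ι A) := by
  rw [← MvPolynomial.C_1]
  exact Bd.const d 1

theorem Bd.var (i : ι) (d : 𝒜 → ℕ) (hd : 1 ≤ d (grp i)) :
    Bd grp d (MvPolynomial.X i : MvPolynomial ι A) := by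
  classical
  intro m hm a
  rw [MvPolynomial.mem_support_iff, MvPolynomial.coeff_X] at hm
  split_ifs at hm with h
  · rw [← h, wt]
    by_cases ha : grp i = a
    · rw [Finset.sum_eq_single i]
      · rw [if_pos ha, ← ha]
        simpa using hd
      · intro j _ hj
        simp [Finsupp.single_apply, Ne.symm hj]
      · intro hi
        exact absurd (Finset.mem_univ i) hi
    · rw [Finset.sum_eq_zero]
      · exact Nat.zero_le _
      · intro j _
        by_cases hj : j = i
        · subst hj
          rw [if_neg ha]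
        · simp [Finsupp.single_apply, Ne.symm hj]
  · exact absurd rfl hm

theorem Bd.add {d : 𝒜 → ℕ} {F F' : MvPolynomial ι A} (h : Bd grp d F) (h' : Bd grp d F') :
    Bd grp d (F + F') := by
  classical
  intro m hm
  rcases Finset.mem_union.mp (MvPolynomial.support_add hm) with h1 | h1
  · exact h m h1
  · exact h' m h1

theorem Bd.neg {d : 𝒜 → ℕ} {F : MvPolynomial ι A} (h : Bd grp d F) : Bd grp d (-F) := by
  intro m hm
  rw [MvPolynomial.support_neg] at hm
  exact h m hm

theorem Bd.sub {d : 𝒜 → ℕ} {F F' : MvPolynomial ι A} (h : Bd grp d F) (h' : Bd grp d F') :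
    Bd grp d (F - F') := by
  rw [sub_eq_add_neg]
  exact h.add h'.neg

theorem Bd.sum {β : Type} (s : Finset β) {d : 𝒜 → ℕ} {F : β → MvPolynomial ι A}
    (h : ∀ b ∈ s, Bd grp d (F b)) : Bd grp d (∑ b ∈ s, F b) := by
  classical
  induction s using Finset.induction with
  | empty =>
    rw [Finset.sum_empty]
    exact Bd.zero d
  | insert b s hb ih =>
    rw [Finset.sum_insert hb]
    exact (h b (Finset.mem_insert_self b s)).add
      (ih fun c hc => h c (Finset.mem_insert_of_mem hc))

theorem Bd.mul {d d' : 𝒜 → ℕ} {F F' : MvPolynomial ι A} (h : Bd grp d F)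
    (h' : Bd grp d' F') : Bd grp (d + d') (F * F') := by
  classical
  intro m hm a
  obtain ⟨m₁, h₁, m₂, h₂, rfl⟩ := Finset.mem_add.mp (MvPolynomial.support_mul F F' hm)
  rw [wt_add]
  exact Nat.add_le_add (h m₁ h₁ a) (h' m₂ h₂ a)

theorem Bd.prod {β : Type} (s : Finset β) {d : β → 𝒜 → ℕ} {F : β → MvPolynomial ι A}
    (h : ∀ b ∈ s, Bd grp (d b) (F b)) : Bd grp (∑ b ∈ s, d b) (∏ b ∈ s, F b) := by
  classical
  induction s using Finset.induction with
  | empty =>
    rw [Finset.prod_empty]
    exact Bd.one _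
  | insert b s hb ih =>
    rw [Finset.prod_insert hb, Finset.sum_insert hb]
    exact (h b (Finset.mem_insert_self b s)).mul
      (ih fun c hc => h c (Finset.mem_insert_of_mem hc))

theorem Bd.pow {d : 𝒜 → ℕ} {F : MvPolynomial ι A} (h : Bd grp d F) (k : ℕ) :
    Bd grp (k • d) (F ^ k) := by
  have h1 := Bd.prod (Finset.range k) (d := fun _ => d) (F := fun _ => F) (fun _ _ => h)
  simpa using h1

theorem Bd.det {β : Type} [Fintype β] [DecidableEq β] {M : Matrix β β (MvPolynomial ι A)}
    {d : β → 𝒜 → ℕ} (h : ∀ i j, Bd grp (d j) (M i j)) : Bd grp (∑ j, d j) M.det := by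
  rw [Matrix.det_apply]
  apply Bd.sum
  intro τ _
  have h1 : Bd grp (∑ j, d j) (∏ i, M (τ i) i) := Bd.prod Finset.univ fun j _ => h _ j
  rcases Int.units_eq_one_or (Equiv.Perm.sign τ) with h2 | h2
  · rw [h2, one_smul]
    exact h1
  · rw [h2, Units.neg_smul, one_smul]
    exact h1.neg

/-- Functions with sum at most `D`. -/
def SB (α : Type) [Fintype α] [DecidableEq α] (D : ℕ) : Finset (α → ℕ) :=
  (Finset.finsuppAntidiag (Finset.univ : Finset (Option α)) D).image fun g i => g (some i)

theorem mem_SB {α : Type} [Fintype α] [DecidableEq α] {D : ℕ} {f : α → ℕ} :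
    f ∈ SB α D ↔ ∑ i, f i ≤ D := by
  rw [SB, Finset.mem_image]
  constructor
  · rintro ⟨g, hg, rfl⟩
    rw [Finset.mem_finsuppAntidiag] at hg
    have h1 := hg.1
    rw [Fintype.sum_option] at h1
    change ∑ i, g (some i) ≤ D
    omega
  · intro h
    refine ⟨Finsupp.equivFunOnFinite.symm fun o => o.elim (D - ∑ i, f i) f, ?_, ?_⟩
    · rw [Finset.mem_finsuppAntidiag]
      refine ⟨?_, Finset.subset_univ _⟩
      rw [Fintype.sum_option]
      simp
      omega
    · funext i
      simp

theorem card_SB (α : Type) [Fintype α] [DecidableEq α] (D : ℕ) :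
    (SB α D).card = (D + Fintype.card α).choose (Fintype.card α) := by
  rw [SB, Finset.card_image_of_injOn, Finset.card_finsuppAntidiag_nat_eq_choose,
    Finset.card_univ, Fintype.card_option]
  · have h1 : Fintype.card α + 1 + D - 1 = Fintype.card α + D := by omega
    rw [h1, ← Nat.choose_symm_add, Nat.add_comm D]
  · intro g hg g' hg' h
    rw [Finset.mem_coe, Finset.mem_finsuppAntidiag] at hg hg'
    have h1 := hg.1
    have h2 := hg'.1
    rw [Fintype.sum_option] at h1 h2
    have h3 : ∀ i, g (some i) = g' (some i) := fun i => congrFun h i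
    ext o
    rcases o with _ | i
    · have h4 : ∑ i, g (some i) = ∑ i, g' (some i) := Finset.sum_congr rfl fun i _ => h3 i
      omega
    · exact h3 i

end Pool.ML
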