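import Pool.Agent.ML14.Crit

/-!
# The derivative of the chart map and its determinant
-/

set_option linter.unusedSectionVars false
set_option linter.unusedSimpArgs false

namespace Pool.ML

open Matrix

variable {ρ σ κ : Type*} [Fintype ρ] [Fintype σ] [Fintype κ]
  [DecidableEq ρ] [DecidableEq σ] [DecidableEq κ]
variable {R S : Type*} [CommRing R] [CommRing S]

/-- Derivative of `Lm`. -/
def Ld (Y : Matrix (ρ ⊕ σ) (ρ ⊕ κ) R) : Matrix (ρ ⊕ σ) ρ R :=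
  Matrix.fromRows 0 Y.toBlocks₂₁

/-- Derivative of `Um`. -/
def Ud (Y : Matrix (ρ ⊕ σ) (ρ ⊕ κ) R) : Matrix ρ (ρ ⊕ κ) R :=
  Matrix.fromCols 0 Y.toBlocks₁₂

/-- Derivative of `Nm`. -/
def Nd (Y : Matrix (ρ ⊕ σ) (ρ ⊕ κ) R) : Matrix (ρ ⊕ σ) σ R :=
  Matrix.fromRows (-Y.toBlocks₂₁ᵀ) 0

/-- Derivative of `Vm`. -/
def Vd (Y : Matrix (ρ ⊕ σ) (ρ ⊕ κ) R) : Matrix κ (ρ ⊕ κ) R :=
  Matrix.fromCols (-Y.toBlocks₁₂ᵀ) 0

/-- Derivative of `pmat`. -/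
def dpmat (X Y : Matrix (ρ ⊕ σ) (ρ ⊕ κ) R) : Matrix (ρ ⊕ σ) (ρ ⊕ κ) R :=
  Ld Y * X.toBlocks₁₁ * Um X + Lm X * Y.toBlocks₁₁ * Um X + Lm X * X.toBlocks₁₁ * Ud Y

/-- Derivative of `gmat`. -/
def dgmat (X Y : Matrix (ρ ⊕ σ) (ρ ⊕ κ) R) : Matrix (ρ ⊕ σ) (ρ ⊕ κ) R :=
  Nd Y * X.toBlocks₂₂ * Vm X + Nm X * Y.toBlocks₂₂ * Vm X + Nm X * X.toBlocks₂₂ * Vd Y

/-- Derivative of `psi`. -/
def dpsi (X Y : Matrix (ρ ⊕ σ) (ρ ⊕ κ) R) : Matrix (ρ ⊕ σ) (ρ ⊕ κ) R :=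
  Matrix.of fun i j => dpmat X Y i j * (1 + gmat X i j) + pmat X i j * dgmat X Y i j

theorem blocks_add (X Y : Matrix (ρ ⊕ σ) (ρ ⊕ κ) R) :
    (X + Y).toBlocks₁₁ = X.toBlocks₁₁ + Y.toBlocks₁₁ ∧
    (X + Y).toBlocks₁₂ = X.toBlocks₁₂ + Y.toBlocks₁₂ ∧
    (X + Y).toBlocks₂₁ = X.toBlocks₂₁ + Y.toBlocks₂₁ ∧
    (X + Y).toBlocks₂₂ = X.toBlocks₂₂ + Y.toBlocks₂₂ := ⟨rfl, rfl, rfl, rfl⟩

theorem blocks_smul (t : R) (X : Matrix (ρ ⊕ σ) (ρ ⊕ κ) R) :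
    (t • X).toBlocks₁₁ = t • X.toBlocks₁₁ ∧
    (t • X).toBlocks₁₂ = t • X.toBlocks₁₂ ∧
    (t • X).toBlocks₂₁ = t • X.toBlocks₂₁ ∧
    (t • X).toBlocks₂₂ = t • X.toBlocks₂₂ := ⟨rfl, rfl, rfl, rfl⟩

theorem Lm_add (X Y : Matrix (ρ ⊕ σ) (ρ ⊕ κ) R) : Lm (X + Y) = Lm X + Ld Y := by
  ext i k; rcases i with i | i <;> simp [Lm, Ld, blocks_add]

theorem Um_add (X Y : Matrix (ρ ⊕ σ) (ρ ⊕ κ) R) : Um (X + Y) = Um X + Ud Y := by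
  ext k j; rcases j with j | j <;> simp [Um, Ud, blocks_add]

theorem Nm_add (X Y : Matrix (ρ ⊕ σ) (ρ ⊕ κ) R) : Nm (X + Y) = Nm X + Nd Y := by
  ext i k; rcases i with i | i <;> simp [Nm, Nd, blocks_add]; ring

theorem Vm_add (X Y : Matrix (ρ ⊕ σ) (ρ ⊕ κ) R) : Vm (X + Y) = Vm X + Vd Y := by
  ext k j; rcases j with j | j <;> simp [Vm, Vd, blocks_add]; ring

theorem Ld_add (X Y : Matrix (ρ ⊕ σ) (ρ ⊕ κ) R) : Ld (X + Y) = Ld X + Ld Y := by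
  ext i k; rcases i with i | i <;> simp [Ld, blocks_add]

theorem Ud_add (X Y : Matrix (ρ ⊕ σ) (ρ ⊕ κ) R) : Ud (X + Y) = Ud X + Ud Y := by
  ext k j; rcases j with j | j <;> simp [Ud, blocks_add]

theorem Nd_add (X Y : Matrix (ρ ⊕ σ) (ρ ⊕ κ) R) : Nd (X + Y) = Nd X + Nd Y := by
  ext i k; rcases i with i | i <;> simp [Nd, blocks_add]; ring

theorem Vd_add (X Y : Matrix (ρ ⊕ σ) (ρ ⊕ κ) R) : Vd (X + Y) = Vd X + Vd Y := by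
  ext k j; rcases j with j | j <;> simp [Vd, blocks_add]; ring

theorem Ld_smul (t : R) (X : Matrix (ρ ⊕ σ) (ρ ⊕ κ) R) : Ld (t • X) = t • Ld X := by
  ext i k; rcases i with i | i <;> simp [Ld, blocks_smul]

theorem Ud_smul (t : R) (X : Matrix (ρ ⊕ σ) (ρ ⊕ κ) R) : Ud (t • X) = t • Ud X := by
  ext k j; rcases j with j | j <;> simp [Ud, blocks_smul]

theorem Nd_smul (t : R) (X : Matrix (ρ ⊕ σ) (ρ ⊕ κ) R) : Nd (t • X) = t • Nd X := by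
  ext i k; rcases i with i | i <;> simp [Nd, blocks_smul]

theorem Vd_smul (t : R) (X : Matrix (ρ ⊕ σ) (ρ ⊕ κ) R) : Vd (t • X) = t • Vd X := by
  ext k j; rcases j with j | j <;> simp [Vd, blocks_smul]

theorem dpmat_add (X Y Z : Matrix (ρ ⊕ σ) (ρ ⊕ κ) R) :
    dpmat X (Y + Z) = dpmat X Y + dpmat X Z := by
  simp only [dpmat, Ld_add, Ud_add, (blocks_add Y Z).1, Matrix.add_mul, Matrix.mul_add]
  abel

theorem dgmat_add (X Y Z : Matrix (ρ ⊕ σ) (ρ ⊕ κ) R) :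
    dgmat X (Y + Z) = dgmat X Y + dgmat X Z := by
  simp only [dgmat, Nd_add, Vd_add, (blocks_add Y Z).2.2.2, Matrix.add_mul, Matrix.mul_add]
  abel

theorem dpmat_smul (t : R) (X Y : Matrix (ρ ⊕ σ) (ρ ⊕ κ) R) :
    dpmat X (t • Y) = t • dpmat X Y := by
  simp only [dpmat, Ld_smul, Ud_smul, (blocks_smul t Y).1, Matrix.smul_mul, Matrix.mul_smul,
    smul_add]

theorem dgmat_smul (t : R) (X Y : Matrix (ρ ⊕ σ) (ρ ⊕ κ) R) :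
    dgmat X (t • Y) = t • dgmat X Y := by
  simp only [dgmat, Nd_smul, Vd_smul, (blocks_smul t Y).2.2.2, Matrix.smul_mul,
    Matrix.mul_smul, smul_add]

/-- `dpsi X` as a linear map. -/
def dpsiL (X : Matrix (ρ ⊕ σ) (ρ ⊕ κ) R) :
    Matrix (ρ ⊕ σ) (ρ ⊕ κ) R →ₗ[R] Matrix (ρ ⊕ σ) (ρ ⊕ κ) R where
  toFun := dpsi X
  map_add' Y Z := by
    ext i j
    simp only [dpsi, dpmat_add, dgmat_add, Matrix.of_apply, Matrix.add_apply]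
    ring
  map_smul' t Y := by
    ext i j
    simp only [dpsi, dpmat_smul, dgmat_smul, Matrix.of_apply, Matrix.smul_apply, smul_eq_mul,
      RingHom.id_apply]
    ring

/-- The Jacobian matrix of `psi`. -/
def Jac (X : Matrix (ρ ⊕ σ) (ρ ⊕ κ) R) :
    Matrix ((ρ ⊕ σ) × (ρ ⊕ κ)) ((ρ ⊕ σ) × (ρ ⊕ κ)) R :=
  Matrix.of fun a b => dpsi X (Matrix.single b.1 b.2 1) a.1 a.2

theorem Jac_mulVec (X Y : Matrix (ρ ⊕ σ) (ρ ⊕ κ) R) :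
    Jac X *ᵥ (fun b => Y b.1 b.2) = fun a => dpsi X Y a.1 a.2 := by
  have hY : Y = ∑ b : (ρ ⊕ σ) × (ρ ⊕ κ), Y b.1 b.2 • Matrix.single b.1 b.2 (1 : R) := by
    conv_lhs => rw [Matrix.matrix_eq_sum_single Y]
    rw [Fintype.sum_prod_type]
    simp
  funext a
  have h1 : dpsi X Y = dpsiL X Y := rfl
  rw [h1]
  conv_rhs => rw [hY]
  rw [map_sum]
  simp only [map_smul, Matrix.mulVec, dotProduct, Matrix.sum_apply, Matrix.smul_apply,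
    smul_eq_mul, Jac, Matrix.of_apply]
  exact Finset.sum_congr rfl fun b _ => mul_comm _ _

theorem dpsi_eq_zero_of_det {K : Type*} [Field K] (X Y : Matrix (ρ ⊕ σ) (ρ ⊕ κ) K)
    (hJ : (Jac X).det ≠ 0) (h : dpsi X Y = 0) : Y = 0 := by
  have h1 := Matrix.eq_zero_of_mulVec_eq_zero hJ (v := fun b => Y b.1 b.2) (by
    rw [Jac_mulVec, h]; rfl)
  ext i j
  exact congrFun h1 (i, j)

theorem Ld_map (X : Matrix (ρ ⊕ σ) (ρ ⊕ κ) R) (f : R →+* S) : Ld (X.map f) = (Ld X).map f := by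
  ext i k
  rcases i with i | i
  · simp [Ld]
  · simp [Ld, Matrix.toBlocks₂₁]

theorem Ud_map (X : Matrix (ρ ⊕ σ) (ρ ⊕ κ) R) (f : R →+* S) : Ud (X.map f) = (Ud X).map f := by
  ext k j
  rcases j with j | j
  · simp [Ud]
  · simp [Ud, Matrix.toBlocks₁₂]

theorem Nd_map (X : Matrix (ρ ⊕ σ) (ρ ⊕ κ) R) (f : R →+* S) : Nd (X.map f) = (Nd X).map f := by
  ext i k
  rcases i with i | i
  · simp [Nd, Matrix.toBlocks₂₁]
  · simp [Nd]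

theorem Vd_map (X : Matrix (ρ ⊕ σ) (ρ ⊕ κ) R) (f : R →+* S) : Vd (X.map f) = (Vd X).map f := by
  ext k j
  rcases j with j | j
  · simp [Vd, Matrix.toBlocks₁₂]
  · simp [Vd]

theorem map_add' {m n : Type*} (A B : Matrix m n R) (f : R →+* S) :
    (A + B).map f = A.map f + B.map f := by
  ext i j; simp

theorem dpmat_map (X Y : Matrix (ρ ⊕ σ) (ρ ⊕ κ) R) (f : R →+* S) :
    dpmat (X.map f) (Y.map f) = (dpmat X Y).map f := by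
  simp only [dpmat, map_add', Matrix.map_mul, Ld_map, Ud_map, Lm_map, Um_map,
    (toBlocks_map X f).1, (toBlocks_map Y f).1]

theorem dgmat_map (X Y : Matrix (ρ ⊕ σ) (ρ ⊕ κ) R) (f : R →+* S) :
    dgmat (X.map f) (Y.map f) = (dgmat X Y).map f := by
  simp only [dgmat, map_add', Matrix.map_mul, Nd_map, Vd_map, Nm_map, Vm_map,
    (toBlocks_map X f).2.2.2, (toBlocks_map Y f).2.2.2]

theorem dpsi_map (X Y : Matrix (ρ ⊕ σ) (ρ ⊕ κ) R) (f : R →+* S) :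
    dpsi (X.map f) (Y.map f) = (dpsi X Y).map f := by
  ext i j
  simp [dpsi, dpmat_map, dgmat_map, pmat_map, gmat_map]

theorem Jac_map (X : Matrix (ρ ⊕ σ) (ρ ⊕ κ) R) (f : R →+* S) :
    Jac (X.map f) = (Jac X).map f := by
  ext a b
  have h : (Matrix.single b.1 b.2 (1 : S) : Matrix (ρ ⊕ σ) (ρ ⊕ κ) S) =
      (Matrix.single b.1 b.2 (1 : R)).map f := by
    ext i j
    simp [Matrix.single_apply, apply_ite f]
  simp only [Jac, Matrix.of_apply, Matrix.map_apply, h, dpsi_map]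

end Pool.ML
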