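import Pool.Agent.ML14.Poly

/-!
# Evaluation of the polynomials at a point of the chart
-/

set_option linter.unusedSectionVars false
set_option linter.unusedSimpArgs false

namespace Pool.ML

open Matrix

section Sums

variable {ρ σ κ : Type} [Fintype ρ] [Fintype σ] [Fintype κ]
  [DecidableEq ρ] [DecidableEq σ] [DecidableEq κ]

/-- The column vectors in the chart. -/
def xm (X : Matrix (ρ ⊕ σ) (ρ ⊕ κ) ℂ) : Matrix ρ (ρ ⊕ κ) ℂ := X.toBlocks₁₁ * Um X

/-- The column sums of `(1, C)`. -/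
def sX (X : Matrix (ρ ⊕ σ) (ρ ⊕ κ) ℂ) (k : ρ) : ℂ := ∑ i, Lm X i k

theorem xm_inl (X : Matrix (ρ ⊕ σ) (ρ ⊕ κ) ℂ) (k j : ρ) :
    xm X k (Sum.inl j) = X.toBlocks₁₁ k j := by
  rw [xm, Um, Matrix.mul_apply]
  simp [Matrix.one_apply]

theorem xm_inr (X : Matrix (ρ ⊕ σ) (ρ ⊕ κ) ℂ) (k : ρ) (j : κ) :
    xm X k (Sum.inr j) = (X.toBlocks₁₁ * X.toBlocks₁₂) k j := by
  rw [xm, Um, Matrix.mul_apply, Matrix.mul_apply]
  simp

theorem pmat_eq_sum (X : Matrix (ρ ⊕ σ) (ρ ⊕ κ) ℂ) (i : ρ ⊕ σ) (j : ρ ⊕ κ) :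
    pmat X i j = ∑ k, Lm X i k * xm X k j := by
  rw [pmat, Matrix.mul_assoc, Matrix.mul_apply]
  rfl

theorem gmat_inr (X : Matrix (ρ ⊕ σ) (ρ ⊕ κ) ℂ) (i : ρ ⊕ σ) (j : κ) :
    gmat X i (Sum.inr j) = ∑ t, Nm X i t * X.toBlocks₂₂ t j := by
  rw [gmat, Matrix.mul_apply]
  simp only [Vm, Matrix.fromCols_apply_inr, Matrix.one_apply, mul_ite, mul_one, mul_zero,
    Finset.sum_ite_eq', Finset.mem_univ, if_true]
  rw [Matrix.mul_apply]

theorem gmat_inl (X : Matrix (ρ ⊕ σ) (ρ ⊕ κ) ℂ) (i : ρ ⊕ σ) (j : ρ) :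
    gmat X i (Sum.inl j) =
      -∑ t, Nm X i t * ∑ j', X.toBlocks₂₂ t j' * X.toBlocks₁₂ j j' := by
  rw [gmat, Matrix.mul_apply]
  simp only [Vm, Matrix.fromCols_apply_inl, Matrix.neg_apply, Matrix.transpose_apply,
    Matrix.mul_apply, mul_neg, Finset.sum_neg_distrib, Finset.sum_mul, Finset.mul_sum]
  rw [Finset.sum_comm]
  refine congrArg _ (Finset.sum_congr rfl fun t _ => Finset.sum_congr rfl fun l _ => ?_)
  ring

theorem colsum_psi (X : Matrix (ρ ⊕ σ) (ρ ⊕ κ) ℂ) (j : ρ ⊕ κ) :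
    ∑ i, psi X i j = ∑ k, sX X k * xm X k j := by
  have h1 : ∑ i, pmat X i j * gmat X i j = 0 := by
    have h2 := congrFun (congrFun (gmat_transpose_mul_pmat X) j) j
    rw [Matrix.mul_apply] at h2
    rw [← Matrix.zero_apply (n := ρ ⊕ κ) (m := ρ ⊕ κ) (α := ℂ) j j, ← h2]
    exact Finset.sum_congr rfl fun i _ => by rw [Matrix.transpose_apply]; ring
  have h3 : ∀ i, psi X i j = pmat X i j + pmat X i j * gmat X i j := by
    intro i
    rw [psi, Matrix.of_apply]
    ring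
  simp only [h3, Finset.sum_add_distrib, h1, add_zero]
  simp only [pmat_eq_sum, sX, Finset.sum_mul]
  rw [Finset.sum_comm]

end Sums

variable {ρ' σ κ : Type} [Fintype ρ'] [Fintype σ] [Fintype κ]
  [DecidableEq ρ'] [DecidableEq σ] [DecidableEq κ]
variable {A : Type} [CommRing A] [Algebra A ℂ]

/-- The coordinates of a point. -/
def xi (X : Matrix (Option ρ' ⊕ σ) (Option ρ' ⊕ κ) ℂ) : Vr ρ' σ κ → ℂ
  | Sum.inl x => X.toBlocks₂₁ x.1 x.2
  | Sum.inr (Sum.inl x) => X.toBlocks₁₁ (some x.2) x.1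
  | Sum.inr (Sum.inr (Sum.inl x)) => (X.toBlocks₁₁ * X.toBlocks₁₂) (some x.2) x.1
  | Sum.inr (Sum.inr (Sum.inr x)) => X.toBlocks₂₂ x.2 x.1

/-- Evaluation at the coordinates. -/
noncomputable abbrev ev (A : Type) [CommRing A] [Algebra A ℂ]
    (X : Matrix (Option ρ' ⊕ σ) (Option ρ' ⊕ κ) ℂ) :
    MvPolynomial (Vr ρ' σ κ) A →ₐ[A] ℂ := MvPolynomial.aeval (xi X)

variable (X : Matrix (Option ρ' ⊕ σ) (Option ρ' ⊕ κ) ℂ) (v : Option ρ' ⊕ κ → A)

theorem ev_cP (t : σ) (k : Option ρ') : ev A X (cP t k) = X.toBlocks₂₁ t k := by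
  simp [cP, xi]

theorem ev_LP (i : Option ρ' ⊕ σ) (k : Option ρ') : ev A X (LP i k) = Lm X i k := by
  rcases i with l | t
  · simp only [LP, Sum.elim_inl, Lm, Matrix.fromRows_apply_inl, Matrix.one_apply]
    split_ifs <;> simp
  · simp only [LP, Sum.elim_inr, Lm, Matrix.fromRows_apply_inr, ev_cP]

theorem ev_NP (i : Option ρ' ⊕ σ) (t : σ) : ev A X (NP i t) = Nm X i t := by
  rcases i with l | t'
  · simp only [NP, Sum.elim_inl, Nm, Matrix.fromRows_apply_inl, map_neg, ev_cP,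
      Matrix.neg_apply, Matrix.transpose_apply]
  · simp only [NP, Sum.elim_inr, Nm, Matrix.fromRows_apply_inr, Matrix.one_apply]
    split_ifs <;> simp

theorem ev_sP (k : Option ρ') : ev A X (sP k) = sX X k := by
  rw [sP, sX, map_add, map_one, map_sum, Fintype.sum_sum_type]
  simp only [ev_cP, Lm, Matrix.fromRows_apply_inl, Matrix.fromRows_apply_inr,
    Matrix.one_apply, Finset.sum_ite_eq', Finset.mem_univ, if_true]

theorem ev_xP (j : Option ρ' ⊕ κ) (k : ρ') : ev A X (xP j k) = xm X (some k) j := by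
  rcases j with j | j
  · rw [xm_inl]
    simp [xP, xi]
  · rw [xm_inr]
    simp [xP, xi]

theorem ev_gP (j : κ) (t : σ) : ev A X (gP j t) = X.toBlocks₂₂ t j := by
  simp [gP, xi]

variable (hv : ∀ j, algebraMap A ℂ (v j) = ∑ i, psi X i j)
include hv

theorem ev_topP (j : Option ρ' ⊕ κ) : ev A X (topP v j) = sX X none * xm X none j := by
  rw [topP, map_sub, map_sum, MvPolynomial.aeval_C, hv, colsum_psi, Fintype.sum_option]
  simp only [map_mul, ev_sP, ev_xP]
  ring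

theorem ev_TP (j : Option ρ' ⊕ κ) (k : Option ρ') :
    ev A X (TP v j k) = (if k = none then sX X none else 1) * xm X k j := by
  rcases k with _ | k
  · rw [if_pos rfl]
    exact ev_topP X v hv j
  · rw [if_neg (by simp), one_mul]
    exact ev_xP X j k

theorem ev_HP (j : Option ρ' ⊕ κ) (k : Option ρ') :
    ev A X (HP v j k) = sX X none * xm X k j := by
  rcases k with _ | k
  · exact ev_topP X v hv j
  · change ev A X (sP none * xP j k) = _
    rw [map_mul, ev_sP, ev_xP]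

theorem ev_WP : ev A X (WP v).det = sX X none * X.toBlocks₁₁.det := by
  rw [← AlgHom.coe_toRingHom, RingHom.map_det]
  have h1 : (ev A X).toRingHom.mapMatrix (WP v) =
      X.toBlocks₁₁.updateRow none (sX X none • X.toBlocks₁₁ none) := by
    ext k j
    change ev A X (TP v (Sum.inl j) k) = _
    rw [ev_TP X v hv, xm_inl]
    by_cases hk : k = none
    · subst hk
      rw [if_pos rfl, Matrix.updateRow_self]
      rfl
    · rw [if_neg hk, Matrix.updateRow_ne hk, one_mul]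
  change ((ev A X).toRingHom.mapMatrix (WP v)).det = _
  rw [h1, Matrix.det_updateRow_smul, Matrix.updateRow_eq_self]

theorem ev_bP (j : Option ρ') (j' : κ) :
    ev A X (bP v j j') = X.toBlocks₁₂ j j' * (sX X none * X.toBlocks₁₁.det) := by
  rw [bP, ← ev_WP X v hv, ← AlgHom.coe_toRingHom, RingHom.map_det, RingHom.map_det]
  have h1 : (ev A X).toRingHom.mapMatrix ((WP v).updateCol j (TP v (Sum.inr j'))) =
      ((ev A X).toRingHom.mapMatrix (WP v)).updateCol j
        (fun k => ∑ l, X.toBlocks₁₂ l j' • ((ev A X).toRingHom.mapMatrix (WP v)) k l) := by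
    ext k l
    change ev A X ((WP v).updateCol j (TP v (Sum.inr j')) k l) = _
    by_cases hl : l = j
    · subst hl
      rw [Matrix.updateCol_self, Matrix.updateCol_self, ev_TP X v hv, xm_inr,
        Matrix.mul_apply, Finset.mul_sum]
      refine Finset.sum_congr rfl fun l' _ => ?_
      change _ = X.toBlocks₁₂ l' j' * ev A X (TP v (Sum.inl l') k)
      rw [ev_TP X v hv, xm_inl]
      ring
    · rw [Matrix.updateCol_ne hl, Matrix.updateCol_ne hl]
      rfl
  change ((ev A X).toRingHom.mapMatrix _).det = _ * ((ev A X).toRingHom.mapMatrix (WP v)).det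
  rw [h1, Matrix.det_updateCol_sum, smul_eq_mul]

theorem ev_FP_inr (i : Option ρ' ⊕ σ) (j : κ) :
    ev A X (FP v i (Sum.inr j)) = sX X none * psi X i (Sum.inr j) := by
  rw [FP, Sum.elim_inr, map_mul, map_sum, map_add, map_one, map_sum]
  simp only [map_mul, ev_LP, ev_HP X v hv, ev_NP, ev_gP]
  rw [psi, Matrix.of_apply, gmat_inr, pmat_eq_sum]
  have h1 : ∑ k, Lm X i k * (sX X none * xm X k (Sum.inr j)) =
      sX X none * ∑ k, Lm X i k * xm X k (Sum.inr j) := by
    rw [Finset.mul_sum]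
    exact Finset.sum_congr rfl fun k _ => by ring
  rw [h1]
  ring

theorem ev_FP_inl (i : Option ρ' ⊕ σ) (j : Option ρ') :
    ev A X (FP v i (Sum.inl j)) =
      (sX X none * (sX X none * X.toBlocks₁₁.det)) * psi X i (Sum.inl j) := by
  rw [FP, Sum.elim_inl, map_mul, map_sum, map_sub, map_sum, ev_WP X v hv]
  simp only [map_mul, map_sum, ev_LP, ev_HP X v hv, ev_NP, ev_gP, ev_bP X v hv]
  rw [psi, Matrix.of_apply, gmat_inl, pmat_eq_sum]
  have h1 : ∑ k, Lm X i k * (sX X none * xm X k (Sum.inl j)) =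
      sX X none * ∑ k, Lm X i k * xm X k (Sum.inl j) := by
    rw [Finset.mul_sum]
    exact Finset.sum_congr rfl fun k _ => by ring
  have h2 : ∑ t, Nm X i t * ∑ j', X.toBlocks₂₂ t j' * (X.toBlocks₁₂ j j' *
      (sX X none * X.toBlocks₁₁.det)) = (sX X none * X.toBlocks₁₁.det) *
      ∑ t, Nm X i t * ∑ j', X.toBlocks₂₂ t j' * X.toBlocks₁₂ j j' := by
    simp only [Finset.mul_sum]
    exact Finset.sum_congr rfl fun t _ => Finset.sum_congr rfl fun l _ => by ring
  rw [h1, h2]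
  ring

end Pool.ML
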