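import Pool.Agent.ML14.Limit

/-!
# Adding a column
-/

set_option linter.unusedSectionVars false
set_option linter.unusedSimpArgs false

namespace Pool.ML

open Matrix

variable {ρ σ κ : Type} [Fintype ρ] [Fintype σ] [Fintype κ]
  [DecidableEq ρ] [DecidableEq σ] [DecidableEq κ]

/-- The extended chart coordinates. -/
def Xe (X : Matrix (ρ ⊕ σ) (ρ ⊕ κ) ℂ) (c : ρ → ℂ) (γ : σ → ℂ) (ε : ℂ) :
    Matrix (ρ ⊕ σ) (ρ ⊕ (κ ⊕ Unit)) ℂ :=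
  Matrix.fromBlocks X.toBlocks₁₁ (Matrix.fromCols X.toBlocks₁₂ (Matrix.of fun k _ => ε * c k))
    X.toBlocks₂₁ (Matrix.fromCols X.toBlocks₂₂ (Matrix.of fun t _ => γ t))

theorem Xe_W (X : Matrix (ρ ⊕ σ) (ρ ⊕ κ) ℂ) (c : ρ → ℂ) (γ : σ → ℂ) (ε : ℂ) :
    (Xe X c γ ε).toBlocks₁₁ = X.toBlocks₁₁ := by simp [Xe]

theorem Xe_L (X : Matrix (ρ ⊕ σ) (ρ ⊕ κ) ℂ) (c : ρ → ℂ) (γ : σ → ℂ) (ε : ℂ) :
    Lm (Xe X c γ ε) = Lm X := by simp [Xe, Lm]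

theorem Xe_N (X : Matrix (ρ ⊕ σ) (ρ ⊕ κ) ℂ) (c : ρ → ℂ) (γ : σ → ℂ) (ε : ℂ) :
    Nm (Xe X c γ ε) = Nm X := by simp [Xe, Nm]

theorem Xe_inj (X X' : Matrix (ρ ⊕ σ) (ρ ⊕ κ) ℂ) (c c' : ρ → ℂ) (γ γ' : σ → ℂ) (ε : ℂ)
    (hε : ε ≠ 0) (h : Xe X c γ ε = Xe X' c' γ' ε) : X = X' ∧ c = c' ∧ γ = γ' := by
  refine ⟨?_, ?_, ?_⟩
  · ext i j
    rcases i with i | i <;> rcases j with j | j
    · have := congrFun (congrFun h (Sum.inl i)) (Sum.inl j)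
      simpa [Xe, Matrix.toBlocks₁₁] using this
    · have := congrFun (congrFun h (Sum.inl i)) (Sum.inr (Sum.inl j))
      simpa [Xe, Matrix.toBlocks₁₂] using this
    · have := congrFun (congrFun h (Sum.inr i)) (Sum.inl j)
      simpa [Xe, Matrix.toBlocks₂₁] using this
    · have := congrFun (congrFun h (Sum.inr i)) (Sum.inr (Sum.inl j))
      simpa [Xe, Matrix.toBlocks₂₂] using this
  · funext k
    have := congrFun (congrFun h (Sum.inl k)) (Sum.inr (Sum.inr ()))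
    simpa [Xe, hε] using this
  · funext t
    have := congrFun (congrFun h (Sum.inr t)) (Sum.inr (Sum.inr ()))
    simpa [Xe] using this

theorem pmat_Xe_inl (X : Matrix (ρ ⊕ σ) (ρ ⊕ κ) ℂ) (c : ρ → ℂ) (γ : σ → ℂ) (ε : ℂ)
    (i : ρ ⊕ σ) (k : ρ) : pmat (Xe X c γ ε) i (Sum.inl k) = pmat X i (Sum.inl k) := by
  rw [pmat, pmat, Xe_L, Xe_W, Matrix.mul_apply, Matrix.mul_apply]
  rfl

theorem pmat_Xe_inr (X : Matrix (ρ ⊕ σ) (ρ ⊕ κ) ℂ) (c : ρ → ℂ) (γ : σ → ℂ) (ε : ℂ)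
    (i : ρ ⊕ σ) (j : κ) :
    pmat (Xe X c γ ε) i (Sum.inr (Sum.inl j)) = pmat X i (Sum.inr j) := by
  rw [pmat, pmat, Xe_L, Xe_W, Matrix.mul_apply, Matrix.mul_apply]
  refine Finset.sum_congr rfl fun l _ => ?_
  congr 1

theorem pmat_Xe_new (X : Matrix (ρ ⊕ σ) (ρ ⊕ κ) ℂ) (c : ρ → ℂ) (γ : σ → ℂ) (ε : ℂ)
    (i : ρ ⊕ σ) : pmat (Xe X c γ ε) i (Sum.inr (Sum.inr ())) = ε * dvec X c i := by
  rw [pmat, Xe_L, Xe_W, Matrix.mul_apply, dvec, Matrix.mulVec_mulVec]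
  simp only [Matrix.mulVec, dotProduct, Finset.mul_sum]
  refine Finset.sum_congr rfl fun l _ => ?_
  have h : Um (Xe X c γ ε) l (Sum.inr (Sum.inr ())) = ε * c l := by simp [Um, Xe]
  rw [h]
  ring

theorem gmat_Xe_aux (X : Matrix (ρ ⊕ σ) (ρ ⊕ κ) ℂ) (c : ρ → ℂ) (γ : σ → ℂ) (ε : ℂ)
    (i : ρ ⊕ σ) (j : ρ ⊕ (κ ⊕ Unit)) :
    gmat (Xe X c γ ε) i j = ∑ t : κ, (Nm X * X.toBlocks₂₂) i t * Vm (Xe X c γ ε) (Sum.inl t) j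
      + (Nm X *ᵥ γ) i * Vm (Xe X c γ ε) (Sum.inr ()) j := by
  rw [gmat, Xe_N, Matrix.mul_apply, Fintype.sum_sum_type]
  have h2 : ∀ t : κ, (Nm X * (Xe X c γ ε).toBlocks₂₂) i (Sum.inl t) =
      (Nm X * X.toBlocks₂₂) i t := by
    intro t
    rw [Matrix.mul_apply, Matrix.mul_apply]
    refine Finset.sum_congr rfl fun l _ => ?_
    simp [Xe]
  have h3 : (Nm X * (Xe X c γ ε).toBlocks₂₂) i (Sum.inr ()) = (Nm X *ᵥ γ) i := by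
    rw [Matrix.mul_apply, Matrix.mulVec, dotProduct]
    refine Finset.sum_congr rfl fun l _ => ?_
    simp [Xe]
  simp [h2, h3]

theorem gmat_Xe_inl (X : Matrix (ρ ⊕ σ) (ρ ⊕ κ) ℂ) (c : ρ → ℂ) (γ : σ → ℂ) (ε : ℂ)
    (i : ρ ⊕ σ) (k : ρ) : gmat (Xe X c γ ε) i (Sum.inl k) =
      gmat X i (Sum.inl k) - ε * (Nm X *ᵥ γ) i * c k := by
  rw [gmat_Xe_aux, gmat, Matrix.mul_apply]
  have h1 : ∀ t : κ, Vm (Xe X c γ ε) (Sum.inl t) (Sum.inl k) = Vm X t (Sum.inl k) := by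
    intro t
    simp [Vm, Xe]
  have h2 : Vm (Xe X c γ ε) (Sum.inr ()) (Sum.inl k) = -(ε * c k) := by
    simp [Vm, Xe]
  simp only [h1, h2]
  ring

theorem gmat_Xe_inr (X : Matrix (ρ ⊕ σ) (ρ ⊕ κ) ℂ) (c : ρ → ℂ) (γ : σ → ℂ) (ε : ℂ)
    (i : ρ ⊕ σ) (j : κ) :
    gmat (Xe X c γ ε) i (Sum.inr (Sum.inl j)) = gmat X i (Sum.inr j) := by
  rw [gmat_Xe_aux, gmat, Matrix.mul_apply]
  have h1 : ∀ t : κ, Vm (Xe X c γ ε) (Sum.inl t) (Sum.inr (Sum.inl j)) =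
      Vm X t (Sum.inr j) := by
    intro t
    simp [Vm, Xe, Matrix.one_apply]
  have h2 : Vm (Xe X c γ ε) (Sum.inr ()) (Sum.inr (Sum.inl j)) = 0 := by
    simp [Vm, Xe]
  simp only [h1, h2]
  ring

theorem gmat_Xe_new (X : Matrix (ρ ⊕ σ) (ρ ⊕ κ) ℂ) (c : ρ → ℂ) (γ : σ → ℂ) (ε : ℂ)
    (i : ρ ⊕ σ) : gmat (Xe X c γ ε) i (Sum.inr (Sum.inr ())) = (Nm X *ᵥ γ) i := by
  rw [gmat_Xe_aux]
  have h1 : ∀ t : κ, Vm (Xe X c γ ε) (Sum.inl t) (Sum.inr (Sum.inr ())) = 0 := by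
    intro t
    simp [Vm, Xe, Matrix.one_apply]
  have h2 : Vm (Xe X c γ ε) (Sum.inr ()) (Sum.inr (Sum.inr ())) = 1 := by
    simp [Vm, Xe]
  simp only [h1, h2]
  simp

/-- The old columns of the data. -/
def uold (X : Matrix (ρ ⊕ σ) (ρ ⊕ κ) ℂ) (c : ρ → ℂ) (γ : σ → ℂ) (ε : ℂ) :
    Matrix (ρ ⊕ σ) (ρ ⊕ κ) ℂ :=
  Matrix.of fun i j => pmat X i j *
    (1 + gmat X i j - ε * (Nm X *ᵥ γ) i * Sum.elim c (fun _ => 0) j)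

theorem psi_Xe_inl (X : Matrix (ρ ⊕ σ) (ρ ⊕ κ) ℂ) (c : ρ → ℂ) (γ : σ → ℂ) (ε : ℂ)
    (i : ρ ⊕ σ) (k : ρ) : psi (Xe X c γ ε) i (Sum.inl k) = uold X c γ ε i (Sum.inl k) := by
  simp only [psi, uold, Matrix.of_apply, pmat_Xe_inl, gmat_Xe_inl, Sum.elim_inl]
  ring

theorem psi_Xe_inr (X : Matrix (ρ ⊕ σ) (ρ ⊕ κ) ℂ) (c : ρ → ℂ) (γ : σ → ℂ) (ε : ℂ)
    (i : ρ ⊕ σ) (j : κ) :
    psi (Xe X c γ ε) i (Sum.inr (Sum.inl j)) = uold X c γ ε i (Sum.inr j) := by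
  simp only [psi, uold, Matrix.of_apply, pmat_Xe_inr, gmat_Xe_inr, Sum.elim_inr]
  ring

theorem psi_Xe_new (X : Matrix (ρ ⊕ σ) (ρ ⊕ κ) ℂ) (c : ρ → ℂ) (γ : σ → ℂ) (ε : ℂ)
    (i : ρ ⊕ σ) :
    psi (Xe X c γ ε) i (Sum.inr (Sum.inr ())) = ε * (dvec X c i * zvec X γ i) := by
  simp only [psi, Matrix.of_apply, pmat_Xe_new, gmat_Xe_new, zvec]
  ring

theorem uold_zero (X : Matrix (ρ ⊕ σ) (ρ ⊕ κ) ℂ) (c : ρ → ℂ) (γ : σ → ℂ) :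
    uold X c γ 0 = psi X := by
  ext i j
  simp [uold, psi]

end Pool.ML
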