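import Pool.Agent.ML14.Indep

/-!
# The family of polynomials
-/

set_option linter.unusedSectionVars false
set_option linter.unusedSimpArgs false

namespace Pool.ML

open Matrix

variable {ρ' σ κ : Type} [Fintype ρ'] [Fintype σ] [Fintype κ]
  [DecidableEq ρ'] [DecidableEq σ] [DecidableEq κ]
variable {A : Type} [CommRing A]

/-- Exponent bounds of the columns. -/
def tt (t₁ t : ℕ) (j : Option ρ' ⊕ κ) : ℕ := Sum.elim (fun _ => t₁) (fun _ => t) j

/-- The denominators of the columns. -/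
noncomputable def SC (v : Option ρ' ⊕ κ → A) (j : Option ρ' ⊕ κ) :
    MvPolynomial (Vr ρ' σ κ) A :=
  Sum.elim (fun _ => sP none * (WP v).det) (fun _ => sP none) j

/-- The exponents. -/
def BB (ρ' σ κ : Type) [Fintype ρ'] [Fintype σ] [Fintype κ]
    [DecidableEq ρ'] [DecidableEq σ] [DecidableEq κ] (t₁ t : ℕ) :
    Finset ((Option ρ' ⊕ κ) → (ρ' ⊕ σ) → ℕ) :=
  Fintype.piFinset fun j => SB (ρ' ⊕ σ) (tt t₁ t j)

/-- The polynomials. -/
noncomputable def FF (v : Option ρ' ⊕ κ → A) (θ : MvPolynomial (Vr ρ' σ κ) A) (t₁ t : ℕ)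
    (b : (Option ρ' ⊕ κ) → (ρ' ⊕ σ) → ℕ) (e : ℕ) : MvPolynomial (Vr ρ' σ κ) A :=
  θ ^ e * ∏ j, (SC v j ^ (tt t₁ t j - ∑ i, b j i) * ∏ i, FP v (rows i) j ^ b j i)

/-- Degree of a column factor. -/
def colT (r t₁ t : ℕ) (j : Option ρ' ⊕ κ) : Gr κ → ℕ :=
  Sum.elim (fun _ => dg (t₁ * (r + 3)) (t₁ * (r + 1)) (fun _ => t₁) (fun _ => t₁))
    (fun j => dg (3 * t) 0 (Pi.single j t) (Pi.single j t)) j

theorem Bd_col (v : Option ρ' ⊕ κ → A) (t₁ t : ℕ) (b : (ρ' ⊕ σ) → ℕ) (j : Option ρ' ⊕ κ)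
    (hb : ∑ i, b i ≤ tt t₁ t j) :
    Bd grp (colT (Fintype.card (Option ρ')) t₁ t j)
      (SC v j ^ (tt t₁ t j - ∑ i, b i) * ∏ i, FP v (rows i) j ^ b i :
        MvPolynomial (Vr ρ' σ κ) A) := by
  rcases j with j | j
  · have hb' : ∑ i, b i ≤ t₁ := hb
    have h1 : Bd grp (dg 1 0 0 0 + dg (Fintype.card (Option ρ')) (Fintype.card (Option ρ')) 0 0)
        (sP none * (WP v).det : MvPolynomial (Vr ρ' σ κ) A) := (Bd_sP none).mul (Bd_WP v)
    have h2 := h1.pow (t₁ - ∑ i, b i)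
    have h3 : Bd grp (∑ i, b i • dg (Fintype.card (Option ρ') + 3)
        (Fintype.card (Option ρ') + 1) 1 1)
        (∏ i, FP v (rows i) (Sum.inl j) ^ b i : MvPolynomial (Vr ρ' σ κ) A) :=
      Bd.prod _ fun i _ => (Bd_FP_inl v (rows i) j).pow (b i)
    have h4 := h2.mul h3
    rw [dg_add, dg_smul, ← Finset.sum_smul, dg_smul, dg_add] at h4
    set s := ∑ i, b i with hs
    set r := Fintype.card (Option ρ') with hr
    obtain ⟨k, hk⟩ : ∃ k, t₁ = k + s := ⟨t₁ - s, by omega⟩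
    have hk' : t₁ - s = k := by omega
    rw [hk'] at h4
    have h5 : Bd grp (dg (t₁ * (r + 3)) (t₁ * (r + 1)) (fun _ => t₁) (fun _ => t₁))
        ((sP none * (WP v).det) ^ k * ∏ i, FP v (rows i) (Sum.inl j) ^ b i :
          MvPolynomial (Vr ρ' σ κ) A) := by
      refine h4.mono (dg_le ?_ ?_ ?_ ?_)
      · rw [hk]; nlinarith
      · rw [hk]; nlinarith
      · intro a
        simp only [Pi.add_apply, Pi.smul_apply, Pi.zero_apply, Pi.one_apply, smul_eq_mul]
        rw [hk]; omega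
      · intro a
        simp only [Pi.add_apply, Pi.smul_apply, Pi.zero_apply, Pi.one_apply, smul_eq_mul]
        rw [hk]; omega
    change Bd grp (dg (t₁ * (r + 3)) (t₁ * (r + 1)) (fun _ => t₁) (fun _ => t₁))
      ((sP none * (WP v).det) ^ (t₁ - s) * ∏ i, FP v (rows i) (Sum.inl j) ^ b i)
    rw [hk']
    exact h5
  · have hb' : ∑ i, b i ≤ t := hb
    have h2 := (Bd_sP (A := A) (σ := σ) (κ := κ) (none : Option ρ')).pow (t - ∑ i, b i)
    have h3 : Bd grp (∑ i, b i • dg 3 0 (Pi.single j 1) (Pi.single j 1))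
        (∏ i, FP v (rows i) (Sum.inr j) ^ b i : MvPolynomial (Vr ρ' σ κ) A) :=
      Bd.prod _ fun i _ => (Bd_FP_inr v (rows i) j).pow (b i)
    have h4 := h2.mul h3
    rw [dg_smul, ← Finset.sum_smul, dg_smul, dg_add] at h4
    set s := ∑ i, b i with hs
    obtain ⟨k, hk⟩ : ∃ k, t = k + s := ⟨t - s, by omega⟩
    have hk' : t - s = k := by omega
    rw [hk'] at h4
    change Bd grp (dg (3 * t) 0 (Pi.single j t) (Pi.single j t))
      (sP none ^ (t - s) * ∏ i, FP v (rows i) (Sum.inr j) ^ b i)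
    rw [hk']
    refine h4.mono (dg_le ?_ ?_ ?_ ?_)
    · rw [hk]; omega
    · simp
    · intro a
      simp only [Pi.add_apply, Pi.smul_apply, Pi.zero_apply, smul_eq_mul, Pi.single_apply]
      split_ifs
      · rw [hk]; omega
      · omega
    · intro a
      simp only [Pi.add_apply, Pi.smul_apply, Pi.zero_apply, smul_eq_mul, Pi.single_apply]
      split_ifs
      · rw [hk]; omega
      · omega

theorem sum_colT (r t₁ t : ℕ) :
    ∑ j : Option ρ' ⊕ κ, colT r t₁ t j =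
      dg (Fintype.card (Option ρ') * (t₁ * (r + 3)) + Fintype.card κ * (3 * t))
        (Fintype.card (Option ρ') * (t₁ * (r + 1)))
        (fun _ => Fintype.card (Option ρ') * t₁ + t)
        (fun _ => Fintype.card (Option ρ') * t₁ + t) := by
  rw [Fintype.sum_sum_type]
  simp only [colT, Sum.elim_inl, Sum.elim_inr]
  rw [dg_sum, dg_sum, dg_add]
  congr 1
  · simp
  · simp
  · funext a
    simp [Finset.sum_apply, Pi.single_apply]
  · funext a
    simp [Finset.sum_apply, Pi.single_apply]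

theorem Bd_FF (v : Option ρ' ⊕ κ → A) (θ : MvPolynomial (Vr ρ' σ κ) A) (t₁ t N : ℕ)
    (hθ : Bd grp (dg 1 1 1 1) θ) (b : (Option ρ' ⊕ κ) → (ρ' ⊕ σ) → ℕ)
    (hb : b ∈ BB ρ' σ κ t₁ t) (e : ℕ) (he : e ≤ N) :
    Bd grp (dg (N + (Fintype.card (Option ρ') * (t₁ * (Fintype.card (Option ρ') + 3)) +
        Fintype.card κ * (3 * t)))
      (N + Fintype.card (Option ρ') * (t₁ * (Fintype.card (Option ρ') + 1)))
      (fun _ => N + (Fintype.card (Option ρ') * t₁ + t))
      (fun _ => N + (Fintype.card (Option ρ') * t₁ + t))) (FF v θ t₁ t b e) := by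
  have hb' : ∀ j, ∑ i, b j i ≤ tt t₁ t j := by
    intro j
    have h1 := Fintype.mem_piFinset.mp hb j
    exact mem_SB.mp h1
  have h1 : Bd grp (∑ j : Option ρ' ⊕ κ, colT (Fintype.card (Option ρ')) t₁ t j)
      (∏ j, (SC v j ^ (tt t₁ t j - ∑ i, b j i) * ∏ i, FP v (rows i) j ^ b j i) :
        MvPolynomial (Vr ρ' σ κ) A) :=
    Bd.prod _ fun j _ => Bd_col v t₁ t (b j) j (hb' j)
  rw [sum_colT] at h1
  have h2 := (hθ.pow e).mul h1
  rw [dg_smul, dg_add] at h2
  refine Bd.mono (F := FF v θ t₁ t b e) h2 (dg_le (by omega) (by omega) ?_ ?_)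
  · intro a
    simp only [Pi.add_apply, Pi.smul_apply, Pi.one_apply, smul_eq_mul, mul_one]
    omega
  · intro a
    simp only [Pi.add_apply, Pi.smul_apply, Pi.one_apply, smul_eq_mul, mul_one]
    omega

variable [Algebra A ℂ]

/-- The values of the denominators. -/
def scX (X : Matrix (Option ρ' ⊕ σ) (Option ρ' ⊕ κ) ℂ) (j : Option ρ' ⊕ κ) : ℂ :=
  Sum.elim (fun _ => sX X none * (sX X none * X.toBlocks₁₁.det)) (fun _ => sX X none) j

theorem ev_FF (X : Matrix (Option ρ' ⊕ σ) (Option ρ' ⊕ κ) ℂ) (v : Option ρ' ⊕ κ → A)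
    (hv : ∀ j, algebraMap A ℂ (v j) = ∑ i, psi X i j)
    (θ : MvPolynomial (Vr ρ' σ κ) A) (t₁ t : ℕ) (b : (Option ρ' ⊕ κ) → (ρ' ⊕ σ) → ℕ)
    (hb : b ∈ BB ρ' σ κ t₁ t) (e : ℕ) :
    ev A X (FF v θ t₁ t b e) = (ev A X θ) ^ e * (∏ j, scX X j ^ tt t₁ t j) *
      ∏ j, ∏ i, psi X (rows i) j ^ b j i := by
  rw [FF, map_mul, map_pow, map_prod, mul_assoc, ← Finset.prod_mul_distrib]
  congr 1
  refine Finset.prod_congr rfl fun j _ => ?_
  have hb' : ∑ i, b j i ≤ tt t₁ t j := mem_SB.mp (Fintype.mem_piFinset.mp hb j)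
  rw [map_mul, map_pow, map_prod]
  have h1 : ev A X (SC v j) = scX X j := by
    rcases j with j | j
    · change ev A X (sP none * (WP v).det) = _
      rw [map_mul, ev_sP, ev_WP X v hv]
      rfl
    · change ev A X (sP none) = _
      rw [ev_sP]
      rfl
  have h2 : ∀ i, ev A X (FP v (rows i) j ^ b j i) =
      scX X j ^ b j i * psi X (rows i) j ^ b j i := by
    intro i
    rw [map_pow, ← mul_pow]
    congr 1
    rcases j with j | j
    · exact ev_FP_inl X v hv _ j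
    · exact ev_FP_inr X v hv _ j
  rw [h1, Finset.prod_congr rfl fun i _ => h2 i, Finset.prod_mul_distrib,
    Finset.prod_pow_eq_pow_sum, ← mul_assoc, ← pow_add, Nat.sub_add_cancel hb']

end Pool.ML
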