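import Pool.Agent.ML14.Minor
import Pool.Agent.ML14.AlgInd

/-!
# Critical points of data with algebraically independent entries
-/

set_option linter.unusedSectionVars false
set_option linter.unusedSimpArgs false

namespace Pool.ML

open Matrix

/-- The entries are algebraically independent over the rationals. -/
def Alg {I J : Type} (u : Matrix I J ℂ) : Prop :=
  AlgebraicIndependent ℚ (fun a : I × J => u a.1 a.2)

theorem Alg.submatrix {I J I' J' : Type} {u : Matrix I J ℂ} (h : Alg u) (e : I' ≃ I)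
    (f : J' ≃ J) : Alg (u.submatrix e f) :=
  AlgebraicIndependent.comp h (fun a : I' × J' => (e a.1, f a.2)) (by
    intro a b hab
    simp only [Prod.mk.injEq] at hab
    exact Prod.ext (e.injective hab.1) (f.injective hab.2))

theorem Alg.transpose {I J : Type} {u : Matrix I J ℂ} (h : Alg u) : Alg uᵀ :=
  AlgebraicIndependent.comp h (fun a : J × I => (a.2, a.1)) (by
    intro a b hab
    simp only [Prod.mk.injEq] at hab
    exact Prod.ext hab.2 hab.1)

theorem PCrit.submatrix {I J I' J' : Type} [Fintype I] [Fintype J] [Fintype I'] [Fintype J']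
    {r : ℕ} {u p : Matrix I J ℂ} (h : PCrit r u p) (e : I' ≃ I) (f : J' ≃ J) :
    PCrit r (u.submatrix e f) (p.submatrix e f) where
  rk := by
    rw [Matrix.rank_submatrix]
    exact h.rk
  ne i j := h.ne _ _
  right := by
    have h1 : G (u.submatrix e f) (p.submatrix e f) = (G u p).submatrix e f := rfl
    rw [h1, Matrix.transpose_submatrix, Matrix.submatrix_mul_equiv, h.right]
    rfl
  left := by
    have h1 : G (u.submatrix e f) (p.submatrix e f) = (G u p).submatrix e f := rfl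
    rw [h1, Matrix.transpose_submatrix, Matrix.submatrix_mul_equiv, h.left]
    rfl

theorem PCrit.transpose {I J : Type} [Fintype I] [Fintype J]
    {r : ℕ} {u p : Matrix I J ℂ} (h : PCrit r u p) : PCrit r uᵀ pᵀ where
  rk := by
    rw [Matrix.rank_transpose]
    exact h.rk
  ne i j := h.ne _ _
  right := by
    have h1 : G uᵀ pᵀ = (G u p)ᵀ := rfl
    rw [h1, ← Matrix.transpose_mul, h.left, Matrix.transpose_zero]
  left := by
    have h1 : G uᵀ pᵀ = (G u p)ᵀ := rfl
    rw [h1, ← Matrix.transpose_mul, h.right, Matrix.transpose_zero]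

variable {ρ σ κ : Type} [Fintype ρ] [Fintype σ] [Fintype κ]
  [DecidableEq ρ] [DecidableEq σ] [DecidableEq κ]

/-- The generic matrix. -/
noncomputable def gen (ρ σ κ : Type) :
    Matrix (ρ ⊕ σ) (ρ ⊕ κ) (MvPolynomial ((ρ ⊕ σ) × (ρ ⊕ κ)) ℚ) :=
  Matrix.of fun i j => MvPolynomial.X (i, j)

theorem gen_map_aeval (X : Matrix (ρ ⊕ σ) (ρ ⊕ κ) ℂ) :
    (gen ρ σ κ).map (MvPolynomial.aeval (R := ℚ) (fun a : (ρ ⊕ σ) × (ρ ⊕ κ) => X a.1 a.2) :
      MvPolynomial ((ρ ⊕ σ) × (ρ ⊕ κ)) ℚ →ₐ[ℚ] ℂ).toRingHom = X := by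
  ext i j
  simp [gen]

theorem gen_map_eval (X : Matrix (ρ ⊕ σ) (ρ ⊕ κ) ℚ) :
    (gen ρ σ κ).map (MvPolynomial.eval (fun a : (ρ ⊕ σ) × (ρ ⊕ κ) => X a.1 a.2)) = X := by
  ext i j
  simp [gen]

/-- A polynomial expression that is non-zero at a rational matrix is non-zero at a matrix with
algebraically independent entries. -/
theorem ne_of_alg (X : Matrix (ρ ⊕ σ) (ρ ⊕ κ) ℂ) (hX : Alg X)
    (P : MvPolynomial ((ρ ⊕ σ) × (ρ ⊕ κ)) ℚ) (X₀ : Matrix (ρ ⊕ σ) (ρ ⊕ κ) ℚ)
    (h : MvPolynomial.eval (fun a : (ρ ⊕ σ) × (ρ ⊕ κ) => X₀ a.1 a.2) P ≠ 0) :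
    MvPolynomial.aeval (fun a : (ρ ⊕ σ) × (ρ ⊕ κ) => X a.1 a.2) P ≠ 0 := by
  intro h0
  apply h
  have h1 := (algebraicIndependent_iff.mp hX) P h0
  rw [h1, map_zero]

theorem Dm_ne_of_alg (X : Matrix (ρ ⊕ σ) (ρ ⊕ κ) ℂ) (hX : Alg X)
    (f : ρ → Option (ρ ⊕ σ)) (hf : Function.Injective f) : Dm X f ≠ 0 := by
  obtain ⟨X₀, h0⟩ := exists_Dm_ne (κ := κ) f hf
  have h1 := ne_of_alg X hX (Dm (gen ρ σ κ) f) X₀ (by
    rw [← gen_map_eval X₀, Dm_map] at h0
    exact h0)
  rw [← gen_map_aeval X, Dm_map]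
  exact h1

theorem Jac_ne_of_alg [Nonempty ρ] (X : Matrix (ρ ⊕ σ) (ρ ⊕ κ) ℂ) (hX : Alg X) :
    (Jac X).det ≠ 0 := by
  have h0 := Jac_posPoint (ρ := ρ) (σ := σ) (κ := κ)
  have h1 := ne_of_alg X hX ((Jac (gen ρ σ κ)).det) (posPoint ρ σ κ) (by
    rw [← gen_map_eval (posPoint ρ σ κ), Jac_map, ← RingHom.mapMatrix_apply,
      ← RingHom.map_det] at h0
    exact h0)
  rw [← gen_map_aeval X, Jac_map, ← RingHom.mapMatrix_apply, ← RingHom.map_det]
  exact h1

theorem W_ne_of_alg (X : Matrix (ρ ⊕ σ) (ρ ⊕ κ) ℂ) (hX : Alg X) :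
    X.toBlocks₁₁.det ≠ 0 := by
  have h0 := posPoint_det (ρ := ρ) (σ := σ) (κ := κ)
  have h1 := ne_of_alg X hX ((gen ρ σ κ).toBlocks₁₁.det) (posPoint ρ σ κ) (by
    rw [← gen_map_eval (posPoint ρ σ κ), (toBlocks_map _ _).1, ← RingHom.mapMatrix_apply,
      ← RingHom.map_det] at h0
    exact h0)
  rw [← gen_map_aeval X, (toBlocks_map _ _).1, ← RingHom.mapMatrix_apply, ← RingHom.map_det]
  exact h1

/-- The chart coordinates of a critical point are algebraically independent. -/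
theorem chart_alg (u p : Matrix (ρ ⊕ σ) (ρ ⊕ κ) ℂ) (hu : Alg u)
    (hp : PCrit (Fintype.card ρ) u p) (hW : p.toBlocks₁₁.det ≠ 0) : Alg (chart u p) := by
  apply algInd_transfer _ _ hu
  intro a
  rw [Algebra.adjoin_range_eq_range_aeval]
  refine ⟨psi (gen ρ σ κ) a.1 a.2, ?_⟩
  have h1 := psi_chart u p hp hW
  have h2 : psi (chart u p) a.1 a.2 = u a.1 a.2 := by rw [h1]
  rw [← h2]
  conv_rhs => rw [← gen_map_aeval (chart u p), psi_map]
  rfl

theorem submatrix_pmat (X : Matrix (ρ ⊕ σ) (ρ ⊕ κ) ℂ) (a : ρ → ρ ⊕ σ) (b : ρ → ρ ⊕ κ) :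
    ((pmat X).submatrix a b).det =
      Dm X (fun k => some (a k)) * X.toBlocks₁₁.det * Dm Xᵀ (fun k => some (b k)) := by
  have h1 : (pmat X).submatrix a b =
      (Lm X).submatrix a id * X.toBlocks₁₁ * (Um X).submatrix id b := by
    rw [pmat]
    ext i j
    simp [Matrix.mul_apply]
  have h2 : Dm Xᵀ (fun k => some (b k)) = ((Um X).submatrix id b).det := by
    rw [← Matrix.det_transpose, Dm]
    congr 1
    ext k l
    rcases hb : b k with j | j
    · simp [arow, hb, Lm, Um, Matrix.one_apply, eq_comm]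
    · simp [arow, hb, Lm, Um, Matrix.toBlocks₂₁, Matrix.toBlocks₁₂]
  rw [h1, Matrix.det_mul, Matrix.det_mul, h2]
  rfl

theorem minor_ne (u p : Matrix (ρ ⊕ σ) (ρ ⊕ κ) ℂ) (hu : Alg u)
    (hp : PCrit (Fintype.card ρ) u p) (hW : p.toBlocks₁₁.det ≠ 0)
    (a : ρ → ρ ⊕ σ) (b : ρ → ρ ⊕ κ) (ha : Function.Injective a) (hb : Function.Injective b) :
    (p.submatrix a b).det ≠ 0 := by
  have hX := chart_alg u p hu hp hW
  rw [← pmat_chart u p hp.rk hW, submatrix_pmat]
  refine mul_ne_zero (mul_ne_zero ?_ ?_) ?_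
  · exact Dm_ne_of_alg _ hX _ (fun k l h => ha (Option.some.inj h))
  · exact W_ne_of_alg _ hX
  · exact Dm_ne_of_alg _ hX.transpose _ (fun k l h => hb (Option.some.inj h))

theorem exists_perm_extend {τ : Type} [Fintype τ] [DecidableEq τ] (a : ρ → ρ ⊕ τ)
    (ha : Function.Injective a) : ∃ e : (ρ ⊕ τ) ≃ (ρ ⊕ τ), ∀ k, e (Sum.inl k) = a k := by
  obtain ⟨g, hg⟩ := Finset.exists_equiv_extend_of_card_eq (α := ρ ⊕ τ) (β := ρ ⊕ τ)
    (t := Finset.univ) (s := Finset.univ.image Sum.inl)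
    (f := Sum.elim a Sum.inr) (by simp) (Finset.subset_univ _) (by
      intro x hx y hy hxy
      simp only [Finset.coe_image, Set.mem_image, Finset.coe_univ, Set.mem_univ,
        true_and] at hx hy
      obtain ⟨x', rfl⟩ := hx
      obtain ⟨y', rfl⟩ := hy
      simp only [Sum.elim_inl] at hxy
      rw [ha hxy])
  refine ⟨g.trans (Equiv.subtypeUnivEquiv (fun x => Finset.mem_univ x)), ?_⟩
  intro k
  have := hg (Sum.inl k) (by simp)
  simpa using this

/-- All critical points of generic data lie in the standard chart. -/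
theorem std_minor_ne (u p : Matrix (ρ ⊕ σ) (ρ ⊕ κ) ℂ) (hu : Alg u)
    (hp : PCrit (Fintype.card ρ) u p) : p.toBlocks₁₁.det ≠ 0 := by
  obtain ⟨a, b, hab⟩ := exists_minor_ne p hp.rk
  have ha : Function.Injective a := by
    intro k l hkl
    by_contra hne
    apply hab
    exact Matrix.det_zero_of_row_eq hne (by funext j; simp [hkl])
  have hb : Function.Injective b := by
    intro k l hkl
    by_contra hne
    apply hab
    exact Matrix.det_zero_of_column_eq hne (by intro i; simp [hkl])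
  obtain ⟨e, he⟩ := exists_perm_extend a ha
  obtain ⟨f, hf⟩ := exists_perm_extend b hb
  have h1 := minor_ne (u.submatrix e f) (p.submatrix e f) (hu.submatrix e f)
    (hp.submatrix e f) (by
      have h2 : (p.submatrix e f).toBlocks₁₁ = p.submatrix a b := by
        ext k l
        simp [Matrix.toBlocks₁₁, he, hf]
      rw [h2]
      exact hab) (fun k => e.symm (Sum.inl k)) (fun k => f.symm (Sum.inl k))
    (fun k l h => Sum.inl_injective (e.symm.injective h))
    (fun k l h => Sum.inl_injective (f.symm.injective h))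
  have h3 : (p.submatrix e f).submatrix (fun k => e.symm (Sum.inl k))
      (fun k => f.symm (Sum.inl k)) = p.toBlocks₁₁ := by
    ext k l
    simp [Matrix.toBlocks₁₁]
  rwa [h3] at h1

end Pool.ML
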