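import Pool.Agent.ML14.Rate

/-!
# The growth inequalities
-/

set_option linter.unusedSectionVars false
set_option linter.unusedSimpArgs false
set_option linter.unusedVariables false

namespace Pool.ML

open Matrix

theorem ncard_PCrit {m n : ℕ} {r : ℕ} {u : Matrix (Fin m) (Fin n) ℂ}
    (hs : ∑ i, ∑ j, u i j ≠ 0) :
    {q | PCrit r u q}.ncard = {p | IsCritical r u p}.ncard := by
  rw [← crit_image hs, Set.ncard_image_of_injective _ (smul_injective' _ hs)]

theorem ncard_transpose {m n : ℕ} {r : ℕ} {u : Matrix (Fin m) (Fin n) ℂ}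
    (hs : ∑ i, ∑ j, u i j ≠ 0) :
    {p | IsCritical r uᵀ p}.ncard = {p | IsCritical r u p}.ncard := by
  have hs' : ∑ i, ∑ j, uᵀ i j ≠ 0 := by
    simp only [Matrix.transpose_apply]
    rw [Finset.sum_comm]
    exact hs
  rw [← ncard_PCrit hs, ← ncard_PCrit hs']
  have h1 : {q | PCrit r uᵀ q} = Matrix.transpose '' {q | PCrit r u q} := by
    ext q
    constructor
    · intro hq
      refine ⟨qᵀ, ?_, Matrix.transpose_transpose q⟩
      have h2 := PCrit.transpose hq
      rw [Matrix.transpose_transpose] at h2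
      exact h2
    · rintro ⟨q', hq', rfl⟩
      exact PCrit.transpose hq'
  rw [h1, Set.ncard_image_of_injective _ Matrix.transpose_injective]

/-- One more column, for all data with algebraically independent entries. -/
theorem col_growth {m n r : ℕ} (hr : 1 ≤ r) (hm : r ≤ m) (hn : r ≤ n)
    (u : Matrix (Fin m) (Fin n) ℂ) (hu : Alg u)
    (u' : Matrix (Fin m) (Fin (n + 1)) ℂ) (hu' : Alg u') :
    (m - 1).choose (r - 1) * {p | IsCritical r u p}.ncard ≤
      {p | IsCritical r u' p}.ncard := by
  classical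
  have hs := Alg.sum_ne (le_trans hr hm) (le_trans hr hn) u hu
  have hf := (finite_of_alg hr hm hn u hu).1
  have hf' := (finite_of_alg hr hm (by omega) u' hu').1
  have : Nonempty (Fin r) := ⟨⟨0, hr⟩⟩
  have e : Fin r ⊕ Fin (m - r) ≃ Fin m :=
    Fintype.equivOfCardEq (by simp only [Fintype.card_sum, Fintype.card_fin]; omega)
  have f : Fin r ⊕ Fin (n - r) ≃ Fin n :=
    Fintype.equivOfCardEq (by simp only [Fintype.card_sum, Fintype.card_fin]; omega)
  have g : Fin (n + 1) ≃ Fin r ⊕ (Fin (n - r) ⊕ Unit) :=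
    Fintype.equivOfCardEq (by
      simp only [Fintype.card_sum, Fintype.card_fin, Fintype.card_unit]; omega)
  set S : Finset (Matrix (Fin r ⊕ Fin (m - r)) (Fin r ⊕ Fin (n - r)) ℂ) :=
    hf.toFinset.image fun p => ((∑ i, ∑ j, u i j) • p).submatrix e f with hS
  have hinj : Function.Injective fun p : Matrix (Fin m) (Fin n) ℂ =>
      ((∑ i, ∑ j, u i j) • p).submatrix e f := by
    intro p q hpq
    apply smul_injective' _ hs
    ext i j
    have := congrFun (congrFun hpq (e.symm i)) (f.symm j)
    simpa using this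
  have hScard : S.card = {p | IsCritical r u p}.ncard := by
    rw [hS, Finset.card_image_of_injective _ hinj, Set.ncard_eq_toFinset_card _ hf]
  have hSc : ∀ p ∈ S, PCrit (Fintype.card (Fin r)) (u.submatrix e f) p := by
    intro p hp
    obtain ⟨q, hq, rfl⟩ := Finset.mem_image.mp hp
    rw [Fintype.card_fin]
    exact (PCrit_of_IsCritical hs ((Set.Finite.mem_toFinset hf).mp hq)).submatrix e f
  have h1 := step_alg {p | IsCritical r u p}.ncard (fun i j => u (e i) (f j))
    (hu.submatrix e f) S hScard hSc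
  have h3 := h1.reindex e.symm g
  have h4 : Fintype.card (Fin r ⊕ Fin (m - r)) = m := by
    simp only [Fintype.card_sum, Fintype.card_fin]; omega
  rw [h4, Fintype.card_fin] at h3
  have h5 := le_encard (le_trans hr hm) (by omega) h3 u' hu'
  rw [← hf'.cast_ncard_eq] at h5
  have h6 : {p | IsCritical r u p}.ncard * (m - 1).choose (r - 1) ≤
      {p | IsCritical r u' p}.ncard := by exact_mod_cast h5
  rwa [mul_comm]

/-- One more row, for all data with algebraically independent entries. -/
theorem row_growth {m n r : ℕ} (hr : 1 ≤ r) (hm : r ≤ m) (hn : r ≤ n)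
    (u : Matrix (Fin m) (Fin n) ℂ) (hu : Alg u)
    (u' : Matrix (Fin (m + 1)) (Fin n) ℂ) (hu' : Alg u') :
    (n - 1).choose (r - 1) * {p | IsCritical r u p}.ncard ≤
      {p | IsCritical r u' p}.ncard := by
  have hs := Alg.sum_ne (le_trans hr hm) (le_trans hr hn) u hu
  have hs' := Alg.sum_ne (by omega) (le_trans hr hn) u' hu'
  have h1 := col_growth hr hn hm uᵀ hu.transpose u'ᵀ hu'.transpose
  rwa [ncard_transpose hs, ncard_transpose hs'] at h1

/-- The growth inequality for the ML degree. -/
theorem MLDegree_col {m n r N N' : ℕ} (hr : 1 ≤ r) (hm : r ≤ m) (hn : r ≤ n)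
    (hN : IsMLDegree m n r N) (hN' : IsMLDegree m (n + 1) r N') :
    (m - 1).choose (r - 1) * N ≤ N' := by
  have h1 := LB_col hr hm hn (LB_of_MLDegree (le_trans hr hm) (le_trans hr hn) hN)
  have h2 := le_MLDegree (le_trans hr hm) (by omega) h1 hN'
  rwa [mul_comm] at h2

theorem MLDegree_row {m n r N N' : ℕ} (hr : 1 ≤ r) (hm : r ≤ m) (hn : r ≤ n)
    (hN : IsMLDegree m n r N) (hN' : IsMLDegree (m + 1) n r N') :
    (n - 1).choose (r - 1) * N ≤ N' := by
  have h1 := LB_row hr hm hn (LB_of_MLDegree (le_trans hr hm) (le_trans hr hn) hN)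
  have h2 := le_MLDegree (by omega) (le_trans hr hn) h1 hN'
  rwa [mul_comm] at h2

end Pool.ML
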