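import Pool.Agent.ML14.Count

/-!
# Linear independence of the monomials in the data times powers of a separating form
-/

set_option linter.unusedSectionVars false
set_option linter.unusedSimpArgs false

namespace Pool.ML

open Matrix

/-- A linear form with natural coefficients separates finitely many points. -/
theorem exists_sep {V : Type} [Fintype V] {N : ℕ} (x : Fin N → V → ℂ)
    (hx : Function.Injective x) :
    ∃ a : V → ℕ, Function.Injective fun l => ∑ i, (a i : ℂ) * x l i := by
  classical
  set P : MvPolynomial V ℂ := ∏ q ∈ (Finset.univ : Finset (Fin N × Fin N)).filter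
    (fun q => q.1 ≠ q.2), ∑ i, MvPolynomial.X i * MvPolynomial.C (x q.1 i - x q.2 i) with hP
  have hPne : P ≠ 0 := by
    rw [hP, Finset.prod_ne_zero_iff]
    intro q hq h0
    rw [Finset.mem_filter] at hq
    apply hq.2
    apply hx
    funext i
    have h1 := congrArg (MvPolynomial.eval (Pi.single i (1 : ℂ))) h0
    rw [map_sum, map_zero] at h1
    simp only [map_mul, MvPolynomial.eval_X, MvPolynomial.eval_C, Pi.single_apply, ite_mul,
      one_mul, zero_mul, Finset.sum_ite_eq', Finset.mem_univ, if_true] at h1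
    exact sub_eq_zero.mp h1
  have hex : ∃ y ∈ Set.pi Set.univ (fun _ : V => Set.range (Nat.cast : ℕ → ℂ)),
      MvPolynomial.eval y P ≠ 0 := by
    by_contra hcon
    push Not at hcon
    apply hPne
    apply MvPolynomial.funext_set (fun _ : V => Set.range (Nat.cast : ℕ → ℂ))
    · intro i
      exact Set.infinite_range_of_injective Nat.cast_injective
    · intro y hy
      rw [hcon y hy, map_zero]
  obtain ⟨y, hy, hyP⟩ := hex
  have hy' : ∀ i, ∃ n : ℕ, (n : ℂ) = y i := fun i => hy i (Set.mem_univ i)
  choose a ha using hy'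
  refine ⟨a, ?_⟩
  intro l l' hll
  by_contra hne
  rw [hP, map_prod, Finset.prod_ne_zero_iff] at hyP
  apply hyP (l, l') (by simp [hne])
  rw [map_sum]
  simp only [map_mul, MvPolynomial.eval_X, MvPolynomial.eval_C]
  have h1 : ∑ i, (a i : ℂ) * x l i = ∑ i, (a i : ℂ) * x l' i := hll
  simp only [← ha, mul_sub, Finset.sum_sub_distrib]
  rw [h1, sub_self]

variable {ρ' σ κ : Type} [Fintype ρ'] [Fintype σ] [Fintype κ]
  [DecidableEq ρ'] [DecidableEq σ] [DecidableEq κ]

/-- The column sums. -/
def vs (u : Matrix (Option ρ' ⊕ σ) (Option ρ' ⊕ κ) ℂ) (j : Option ρ' ⊕ κ) : ℂ := ∑ i, u i j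

/-- All rows but the first. -/
def rows (i : ρ' ⊕ σ) : Option ρ' ⊕ σ := Sum.map some id i

/-- The data without the first row. -/
def ur (u : Matrix (Option ρ' ⊕ σ) (Option ρ' ⊕ κ) ℂ)
    (a : (ρ' ⊕ σ) × (Option ρ' ⊕ κ)) : ℂ := u (rows a.1) a.2

theorem vs_eq (u : Matrix (Option ρ' ⊕ σ) (Option ρ' ⊕ κ) ℂ) (j : Option ρ' ⊕ κ) :
    vs u j = u (Sum.inl none) j + ∑ i : ρ' ⊕ σ, u (rows i) j := by
  rw [vs, Fintype.sum_sum_type, Fintype.sum_option, Fintype.sum_sum_type]
  simp only [rows, Sum.map_inl, Sum.map_inr, id]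
  ring

/-- The data without the first row are algebraically independent over the column sums. -/
theorem algInd_rel (u : Matrix (Option ρ' ⊕ σ) (Option ρ' ⊕ κ) ℂ) (hu : Alg u) :
    AlgebraicIndependent (Algebra.adjoin ℚ (Set.range (vs u))) (ur u) := by
  have h0 : AlgebraicIndependent ℚ (Sum.elim (ur u) (fun j => u (Sum.inl none) j)) := by
    have h1 := AlgebraicIndependent.comp hu
      (Sum.elim (fun a : (ρ' ⊕ σ) × (Option ρ' ⊕ κ) => ((rows a.1, a.2) :
        (Option ρ' ⊕ σ) × (Option ρ' ⊕ κ))) (fun j => (Sum.inl none, j))) (by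
      rintro (⟨a, b⟩ | a) (⟨a', b'⟩ | a') h
      · simp only [Sum.elim_inl, Prod.mk.injEq] at h
        have h2 : a = a' := by
          rcases a with a | a <;> rcases a' with a' | a' <;> simp [rows] at h ⊢
          · exact h.1
          · exact h.1
        rw [h2, h.2]
      · simp only [Sum.elim_inl, Sum.elim_inr, Prod.mk.injEq] at h
        rcases a with a | a <;> simp [rows] at h
      · simp only [Sum.elim_inl, Sum.elim_inr, Prod.mk.injEq] at h
        rcases a' with a' | a' <;> simp [rows] at h
      · simp only [Sum.elim_inr, Prod.mk.injEq, true_and] at h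
        rw [h])
    convert h1 using 1
    funext x
    rcases x with x | x <;> rfl
  have h2 : AlgebraicIndependent ℚ (Sum.elim (ur u) (vs u)) := by
    apply algInd_transfer _ _ h0
    rintro (a | j)
    · exact Algebra.subset_adjoin ⟨Sum.inl a, rfl⟩
    · have h3 : u (Sum.inl none) j = Sum.elim (ur u) (vs u) (Sum.inr j) -
          ∑ i : ρ' ⊕ σ, Sum.elim (ur u) (vs u) (Sum.inl (i, j)) := by
        simp only [Sum.elim_inr, Sum.elim_inl]
        rw [vs_eq]
        simp [ur]
      change u (Sum.inl none) j ∈ _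
      rw [h3]
      exact Subalgebra.sub_mem _ (Algebra.subset_adjoin ⟨_, rfl⟩)
        (Subalgebra.sum_mem _ fun i _ => Algebra.subset_adjoin ⟨_, rfl⟩)
  exact (AlgebraicIndependent.sumElim_iff.mp h2).2

end Pool.ML
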