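import Pool.Agent.ML14.Generic

/-!
# The limit equations of a new column
-/

set_option linter.unusedSectionVars false
set_option linter.unusedSimpArgs false

namespace Pool.ML

open Matrix

theorem cramer_row {ρ : Type} [Fintype ρ] [DecidableEq ρ] (M : Matrix ρ ρ ℂ) (hM : M.det ≠ 0)
    (v : ρ → ℂ) : ∃ α : ρ → ℂ, v = ∑ k, α k • M k ∧
      ∀ k, (M.updateRow k v).det = α k * M.det := by
  have hU : IsUnit Mᵀ.det := by rw [Matrix.det_transpose]; exact isUnit_iff_ne_zero.mpr hM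
  have h1 : v = ∑ k, (Mᵀ⁻¹ *ᵥ v) k • M k := by
    have h2 : Mᵀ *ᵥ (Mᵀ⁻¹ *ᵥ v) = v := by
      rw [Matrix.mulVec_mulVec, Matrix.mul_nonsing_inv _ hU, Matrix.one_mulVec]
    conv_lhs => rw [← h2]
    funext j
    simp only [Matrix.mulVec, dotProduct, Matrix.transpose_apply, Finset.sum_apply,
      Pi.smul_apply, smul_eq_mul]
    exact Finset.sum_congr rfl fun k _ => mul_comm _ _
  refine ⟨Mᵀ⁻¹ *ᵥ v, h1, ?_⟩
  intro k
  conv_lhs => rw [h1]
  rw [Matrix.det_updateRow_sum, smul_eq_mul]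

variable {ρ σ κ : Type} [Fintype ρ] [Fintype σ] [Fintype κ]
  [DecidableEq ρ] [DecidableEq σ] [DecidableEq κ]

/-- The new column of the rank `ρ` matrix, before scaling. -/
def dvec (X : Matrix (ρ ⊕ σ) (ρ ⊕ κ) ℂ) (c : ρ → ℂ) : ρ ⊕ σ → ℂ :=
  Lm X *ᵥ (X.toBlocks₁₁ *ᵥ c)

/-- One plus the new column of the orthogonal matrix. -/
def zvec (X : Matrix (ρ ⊕ σ) (ρ ⊕ κ) ℂ) (γ : σ → ℂ) : ρ ⊕ σ → ℂ :=
  fun i => 1 + (Nm X *ᵥ γ) i

theorem Lt_mul_zvec (X : Matrix (ρ ⊕ σ) (ρ ⊕ κ) ℂ) (z : ρ ⊕ σ → ℂ)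
    (h : ∀ k, ∑ i, Lm X i k * z i = ∑ i, Lm X i k) :
    zvec X (fun t => z (Sum.inr t) - 1) = z := by
  funext i
  rcases i with k | t
  · have h1 := h k
    rw [Fintype.sum_sum_type, Fintype.sum_sum_type] at h1
    simp only [Lm, Matrix.fromRows_apply_inl, Matrix.fromRows_apply_inr, Matrix.one_apply,
      ite_mul, one_mul, zero_mul, Finset.sum_ite_eq', Finset.mem_univ, if_true] at h1
    simp only [zvec, Nm, Matrix.mulVec, dotProduct, Matrix.fromRows_apply_inl,
      Matrix.neg_apply, Matrix.transpose_apply]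
    have h2 : ∑ t, -X.toBlocks₂₁ t k * (z (Sum.inr t) - 1) =
        ∑ t, X.toBlocks₂₁ t k - ∑ t, X.toBlocks₂₁ t k * z (Sum.inr t) := by
      rw [← Finset.sum_sub_distrib]
      exact Finset.sum_congr rfl fun t _ => by ring
    rw [h2]
    linear_combination -h1
  · simp [zvec, Nm]

theorem exists_limit (X : Matrix (ρ ⊕ σ) (ρ ⊕ κ) ℂ) (hX : Alg X) (k₀ : ρ)
    (T : Finset (ρ ⊕ σ)) (hT : T.card = Fintype.card ρ) (h0 : Sum.inl k₀ ∈ T) :
    ∃ (c : ρ → ℂ) (γ : σ → ℂ),
      (∀ i, dvec X c i * zvec X γ i = if i = Sum.inl k₀ then 1 else 0) ∧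
      (∀ i, zvec X γ i ≠ 0 ↔ i ∈ T) ∧ (∀ i, i ∉ T → dvec X c i ≠ 0) := by
  have hcard : Fintype.card ρ = Fintype.card T := by rw [Fintype.card_coe, hT]
  let F : ρ ≃ T := Fintype.equivOfCardEq hcard
  set f : ρ → ρ ⊕ σ := fun k => (F k : ρ ⊕ σ) with hf
  have hinj : Function.Injective f := fun a b hab => F.injective (Subtype.ext hab)
  have hfT : ∀ k, f k ∈ T := fun k => (F k).2
  have hTf : ∀ i ∈ T, ∃ k, f k = i := by
    intro i hi
    obtain ⟨k, hk⟩ := F.surjective ⟨i, hi⟩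
    exact ⟨k, by simp [hf, hk]⟩
  set M : Matrix ρ ρ ℂ := Matrix.of fun k => Lm X (f k) with hM
  have hMdet : M.det ≠ 0 :=
    Dm_ne_of_alg X hX (fun k => some (f k)) (fun a b h => hinj (Option.some.inj h))
  have hUM : IsUnit M.det := isUnit_iff_ne_zero.mpr hMdet
  have hupd : ∀ (k : ρ) (o : Option (ρ ⊕ σ)), (∀ l, l ≠ k → o ≠ some (f l)) →
      (M.updateRow k (arow X o)).det ≠ 0 := by
    intro k o ho
    have h1 : M.updateRow k (arow X o) =
        Matrix.of fun l => arow X (Function.update (fun l => some (f l)) k o l) := by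
      ext l j
      by_cases hl : l = k
      · subst hl
        simp
      · simp [hl, Function.update_of_ne hl, arow, hM]
    rw [h1]
    apply Dm_ne_of_alg X hX
    intro a b hab
    by_cases ha : a = k
    · by_cases hb : b = k
      · rw [ha, hb]
      · rw [ha, Function.update_self, Function.update_of_ne hb] at hab
        exact absurd hab (ho b hb)
    · by_cases hb : b = k
      · rw [hb, Function.update_self, Function.update_of_ne ha] at hab
        exact absurd hab.symm (ho a ha)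
      · rw [Function.update_of_ne ha, Function.update_of_ne hb] at hab
        exact hinj (Option.some.inj hab)
  obtain ⟨y, hy, hyc⟩ := cramer_row M hMdet (arow X none)
  have hy0 : ∀ k, y k ≠ 0 := by
    intro k h
    have h1 := hupd k none (by simp)
    rw [hyc k, h, zero_mul] at h1
    exact h1 rfl
  set z : ρ ⊕ σ → ℂ := fun i => ∑ k, if f k = i then y k else 0 with hz
  have hzf : ∀ k, z (f k) = y k := by
    intro k
    simp only [hz]
    rw [Finset.sum_eq_single k]
    · simp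
    · intro l _ hl
      rw [if_neg]
      intro h
      exact hl (hinj h)
    · intro h
      exact absurd (Finset.mem_univ k) h
  have hzn : ∀ i, i ∉ T → z i = 0 := by
    intro i hi
    simp only [hz]
    refine Finset.sum_eq_zero fun k _ => ?_
    rw [if_neg]
    intro h
    exact hi (h ▸ hfT k)
  have hzL : ∀ k, ∑ i, Lm X i k * z i = ∑ i, Lm X i k := by
    intro j
    have h1 := congrFun hy j
    simp only [arow, Finset.sum_apply, Pi.smul_apply, smul_eq_mul] at h1
    rw [h1]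
    simp only [hz, Finset.mul_sum]
    rw [Finset.sum_comm]
    refine Finset.sum_congr rfl fun k _ => ?_
    simp [hM, mul_comm]
  obtain ⟨k₁, hk₁⟩ := hTf _ h0
  set d' : ρ → ℂ := M⁻¹ *ᵥ (Pi.single k₁ (1 / y k₁)) with hd'
  have hMd : ∀ k, ∑ j, M k j * d' j = if k = k₁ then 1 / y k₁ else 0 := by
    intro k
    have h1 : M *ᵥ d' = Pi.single k₁ (1 / y k₁) := by
      rw [hd', Matrix.mulVec_mulVec, Matrix.mul_nonsing_inv _ hUM, Matrix.one_mulVec]
    have h2 := congrFun h1 k
    rw [Pi.single_apply] at h2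
    exact h2
  have hW := W_ne_of_alg X hX
  have hUW : IsUnit X.toBlocks₁₁.det := isUnit_iff_ne_zero.mpr hW
  refine ⟨X.toBlocks₁₁⁻¹ *ᵥ d', fun t => z (Sum.inr t) - 1, ?_⟩
  have hzv := Lt_mul_zvec X z hzL
  have hdv : ∀ i, dvec X (X.toBlocks₁₁⁻¹ *ᵥ d') i = ∑ j, Lm X i j * d' j := by
    intro i
    have h1 : X.toBlocks₁₁ *ᵥ (X.toBlocks₁₁⁻¹ *ᵥ d') = d' := by
      rw [Matrix.mulVec_mulVec, Matrix.mul_nonsing_inv _ hUW, Matrix.one_mulVec]
    rw [dvec, h1]
    rfl
  rw [hzv]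
  refine ⟨?_, ?_, ?_⟩
  · intro i
    by_cases hi : i ∈ T
    · obtain ⟨k, rfl⟩ := hTf i hi
      rw [hdv, hzf]
      have h1 : ∑ j, Lm X (f k) j * d' j = ∑ j, M k j * d' j := rfl
      rw [h1, hMd]
      by_cases hk : k = k₁
      · rw [if_pos hk, hk, if_pos hk₁]
        exact one_div_mul_cancel (hy0 k₁)
      · rw [if_neg hk, zero_mul, if_neg]
        intro h
        exact hk (hinj (h.trans hk₁.symm))
    · rw [hzn i hi, mul_zero, if_neg]
      intro h
      exact hi (h ▸ h0)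
  · intro i
    constructor
    · intro h
      by_contra hi
      exact h (hzn i hi)
    · intro hi
      obtain ⟨k, rfl⟩ := hTf i hi
      rw [hzf]
      exact hy0 k
  · intro i hi
    rw [hdv]
    obtain ⟨α, hα, hαc⟩ := cramer_row M hMdet (arow X (some i))
    have h1 := hupd k₁ (some i) (by
      intro l _ h
      exact hi (Option.some.inj h ▸ hfT l))
    rw [hαc k₁] at h1
    have h2 : ∑ j, Lm X i j * d' j = α k₁ * (1 / y k₁) := by
      have h3 : ∀ j, Lm X i j = ∑ k, α k * M k j := by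
        intro j
        have := congrFun hα j
        simpa [arow, Finset.sum_apply] using this
      calc ∑ j, Lm X i j * d' j = ∑ j, ∑ k, α k * (M k j * d' j) := by
            refine Finset.sum_congr rfl fun j _ => ?_
            rw [h3, Finset.sum_mul]
            exact Finset.sum_congr rfl fun k _ => by ring
        _ = ∑ k, α k * ∑ j, M k j * d' j := by
            rw [Finset.sum_comm]
            exact Finset.sum_congr rfl fun k _ => by rw [Finset.mul_sum]
        _ = α k₁ * (1 / y k₁) := by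
            simp only [hMd]
            simp
    rw [h2]
    exact mul_ne_zero (left_ne_zero_of_mul h1) (one_div_ne_zero (hy0 k₁))

/-- The limit solutions are non-degenerate. -/
theorem limit_nondeg (X : Matrix (ρ ⊕ σ) (ρ ⊕ κ) ℂ) (hX : Alg X)
    (T : Finset (ρ ⊕ σ)) (hT : T.card = Fintype.card ρ) (c : ρ → ℂ) (γ : σ → ℂ)
    (hz : ∀ i, zvec X γ i ≠ 0 ↔ i ∈ T) (hd : ∀ i, i ∉ T → dvec X c i ≠ 0)
    (c' : ρ → ℂ) (γ' : σ → ℂ)
    (h : ∀ i, dvec X c' i * zvec X γ i + dvec X c i * (Nm X *ᵥ γ') i = 0) :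
    c' = 0 ∧ γ' = 0 := by
  have hcard : Fintype.card ρ = Fintype.card T := by rw [Fintype.card_coe, hT]
  let F : ρ ≃ T := Fintype.equivOfCardEq hcard
  set f : ρ → ρ ⊕ σ := fun k => (F k : ρ ⊕ σ) with hf
  have hinj : Function.Injective f := fun a b hab => F.injective (Subtype.ext hab)
  have hfT : ∀ k, f k ∈ T := fun k => (F k).2
  have hTf : ∀ i ∈ T, ∃ k, f k = i := by
    intro i hi
    obtain ⟨k, hk⟩ := F.surjective ⟨i, hi⟩
    exact ⟨k, by simp [hf, hk]⟩
  set M : Matrix ρ ρ ℂ := Matrix.of fun k => Lm X (f k) with hM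
  have hMdet : M.det ≠ 0 :=
    Dm_ne_of_alg X hX (fun k => some (f k)) (fun a b h => hinj (Option.some.inj h))
  set ζ := Nm X *ᵥ γ' with hζ
  have hζn : ∀ i, i ∉ T → ζ i = 0 := by
    intro i hi
    have h1 := h i
    have h2 : zvec X γ i = 0 := by
      by_contra h3
      exact hi ((hz i).mp h3)
    rw [h2, mul_zero, zero_add] at h1
    exact (mul_eq_zero.mp h1).resolve_left (hd i hi)
  have hLζ : (Lm X)ᵀ *ᵥ ζ = 0 := by
    rw [hζ, Matrix.mulVec_mulVec, Lm_transpose_mul_Nm, Matrix.zero_mulVec]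
  have hMζ : Mᵀ *ᵥ (fun k => ζ (f k)) = 0 := by
    funext j
    have h1 := congrFun hLζ j
    rw [← h1]
    simp only [Matrix.mulVec, dotProduct, Matrix.transpose_apply]
    apply Fintype.sum_of_injective f hinj
    · intro i hi
      rw [hζn i, mul_zero]
      intro hiT
      exact hi (hTf i hiT)
    · intro k
      rfl
  have h3 : (fun k => ζ (f k)) = 0 := by
    apply Matrix.eq_zero_of_mulVec_eq_zero _ hMζ
    rw [Matrix.det_transpose]
    exact hMdet
  have hζ0 : ζ = 0 := by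
    funext i
    by_cases hi : i ∈ T
    · obtain ⟨k, rfl⟩ := hTf i hi
      exact congrFun h3 k
    · exact hζn i hi
  have hγ : γ' = 0 := by
    funext t
    have := congrFun hζ0 (Sum.inr t)
    simpa [hζ, Nm] using this
  refine ⟨?_, hγ⟩
  have h4 : M *ᵥ (X.toBlocks₁₁ *ᵥ c') = 0 := by
    funext k
    have h5 := h (f k)
    rw [hζ0, Pi.zero_apply, mul_zero, add_zero] at h5
    have h6 := (mul_eq_zero.mp h5).resolve_right ((hz (f k)).mpr (hfT k))
    exact h6
  have h7 := Matrix.eq_zero_of_mulVec_eq_zero hMdet h4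
  exact Matrix.eq_zero_of_mulVec_eq_zero (W_ne_of_alg X hX) h7

end Pool.ML
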