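import Pool.Agent.ML14.Bridge
import Pool.Agent.ML14.Defs

/-!
# The critical points and their Poisson form
-/

set_option linter.unusedSectionVars false
set_option linter.unusedSimpArgs false

namespace Pool.ML

open Matrix

theorem sum_eq_of_PCrit {m n : ℕ} {r : ℕ} {u q : Matrix (Fin m) (Fin n) ℂ} (h : PCrit r u q) :
    ∑ i, ∑ j, q i j = ∑ i, ∑ j, u i j := by
  refine Finset.sum_congr rfl fun i _ => ?_
  have h1 := congrFun (congrFun h.right i) i
  rw [Matrix.mul_apply] at h1
  have h2 : ∀ j, q i j * (G u q)ᵀ j i = u i j - q i j := by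
    intro j
    have := h.ne i j
    simp only [G, Matrix.transpose_apply, Matrix.of_apply]
    field_simp
  simp only [h2, Finset.sum_sub_distrib, Matrix.zero_apply] at h1
  linear_combination -h1

theorem G_smul {m n : ℕ} (u p : Matrix (Fin m) (Fin n) ℂ) (s : ℂ) (hs : s ≠ 0)
    (hp : ∀ i j, p i j ≠ 0) (i : Fin m) (j : Fin n) :
    s * G u (s • p) i j = u i j / p i j - s := by
  have := hp i j
  simp only [G, Matrix.of_apply, Matrix.smul_apply, smul_eq_mul]
  field_simp

theorem rank_smul' {m n : ℕ} (p : Matrix (Fin m) (Fin n) ℂ) (s : ℂ) (hs : s ≠ 0) :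
    (s • p).rank = p.rank :=
  Matrix.rank_smul_of_mem_nonZeroDivisors p (mem_nonZeroDivisors_of_ne_zero hs)

theorem PCrit_of_IsCritical {m n : ℕ} {r : ℕ} {u p : Matrix (Fin m) (Fin n) ℂ}
    (hs : ∑ i, ∑ j, u i j ≠ 0) (h : IsCritical r u p) :
    PCrit r u ((∑ i, ∑ j, u i j) • p) := by
  obtain ⟨hr, hne, hsum, hcr⟩ := h
  set s := ∑ i, ∑ j, u i j with hsdef
  have hG := G_smul u p s hs hne
  refine ⟨by rw [rank_smul' p s hs, hr], ?_, ?_, ?_⟩
  · intro i j
    rw [Matrix.smul_apply, smul_eq_mul]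
    exact mul_ne_zero hs (hne i j)
  · ext b a
    have h1 := hcr (Matrix.single a b 1) 0
    rw [Matrix.mul_zero, add_zero] at h1
    have h2 : ∀ i j, (Matrix.single a b (1 : ℂ) * p) i j = if i = a then p b j else 0 := by
      intro i j
      rw [Matrix.mul_apply]
      by_cases hi : i = a
      · subst hi
        rw [Finset.sum_eq_single b]
        · simp
        · intro k _ hk
          simp [Matrix.single_apply, Ne.symm hk]
        · intro hb
          exact absurd (Finset.mem_univ _) hb
      · rw [if_neg hi]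
        refine Finset.sum_eq_zero fun k _ => ?_
        simp [Matrix.single_apply, Ne.symm hi]
    simp only [h2] at h1
    have h3 : ∑ i, ∑ j, u i j * (if i = a then p b j else 0) / p i j =
        ∑ j, u a j * p b j / p a j := by
      rw [Finset.sum_eq_single a]
      · simp
      · intro i _ hi
        simp [hi]
      · intro ha
        exact absurd (Finset.mem_univ _) ha
    have h4 : ∑ i, ∑ j, (if i = a then p b j else 0) = ∑ j, p b j := by
      rw [Finset.sum_eq_single a]
      · simp
      · intro i _ hi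
        simp [hi]
      · intro ha
        exact absurd (Finset.mem_univ _) ha
    rw [h3, h4] at h1
    rw [Matrix.mul_apply, Matrix.zero_apply]
    have h5 : ∀ j, (s • p) b j * (G u (s • p))ᵀ j a = u a j * p b j / p a j - s * p b j := by
      intro j
      have := hG a j
      rw [Matrix.transpose_apply, Matrix.smul_apply, smul_eq_mul]
      linear_combination p b j * this
    simp only [h5, Finset.sum_sub_distrib, ← Finset.mul_sum]
    rw [h1]
    ring
  · ext b a
    have h1 := hcr 0 (Matrix.single a b 1)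
    rw [Matrix.zero_mul, zero_add] at h1
    have h2 : ∀ i j, (p * Matrix.single a b (1 : ℂ)) i j = if j = b then p i a else 0 := by
      intro i j
      rw [Matrix.mul_apply]
      by_cases hi : j = b
      · subst hi
        rw [Finset.sum_eq_single a]
        · simp
        · intro k _ hk
          simp [Matrix.single_apply, Ne.symm hk]
        · intro hb
          exact absurd (Finset.mem_univ _) hb
      · rw [if_neg hi]
        refine Finset.sum_eq_zero fun k _ => ?_
        simp [Matrix.single_apply, Ne.symm hi]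
    simp only [h2] at h1
    have h3 : ∑ i, ∑ j, u i j * (if j = b then p i a else 0) / p i j =
        ∑ i, u i b * p i a / p i b := by
      refine Finset.sum_congr rfl fun i _ => ?_
      rw [Finset.sum_eq_single b]
      · simp
      · intro j _ hj
        simp [hj]
      · intro ha
        exact absurd (Finset.mem_univ _) ha
    have h4 : ∑ i, ∑ j, (if j = b then p i a else 0) = ∑ i, p i a := by
      refine Finset.sum_congr rfl fun i _ => ?_
      simp
    rw [h3, h4] at h1
    rw [Matrix.mul_apply, Matrix.zero_apply]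
    have h5 : ∀ i, (G u (s • p))ᵀ b i * (s • p) i a = u i b * p i a / p i b - s * p i a := by
      intro i
      have := hG i b
      rw [Matrix.transpose_apply, Matrix.smul_apply, smul_eq_mul]
      linear_combination p i a * this
    simp only [h5, Finset.sum_sub_distrib, ← Finset.mul_sum]
    rw [h1]
    ring

theorem IsCritical_of_PCrit {m n : ℕ} {r : ℕ} {u q : Matrix (Fin m) (Fin n) ℂ}
    (hs : ∑ i, ∑ j, u i j ≠ 0) (h : PCrit r u q) :
    IsCritical r u ((∑ i, ∑ j, u i j)⁻¹ • q) := by
  set s := ∑ i, ∑ j, u i j with hsdef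
  have hs' : s⁻¹ ≠ 0 := inv_ne_zero hs
  set p := s⁻¹ • q with hp
  have hqp : q = s • p := by rw [hp, smul_smul, mul_inv_cancel₀ hs, one_smul]
  have hne : ∀ i j, p i j ≠ 0 := by
    intro i j
    rw [hp, Matrix.smul_apply, smul_eq_mul]
    exact mul_ne_zero hs' (h.ne i j)
  have hG := G_smul u p s hs hne
  refine ⟨by rw [hp, rank_smul' q _ hs', h.rk], hne, ?_, ?_⟩
  · have h1 := sum_eq_of_PCrit h
    simp only [hp, Matrix.smul_apply, smul_eq_mul, ← Finset.mul_sum]
    rw [h1]
    exact inv_mul_cancel₀ hs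
  · intro Z Y
    have h1 : p * (G u q)ᵀ = 0 := by
      rw [hp, Matrix.smul_mul, h.right, smul_zero]
    have h2 : (G u q)ᵀ * p = 0 := by
      rw [hp, Matrix.mul_smul, h.left, smul_zero]
    have h3 : ((G u q)ᵀ * (Z * p + p * Y)).trace = 0 := by
      rw [Matrix.mul_add, Matrix.trace_add, ← Matrix.mul_assoc, ← Matrix.mul_assoc, h2,
        Matrix.zero_mul, Matrix.trace_zero, add_zero, Matrix.mul_assoc, Matrix.trace_mul_comm,
        Matrix.mul_assoc, h1, Matrix.mul_zero, Matrix.trace_zero]
    have h4 : ((G u q)ᵀ * (Z * p + p * Y)).trace =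
        ∑ i, ∑ j, G u q i j * (Z * p + p * Y) i j := by
      rw [Matrix.trace, Finset.sum_comm]
      refine Finset.sum_congr rfl fun j _ => ?_
      rw [Matrix.diag_apply, Matrix.mul_apply]
      rfl
    rw [h4] at h3
    have h5 : ∑ i, ∑ j, u i j * (Z * p + p * Y) i j / p i j -
        s * ∑ i, ∑ j, (Z * p + p * Y) i j =
        s * ∑ i, ∑ j, G u q i j * (Z * p + p * Y) i j := by
      simp only [Finset.mul_sum, ← Finset.sum_sub_distrib]
      refine Finset.sum_congr rfl fun i _ => Finset.sum_congr rfl fun j _ => ?_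
      have := hG i j
      rw [← hqp] at this
      linear_combination -(Z * p + p * Y) i j * this
    rw [h3, mul_zero] at h5
    exact sub_eq_zero.mp h5

/-- The number of critical points and the number of solutions of the Poisson form. -/
theorem crit_image {m n : ℕ} {r : ℕ} {u : Matrix (Fin m) (Fin n) ℂ}
    (hs : ∑ i, ∑ j, u i j ≠ 0) :
    (fun p => (∑ i, ∑ j, u i j) • p) '' {p | IsCritical r u p} = {q | PCrit r u q} := by
  ext q
  constructor
  · rintro ⟨p, hp, rfl⟩
    exact PCrit_of_IsCritical hs hp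
  · intro hq
    refine ⟨(∑ i, ∑ j, u i j)⁻¹ • q, IsCritical_of_PCrit hs hq, ?_⟩
    change (∑ i, ∑ j, u i j) • (∑ i, ∑ j, u i j)⁻¹ • q = q
    rw [smul_smul, mul_inv_cancel₀ hs, one_smul]

theorem smul_injective' {m n : ℕ} (s : ℂ) (hs : s ≠ 0) :
    Function.Injective (fun p : Matrix (Fin m) (Fin n) ℂ => s • p) := by
  intro p q h
  ext i j
  have := congrFun (congrFun h i) j
  simpa [hs] using this

/-- The polynomial that is the sum of all variables. -/
noncomputable def sumPoly (m n : ℕ) : MvPolynomial (Fin m × Fin n) ℂ :=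
  ∑ x : Fin m × Fin n, MvPolynomial.X x

theorem eval_sumPoly {m n : ℕ} (u : Fin m → Fin n → ℂ) :
    MvPolynomial.eval (fun x : Fin m × Fin n => u x.1 x.2) (sumPoly m n) =
      ∑ i, ∑ j, u i j := by
  simp [sumPoly, Fintype.sum_prod_type]

theorem sumPoly_ne {m n : ℕ} (hm : 1 ≤ m) (hn : 1 ≤ n) : sumPoly m n ≠ 0 := by
  intro h
  have h1 := eval_sumPoly (m := m) (n := n) (fun _ _ => 1)
  rw [h] at h1
  simp only [map_zero, Finset.sum_const, Finset.card_univ, Fintype.card_fin, smul_eq_mul,
    nsmul_eq_mul, mul_one] at h1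
  have h2 : ((m : ℂ) * (n : ℂ)) ≠ 0 :=
    mul_ne_zero (Nat.cast_ne_zero.mpr (by omega)) (Nat.cast_ne_zero.mpr (by omega))
  exact h2 h1.symm

/-- The ML degree gives a non-empty open set of data. -/
theorem LB_of_MLDegree {m n r N : ℕ} (hm : 1 ≤ m) (hn : 1 ≤ n) (h : IsMLDegree m n r N) :
    LB (Fin m) (Fin n) r N := by
  classical
  obtain ⟨g, hg, hN⟩ := h
  have hgs : g * sumPoly m n ≠ 0 := mul_ne_zero hg (sumPoly_ne hm hn)
  refine ⟨{u | MvPolynomial.eval (fun x : Fin m × Fin n => u x.1 x.2)
    (g * sumPoly m n) ≠ 0}, ?_, ?_, ?_⟩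
  · have hc : Continuous fun u : Fin m → Fin n → ℂ =>
        MvPolynomial.eval (fun x : Fin m × Fin n => u x.1 x.2) (g * sumPoly m n) :=
      (MvPolynomial.continuous_eval (g * sumPoly m n)).comp (by fun_prop)
    exact isOpen_ne_fun hc continuous_const
  · obtain ⟨x, _, hx⟩ := exists_eval_ne (g * sumPoly m n) hgs Set.univ isOpen_univ
      ⟨0, trivial⟩
    exact ⟨fun i j => x (i, j), hx⟩
  · intro u hu
    rw [Set.mem_ofPred_eq, map_mul, eval_sumPoly] at hu
    have hs : ∑ i, ∑ j, (Matrix.of u) i j ≠ 0 := right_ne_zero_of_mul hu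
    obtain ⟨hf, hc⟩ := hN (Matrix.of u) (left_ne_zero_of_mul hu)
    refine ⟨hf.toFinset.image (fun p => (∑ i, ∑ j, (Matrix.of u) i j) • p), ?_, ?_⟩
    · rw [Finset.card_image_of_injective _ (smul_injective' _ hs), ← hc,
        Set.ncard_eq_toFinset_card _ hf]
    · intro p hp
      obtain ⟨q, hq, rfl⟩ := Finset.mem_image.mp hp
      exact PCrit_of_IsCritical hs ((Set.Finite.mem_toFinset hf).mp hq)

/-- A lower bound on an open set bounds the ML degree. -/
theorem le_MLDegree {m n r K N : ℕ} (hm : 1 ≤ m) (hn : 1 ≤ n)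
    (h : LB (Fin m) (Fin n) r K) (hN : IsMLDegree m n r N) : K ≤ N := by
  classical
  obtain ⟨g, hg, hN⟩ := hN
  obtain ⟨U, hU, ⟨u₁, hu₁⟩, hS⟩ := h
  have hgs : g * sumPoly m n ≠ 0 := mul_ne_zero hg (sumPoly_ne hm hn)
  have hcont : Continuous (fun x : (Fin m × Fin n) → ℂ =>
      (fun i j => x (i, j) : Fin m → Fin n → ℂ)) := by fun_prop
  obtain ⟨x, hxU, hx⟩ := exists_eval_ne (g * sumPoly m n) hgs _ (hU.preimage hcont)
    ⟨fun a => u₁ a.1 a.2, hu₁⟩
  set u : Fin m → Fin n → ℂ := fun i j => x (i, j) with hu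
  have hux : (fun a : Fin m × Fin n => u a.1 a.2) = x := rfl
  rw [← hux, map_mul, eval_sumPoly] at hx
  have hs : ∑ i, ∑ j, (Matrix.of u) i j ≠ 0 := right_ne_zero_of_mul hx
  obtain ⟨hf, hc⟩ := hN (Matrix.of u) (left_ne_zero_of_mul hx)
  obtain ⟨S, hcard, hp⟩ := hS u hxU
  have h1 : ((S : Set (Matrix (Fin m) (Fin n) ℂ))) ⊆
      (fun p => (∑ i, ∑ j, (Matrix.of u) i j) • p) '' {p | IsCritical r (Matrix.of u) p} := by
    rw [crit_image hs]
    intro p hpS
    exact hp p hpS
  have h2 := Set.ncard_le_ncard h1 (hf.image _)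
  rw [Set.ncard_coe_finset, hcard, Set.ncard_image_of_injective _ (smul_injective' _ hs),
    hc] at h2
  exact h2

end Pool.ML
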