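import Pool.Agent.ML14.VeryGeneral

/-!
# Explicit lower bounds
-/

set_option linter.unusedSectionVars false
set_option linter.unusedSimpArgs false
set_option linter.unusedVariables false

namespace Pool.ML

theorem LB_cols {m n r K : ℕ} (hr : 1 ≤ r) (hm : r ≤ m) (hn : r ≤ n)
    (h : LB (Fin m) (Fin n) r K) (b : ℕ) :
    LB (Fin m) (Fin (n + b)) r (K * (m - 1).choose (r - 1) ^ b) := by
  induction b with
  | zero => simpa using h
  | succ b ih =>
    have h1 := LB_col hr hm (by omega) ih
    rw [mul_assoc, ← pow_succ] at h1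
    exact h1

theorem LB_square {m r : ℕ} (hr : 1 ≤ r) (hm : r ≤ m) :
    LB (Fin m) (Fin m) r
      (∏ k ∈ Finset.Ico r m, (k - 1).choose (r - 1) * k.choose (r - 1)) := by
  induction m, hm using Nat.le_induction with
  | base => simpa using LB_base hr (le_refl r)
  | succ k hk ih =>
    have h1 := LB_col hr hk hk ih
    have h2 := LB_row hr hk (by omega) h1
    rw [Finset.prod_Ico_succ_top hk, ← mul_assoc]
    exact h2

/-- The lower bound for `r ≤ m ≤ n`. -/
theorem LB_lower {m n r : ℕ} (hr : 1 ≤ r) (hm : r ≤ m) (hn : m ≤ n) :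
    LB (Fin m) (Fin n) r
      ((∏ k ∈ Finset.Ico r m, (k - 1).choose (r - 1) * k.choose (r - 1)) *
        (m - 1).choose (r - 1) ^ (n - m)) := by
  have h1 := LB_cols hr hm hm (LB_square hr hm) (n - m)
  rwa [Nat.add_sub_cancel' hn] at h1

/-- The simple lower bound. -/
theorem LB_simple {m n r : ℕ} (hr : 1 ≤ r) (hm : r ≤ m) (hn : r ≤ n) :
    LB (Fin m) (Fin n) r ((m - 1).choose (r - 1) ^ (n - r)) := by
  have h1 := LB_cols hr hm (le_refl r) (LB_base hr hm) (n - r)
  rwa [Nat.add_sub_cancel' hn, one_mul] at h1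

end Pool.ML
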