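import Pool.Agent.ML14.Family

/-!
# The counting inequality
-/

set_option linter.unusedSectionVars false
set_option linter.unusedSimpArgs false

namespace Pool.ML

open Matrix

section General

variable {ρ σ κ : Type} [Fintype ρ] [Fintype σ] [Fintype κ]
  [DecidableEq ρ] [DecidableEq σ] [DecidableEq κ]

theorem sX_ne_of_alg (X : Matrix (ρ ⊕ σ) (ρ ⊕ κ) ℂ) (hX : Alg X) (k : ρ) : sX X k ≠ 0 := by
  have h0 : ∑ i, Lm (posPoint ρ σ κ) i k ≠ 0 := by
    rw [Fintype.sum_sum_type]
    simp only [Lm, Matrix.fromRows_apply_inl, Matrix.fromRows_apply_inr, Matrix.one_apply,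
      posPoint, Matrix.toBlocks_fromBlocks₂₁, Matrix.of_apply, Finset.sum_ite_eq',
      Finset.mem_univ, if_true, Finset.sum_const, Finset.card_univ, nsmul_eq_mul, mul_one]
    positivity
  have h1 := ne_of_alg X hX (∑ i, Lm (gen ρ σ κ) i k) (posPoint ρ σ κ) (by
    rw [map_sum]
    intro h
    apply h0
    rw [← h]
    refine Finset.sum_congr rfl fun i _ => ?_
    conv_lhs => rw [← gen_map_eval (posPoint ρ σ κ), Lm_map]
    rfl)
  intro h
  apply h1
  rw [map_sum, ← h, sX]
  refine Finset.sum_congr rfl fun i _ => ?_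
  conv_rhs => rw [← gen_map_aeval X, Lm_map]
  rfl

end General

variable {ρ' σ κ : Type} [Fintype ρ'] [Fintype σ] [Fintype κ]
  [DecidableEq ρ'] [DecidableEq σ] [DecidableEq κ]

theorem xm_none (X : Matrix (Option ρ' ⊕ σ) (Option ρ' ⊕ κ) ℂ) (j : Option ρ' ⊕ κ) :
    sX X none * xm X none j = ∑ i, psi X i j - ∑ k, sX X (some k) * xm X (some k) j := by
  rw [colsum_psi, Fintype.sum_option]
  ring

theorem xi_inj (u p q : Matrix (Option ρ' ⊕ σ) (Option ρ' ⊕ κ) ℂ) (hu : Alg u)
    (hp : PCrit (Fintype.card (Option ρ')) u p) (hq : PCrit (Fintype.card (Option ρ')) u q)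
    (h : xi (chart u p) = xi (chart u q)) : p = q := by
  have hWp := std_minor_ne u p hu hp
  have hWq := std_minor_ne u q hu hq
  have hXp := chart_alg u p hu hp hWp
  have hXq := chart_alg u q hu hq hWq
  have e1 := psi_chart u p hp hWp
  have e2 := psi_chart u q hq hWq
  have f1 := pmat_chart u p hp.rk hWp
  have f2 := pmat_chart u q hq.rk hWq
  set X := chart u p with hX
  set Y := chart u q with hY
  have hC : X.toBlocks₂₁ = Y.toBlocks₂₁ := by
    ext t k
    exact congrFun h (Sum.inl (t, k))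
  have hL : Lm X = Lm Y := by rw [Lm, Lm, hC]
  have hs : ∀ k, sX X k = sX Y k := by
    intro k
    rw [sX, sX, hL]
  have hx : ∀ k j, xm X (some k) j = xm Y (some k) j := by
    intro k j
    rcases j with j | j
    · rw [xm_inl, xm_inl]
      exact congrFun h (Sum.inr (Sum.inl (j, k)))
    · rw [xm_inr, xm_inr]
      exact congrFun h (Sum.inr (Sum.inr (Sum.inl (j, k))))
  have hx0 : ∀ j, xm X none j = xm Y none j := by
    intro j
    have h1 := xm_none X j
    have h2 := xm_none Y j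
    rw [e1] at h1
    rw [e2] at h2
    have h3 : ∑ k, sX X (some k) * xm X (some k) j = ∑ k, sX Y (some k) * xm Y (some k) j :=
      Finset.sum_congr rfl fun k _ => by rw [hs, hx]
    rw [h3, ← h2, hs none] at h1
    exact mul_left_cancel₀ (sX_ne_of_alg Y hXq none) h1
  rw [← f1, ← f2]
  ext i j
  rw [pmat_eq_sum, pmat_eq_sum, hL]
  refine Finset.sum_congr rfl fun k _ => ?_
  rcases k with _ | k
  · rw [hx0]
  · rw [hx]

/-- The exponent vector of a monomial in the data. -/
noncomputable def monB (b : (Option ρ' ⊕ κ) → (ρ' ⊕ σ) → ℕ) :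
    ((ρ' ⊕ σ) × (Option ρ' ⊕ κ)) →₀ ℕ :=
  Finsupp.equivFunOnFinite.symm fun a => b a.2 a.1

theorem monB_inj : Function.Injective (monB : ((Option ρ' ⊕ κ) → (ρ' ⊕ σ) → ℕ) →
    ((ρ' ⊕ σ) × (Option ρ' ⊕ κ)) →₀ ℕ) := by
  intro b b' h
  funext j i
  have := DFunLike.congr_fun h (i, j)
  simpa [monB] using this

theorem aeval_monB {A : Type} [CommRing A] [Algebra A ℂ]
    (u : Matrix (Option ρ' ⊕ σ) (Option ρ' ⊕ κ) ℂ)
    (b : (Option ρ' ⊕ κ) → (ρ' ⊕ σ) → ℕ) (c : A) :
    MvPolynomial.aeval (ur u) (MvPolynomial.monomial (monB b) c) =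
      algebraMap A ℂ c * ∏ j, ∏ i, u (rows i) j ^ b j i := by
  rw [MvPolynomial.aeval_monomial, Finsupp.prod_fintype _ _ (by simp),
    Fintype.prod_prod_type, Finset.prod_comm]
  simp [monB, ur]

theorem scX_ne (X : Matrix (Option ρ' ⊕ σ) (Option ρ' ⊕ κ) ℂ) (hX : Alg X)
    (j : Option ρ' ⊕ κ) : scX X j ≠ 0 := by
  rcases j with j | j
  · exact mul_ne_zero (sX_ne_of_alg X hX none)
      (mul_ne_zero (sX_ne_of_alg X hX none) (W_ne_of_alg X hX))
  · exact sX_ne_of_alg X hX none

/-- The counting inequality. -/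
theorem main_count (u : Matrix (Option ρ' ⊕ σ) (Option ρ' ⊕ κ) ℂ) (hu : Alg u) (N : ℕ)
    (p : Fin N → Matrix (Option ρ' ⊕ σ) (Option ρ' ⊕ κ) ℂ) (hp : Function.Injective p)
    (hcrit : ∀ l, PCrit (Fintype.card (Option ρ')) u (p l)) (t₁ t : ℕ) :
    (BB ρ' σ κ t₁ t).card * N ≤ (box ρ' σ κ
      (N + (Fintype.card (Option ρ') * (t₁ * (Fintype.card (Option ρ') + 3)) +
        Fintype.card κ * (3 * t)))
      (N + Fintype.card (Option ρ') * (t₁ * (Fintype.card (Option ρ') + 1)))
      (N + (Fintype.card (Option ρ') * t₁ + t))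
      (N + (Fintype.card (Option ρ') * t₁ + t))).card := by
  classical
  set A := Algebra.adjoin ℚ (Set.range (vs u)) with hA
  let v : Option ρ' ⊕ κ → A := fun j => ⟨vs u j, Algebra.subset_adjoin ⟨j, rfl⟩⟩
  set X : Fin N → Matrix (Option ρ' ⊕ σ) (Option ρ' ⊕ κ) ℂ := fun l => chart u (p l) with hX
  have hW : ∀ l, (p l).toBlocks₁₁.det ≠ 0 := fun l => std_minor_ne u (p l) hu (hcrit l)
  have hXalg : ∀ l, Alg (X l) := fun l => chart_alg u (p l) hu (hcrit l) (hW l)
  have hpsi : ∀ l, psi (X l) = u := fun l => psi_chart u (p l) (hcrit l) (hW l)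
  have hv : ∀ l j, algebraMap A ℂ (v j) = ∑ i, psi (X l) i j := by
    intro l j
    rw [hpsi]
    rfl
  obtain ⟨a, ha⟩ := exists_sep (fun l => xi (X l)) (by
    intro l l' h
    exact hp (xi_inj u _ _ hu (hcrit l) (hcrit l') h))
  set θ : MvPolynomial (Vr ρ' σ κ) A :=
    ∑ i, MvPolynomial.C (a i : A) * MvPolynomial.X i with hθ
  have hθB : Bd grp (dg 1 1 1 1) θ := by
    rw [hθ]
    refine Bd.sum _ fun i _ => ?_
    have h1 := (Bd.const (grp := grp (ρ' := ρ') (σ := σ) (κ := κ)) (0 : Gr κ → ℕ)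
      ((a i : ℕ) : A)).mul (Bd.var (A := A) (grp := grp) i (dg 1 1 1 1) (by
        rcases i with i | i | i | i <;> simp [grp, dg]))
    rwa [zero_add] at h1
  have hθe : ∀ l, ev A (X l) θ = ∑ i, (a i : ℂ) * xi (X l) i := by
    intro l
    rw [hθ, map_sum]
    refine Finset.sum_congr rfl fun i _ => ?_
    rw [map_mul, MvPolynomial.aeval_C, MvPolynomial.aeval_X, map_natCast]
  let F : (BB ρ' σ κ t₁ t) × Fin N → MvPolynomial (Vr ρ' σ κ) A :=
    fun x => FF v θ t₁ t x.1 x.2
  have hlin : LinearIndependent A F := by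
    rw [Fintype.linearIndependent_iff]
    intro g hg
    set c : Fin N → ℂ := fun e => ∑ b : BB ρ' σ κ t₁ t,
      algebraMap A ℂ (g (b, e)) * ∏ j, ∏ i, u (rows i) j ^ (b : _ → _ → ℕ) j i with hc
    have hvan : (Matrix.vandermonde fun l => ev A (X l) θ) *ᵥ c = 0 := by
      funext l
      have h1 := congrArg (ev A (X l)) hg
      rw [map_sum, map_zero, Fintype.sum_prod_type, Finset.sum_comm] at h1
      have h2 : ∀ (b : BB ρ' σ κ t₁ t) (e : Fin N), ev A (X l) (g (b, e) • F (b, e)) =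
          (∏ j, scX (X l) j ^ tt t₁ t j) * ((ev A (X l) θ) ^ (e : ℕ) *
            (algebraMap A ℂ (g (b, e)) * ∏ j, ∏ i, u (rows i) j ^ (b : _ → _ → ℕ) j i)) := by
        intro b e
        rw [map_smul, Algebra.smul_def, ev_FF (X l) v (hv l) θ t₁ t b.1 b.2 e, hpsi]
        ring
      simp only [h2, ← Finset.mul_sum] at h1
      have h3 := (mul_eq_zero.mp h1).resolve_left
        (Finset.prod_ne_zero_iff.mpr fun j _ => pow_ne_zero _ (scX_ne (X l) (hXalg l) j))
      rw [Pi.zero_apply, ← h3]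
      simp only [Matrix.mulVec, dotProduct, Matrix.vandermonde_apply, hc]
    have hvdet : (Matrix.vandermonde fun l => ev A (X l) θ).det ≠ 0 := by
      rw [Matrix.det_vandermonde_ne_zero_iff]
      intro l l' h
      apply ha
      simp only [hθe] at h
      exact h
    have hc0 := Matrix.eq_zero_of_mulVec_eq_zero hvdet hvan
    rintro ⟨b, e⟩
    have h4 := congrFun hc0 e
    have h5 : MvPolynomial.aeval (ur u) (∑ b : BB ρ' σ κ t₁ t,
        MvPolynomial.monomial (monB (b : _ → _ → ℕ)) (g (b, e))) = (0 : ℂ) := by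
      rw [map_sum]
      simp only [aeval_monB]
      exact h4
    have h6 := (algebraicIndependent_iff.mp (algInd_rel u hu)) _ h5
    have h7 := congrArg (MvPolynomial.coeff (monB (b : _ → _ → ℕ))) h6
    rw [MvPolynomial.coeff_sum, MvPolynomial.coeff_zero] at h7
    simp only [MvPolynomial.coeff_monomial] at h7
    rw [Finset.sum_eq_single b] at h7
    · simpa using h7
    · intro b' _ hb'
      rw [if_neg]
      intro h8
      exact hb' (Subtype.ext (monB_inj h8))
    · intro h8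
      exact absurd (Finset.mem_univ b) h8
  have hcard := card_le_box (A := A) (β := (BB ρ' σ κ t₁ t) × Fin N) _ _ _ _ F hlin
    (fun x => Bd_FF v θ t₁ t N hθB x.1 x.1.2 x.2 (by omega))
  rw [Fintype.card_prod, Fintype.card_coe, Fintype.card_fin] at hcard
  exact hcard

end Pool.ML
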