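import Pool.Agent.ML14.Point

/-!
# Minors of the rows `(1, C)` together with their sum
-/

set_option linter.unusedSectionVars false
set_option linter.unusedSimpArgs false

namespace Pool.ML

open Matrix

variable {ρ σ κ : Type*} [Fintype ρ] [Fintype σ] [Fintype κ]
  [DecidableEq ρ] [DecidableEq σ] [DecidableEq κ]
variable {R S : Type*} [CommRing R] [CommRing S]

/-- The rows of `(1, C)`, and their sum. -/
def arow (X : Matrix (ρ ⊕ σ) (ρ ⊕ κ) R) : Option (ρ ⊕ σ) → ρ → R
  | none => fun k => ∑ i, Lm X i k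
  | some i => Lm X i

/-- The determinant of a choice of rows. -/
def Dm (X : Matrix (ρ ⊕ σ) (ρ ⊕ κ) R) (f : ρ → Option (ρ ⊕ σ)) : R :=
  (Matrix.of fun k => arow X (f k)).det

theorem arow_map (X : Matrix (ρ ⊕ σ) (ρ ⊕ κ) R) (φ : R →+* S) (o : Option (ρ ⊕ σ)) (k : ρ) :
    arow (X.map φ) o k = φ (arow X o k) := by
  rcases o with _ | i
  · simp [arow, Lm_map]
  · simp [arow, Lm_map]

theorem Dm_map (X : Matrix (ρ ⊕ σ) (ρ ⊕ κ) R) (φ : R →+* S) (f : ρ → Option (ρ ⊕ σ)) :
    Dm (X.map φ) f = φ (Dm X f) := by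
  rw [Dm, Dm, RingHom.map_det]
  congr 1
  ext k l
  simp [arow_map]

theorem exists_Dm_ne (f : ρ → Option (ρ ⊕ σ)) (hf : Function.Injective f) :
    ∃ X : Matrix (ρ ⊕ σ) (ρ ⊕ κ) ℚ, Dm X f ≠ 0 := by
  classical
  set s : Finset ρ := Finset.univ.filter fun k => ∃ i, f k = some (Sum.inl i) with hs
  set g : ρ → ρ := fun k => if h : ∃ i, f k = some (Sum.inl i) then h.choose else k with hg
  have hgk : ∀ k i, f k = some (Sum.inl i) → g k = i := by
    intro k i hk
    have h : ∃ i, f k = some (Sum.inl i) := ⟨i, hk⟩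
    have h1 : g k = h.choose := by simp only [hg]; rw [dif_pos h]
    rw [h1]
    have h2 := hk.symm.trans h.choose_spec
    have h3 := Sum.inl.inj (Option.some.inj h2)
    exact h3.symm
  have hgs : Set.InjOn g s := by
    intro a ha b hb hab
    have ha' := (Finset.mem_filter.mp (Finset.mem_coe.mp ha)).2
    have hb' := (Finset.mem_filter.mp (Finset.mem_coe.mp hb)).2
    obtain ⟨i, hi⟩ := ha'
    obtain ⟨j, hj⟩ := hb'
    rw [hgk a i hi, hgk b j hj] at hab
    apply hf
    rw [hi, hj, hab]
  obtain ⟨h, hh⟩ := Finset.exists_equiv_extend_of_card_eq (t := Finset.univ) (s := s) (f := g)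
    (by simp) (Finset.subset_univ _) hgs
  set e : ρ → ρ := fun k => (h k : ρ) with he
  have hinj : Function.Injective e := fun a b hab => h.injective (Subtype.ext hab)
  have hsurj : Function.Surjective e := by
    intro j
    obtain ⟨k, hk⟩ := h.surjective ⟨j, Finset.mem_univ j⟩
    exact ⟨k, by simp [he, hk]⟩
  have hek : ∀ k i, f k = some (Sum.inl i) → e k = i := by
    intro k i hk
    have h1 := hh k (by rw [hs]; exact Finset.mem_filter.mpr ⟨Finset.mem_univ _, i, hk⟩)
    rw [he]
    simp only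
    rw [h1, hgk k i hk]
  set C : Matrix σ ρ ℚ := Matrix.of fun t j =>
    if ∃ k, f k = some (Sum.inr t) ∧ e k = j then (1 : ℚ) else 0 with hC
  refine ⟨Matrix.fromBlocks 0 0 C 0, ?_⟩
  set X : Matrix (ρ ⊕ σ) (ρ ⊕ κ) ℚ := Matrix.fromBlocks 0 0 C 0 with hX
  have hLr : ∀ t j, Lm X (Sum.inr t) j = C t j := by
    intro t j; simp [Lm, hX]
  have hLl : ∀ i j, Lm X (Sum.inl i) j = if i = j then 1 else 0 := by
    intro i j; simp [Lm, Matrix.one_apply]
  intro hdet
  obtain ⟨x, hx, h1⟩ := Matrix.exists_mulVec_eq_zero_iff.mpr hdet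
  apply hx
  have hrow : ∀ k, ∑ j, arow X (f k) j * x j = 0 := fun k => congrFun h1 k
  have hx1 : ∀ k, f k ≠ none → x (e k) = 0 := by
    intro k hk
    obtain ⟨i, hi⟩ := Option.ne_none_iff_exists'.mp hk
    rcases i with i | t
    · have h2 := hrow k
      rw [hi] at h2
      simp only [arow, hLl] at h2
      rw [hek k i hi]
      simpa using h2
    · have h2 := hrow k
      rw [hi] at h2
      simp only [arow, hLr] at h2
      rw [Finset.sum_eq_single (e k)] at h2
      · have h3 : C t (e k) = 1 := by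
          rw [hC, Matrix.of_apply, if_pos ⟨k, hi, rfl⟩]
        rwa [h3, one_mul] at h2
      · intro j _ hj
        have h3 : C t j = 0 := by
          rw [hC, Matrix.of_apply, if_neg]
          rintro ⟨k', hk', hk''⟩
          have : k' = k := hf (by rw [hk', hi])
          rw [this] at hk''
          exact hj hk''.symm
        rw [h3, zero_mul]
      · intro h3
        exact absurd (Finset.mem_univ _) h3
  have hx2 : ∀ k, f k = none → x (e k) = 0 := by
    intro k hk
    have h2 := hrow k
    rw [hk] at h2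
    have h3 : ∑ j, arow X none j * x j = ∑ i, ∑ j, Lm X i j * x j := by
      simp only [arow, Finset.sum_mul]
      rw [Finset.sum_comm]
    rw [h3, Fintype.sum_sum_type] at h2
    have h4 : ∑ t, ∑ j, Lm X (Sum.inr t) j * x j = 0 := by
      refine Finset.sum_eq_zero fun t _ => Finset.sum_eq_zero fun j _ => ?_
      rw [hLr, hC, Matrix.of_apply]
      split_ifs with h5
      · obtain ⟨k', hk', hk''⟩ := h5
        rw [← hk'', hx1 k' (by rw [hk']; simp), mul_zero]
      · rw [zero_mul]
    rw [h4, add_zero] at h2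
    have h6 : ∑ i, ∑ j, Lm X (Sum.inl i) j * x j = ∑ i, x i := by
      refine Finset.sum_congr rfl fun i _ => ?_
      simp [hLl]
    rw [h6, Finset.sum_eq_single (e k)] at h2
    · exact h2
    · intro j _ hj
      obtain ⟨k', hk'⟩ := hsurj j
      rw [← hk']
      apply hx1
      intro h7
      have : k' = k := hf (by rw [h7, hk])
      rw [this] at hk'
      exact hj hk'.symm
    · intro h7
      exact absurd (Finset.mem_univ _) h7
  funext j
  obtain ⟨k, hk⟩ := hsurj j
  rw [← hk]
  by_cases h8 : f k = none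
  · exact hx2 k h8
  · exact hx1 k h8

end Pool.ML
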