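import Pool.Agent.ML14.Deriv

/-!
# The Jacobian determinant is a non-zero polynomial
-/

set_option linter.unusedSectionVars false
set_option linter.unusedSimpArgs false

namespace Pool.ML

open Matrix

variable {ρ σ κ : Type*} [Fintype ρ] [Fintype σ] [Fintype κ]
  [DecidableEq ρ] [DecidableEq σ] [DecidableEq κ]

theorem dpmat_eq_fromBlocks {R : Type*} [CommRing R] (X Y : Matrix (ρ ⊕ σ) (ρ ⊕ κ) R) :
    dpmat X Y = Matrix.fromBlocks Y.toBlocks₁₁
      (Y.toBlocks₁₁ * X.toBlocks₁₂ + X.toBlocks₁₁ * Y.toBlocks₁₂)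
      (Y.toBlocks₂₁ * X.toBlocks₁₁ + X.toBlocks₂₁ * Y.toBlocks₁₁)
      (Y.toBlocks₂₁ * X.toBlocks₁₁ * X.toBlocks₁₂ + X.toBlocks₂₁ * Y.toBlocks₁₁ * X.toBlocks₁₂
        + X.toBlocks₂₁ * X.toBlocks₁₁ * Y.toBlocks₁₂) := by
  rw [dpmat, Ld, Ud, Lm, Um, Matrix.fromRows_mul _ _ X.toBlocks₁₁,
    Matrix.fromRows_mul _ _ Y.toBlocks₁₁, Matrix.fromRows_mul _ _ X.toBlocks₁₁,
    Matrix.fromRows_mul_fromCols, Matrix.fromRows_mul_fromCols, Matrix.fromRows_mul_fromCols]
  simp only [Matrix.fromBlocks_add, Matrix.zero_mul, Matrix.mul_zero, Matrix.mul_one,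
    Matrix.one_mul, zero_add, add_zero]

theorem injective_of_pos (X : Matrix (ρ ⊕ σ) (ρ ⊕ κ) ℚ) (h4 : X.toBlocks₂₂ = 0)
    (hW : X.toBlocks₁₁.det ≠ 0) (hpos : ∀ i j, 0 < pmat X i j)
    (Y : Matrix (ρ ⊕ σ) (ρ ⊕ κ) ℚ) (h : dpsi X Y = 0) : Y = 0 := by
  have hU : IsUnit X.toBlocks₁₁.det := isUnit_iff_ne_zero.mpr hW
  have hg : gmat X = 0 := by simp [gmat, h4]
  set H : Matrix (ρ ⊕ σ) (ρ ⊕ κ) ℚ := Nm X * Y.toBlocks₂₂ * Vm X with hH
  have hdg : dgmat X Y = H := by simp [dgmat, h4, hH]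
  have hent : ∀ i j, dpmat X Y i j = -(pmat X i j * H i j) := by
    intro i j
    have h1 := congrFun (congrFun h i) j
    simp only [dpsi, Matrix.of_apply, hg, hdg, Matrix.zero_apply, add_zero, mul_one] at h1
    linarith
  have hNL : (Nm X)ᵀ * Lm X = 0 := by
    rw [← Matrix.transpose_transpose (Lm X), ← Matrix.transpose_mul, Lm_transpose_mul_Nm,
      Matrix.transpose_zero]
  have htr : (Hᵀ * dpmat X Y).trace = 0 := by
    have hHL : Hᵀ * Lm X = 0 := by
      rw [hH, Matrix.transpose_mul, Matrix.transpose_mul, Matrix.mul_assoc, Matrix.mul_assoc,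
        hNL]
      simp
    have hUH : Um X * Hᵀ = 0 := by
      rw [hH, Matrix.transpose_mul, ← Matrix.mul_assoc, Um_mul_Vm_transpose]
      simp
    rw [dpmat, Matrix.mul_add, Matrix.mul_add, Matrix.trace_add, Matrix.trace_add]
    have e1 : (Hᵀ * (Ld Y * X.toBlocks₁₁ * Um X)).trace = 0 := by
      rw [← Matrix.mul_assoc, Matrix.trace_mul_comm, ← Matrix.mul_assoc, hUH]
      simp
    have e2 : Hᵀ * (Lm X * Y.toBlocks₁₁ * Um X) = 0 := by
      rw [Matrix.mul_assoc (Lm X), ← Matrix.mul_assoc, hHL]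
      simp
    have e3 : Hᵀ * (Lm X * X.toBlocks₁₁ * Ud Y) = 0 := by
      rw [Matrix.mul_assoc (Lm X), ← Matrix.mul_assoc, hHL]
      simp
    rw [e1, e2, e3]
    simp
  have hsum : ∑ j, ∑ i, pmat X i j * H i j ^ 2 = 0 := by
    have h1 : (Hᵀ * dpmat X Y).trace = -∑ j, ∑ i, pmat X i j * H i j ^ 2 := by
      rw [Matrix.trace, ← Finset.sum_neg_distrib]
      refine Finset.sum_congr rfl fun j _ => ?_
      rw [Matrix.diag_apply, Matrix.mul_apply, ← Finset.sum_neg_distrib]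
      refine Finset.sum_congr rfl fun i _ => ?_
      rw [Matrix.transpose_apply, hent]
      ring
    linarith
  have hH0 : H = 0 := by
    have hnn : ∀ j ∈ (Finset.univ : Finset (ρ ⊕ κ)), 0 ≤ ∑ i, pmat X i j * H i j ^ 2 :=
      fun j _ => Finset.sum_nonneg fun i _ => mul_nonneg (hpos i j).le (sq_nonneg _)
    ext i j
    have h1 := (Finset.sum_eq_zero_iff_of_nonneg hnn).mp hsum j (Finset.mem_univ j)
    have h2 := (Finset.sum_eq_zero_iff_of_nonneg
      (fun i _ => mul_nonneg (hpos i j).le (sq_nonneg _))).mp h1 i (Finset.mem_univ i)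
    rcases mul_eq_zero.mp h2 with h3 | h3
    · exact absurd h3 (hpos i j).ne'
    · simpa using h3
  have hY4 : Y.toBlocks₂₂ = 0 := by
    have h1 : H = Matrix.fromBlocks (X.toBlocks₂₁ᵀ * Y.toBlocks₂₂ * X.toBlocks₁₂ᵀ)
      (-(X.toBlocks₂₁ᵀ * Y.toBlocks₂₂)) (-(Y.toBlocks₂₂ * X.toBlocks₁₂ᵀ)) Y.toBlocks₂₂ := by
      simp [hH, Nm, Vm, Matrix.fromRows_mul, Matrix.fromRows_mul_fromCols]
    have h2 := congrArg Matrix.toBlocks₂₂ h1
    rw [Matrix.toBlocks_fromBlocks₂₂, hH0] at h2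
    rw [← h2]; rfl
  have hd : dpmat X Y = 0 := by
    ext i j
    rw [hent, hH0]
    simp
  rw [dpmat_eq_fromBlocks] at hd
  have k1 : Y.toBlocks₁₁ = 0 := by
    have := congrArg Matrix.toBlocks₁₁ hd
    rw [Matrix.toBlocks_fromBlocks₁₁] at this
    rw [this]; rfl
  have k2 : X.toBlocks₁₁ * Y.toBlocks₁₂ = 0 := by
    have := congrArg Matrix.toBlocks₁₂ hd
    rw [Matrix.toBlocks_fromBlocks₁₂, k1, Matrix.zero_mul, zero_add] at this
    rw [this]; rfl
  have k3 : Y.toBlocks₂₁ * X.toBlocks₁₁ = 0 := by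
    have := congrArg Matrix.toBlocks₂₁ hd
    rw [Matrix.toBlocks_fromBlocks₂₁, k1, Matrix.mul_zero, add_zero] at this
    rw [this]; rfl
  have k2' : Y.toBlocks₁₂ = 0 := by
    have := congrArg (fun M => X.toBlocks₁₁⁻¹ * M) k2
    simpa [← Matrix.mul_assoc, Matrix.nonsing_inv_mul _ hU] using this
  have k3' : Y.toBlocks₂₁ = 0 := by
    have := congrArg (fun M => M * X.toBlocks₁₁⁻¹) k3
    simpa [Matrix.mul_assoc, Matrix.mul_nonsing_inv _ hU] using this
  rw [← Matrix.fromBlocks_toBlocks Y, k1, k2', k3', hY4]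
  simp

/-- A positive point. -/
def posPoint (ρ σ κ : Type*) [DecidableEq ρ] : Matrix (ρ ⊕ σ) (ρ ⊕ κ) ℚ :=
  Matrix.fromBlocks (Matrix.of fun i j => if i = j then 2 else 1) (Matrix.of fun _ _ => 1)
    (Matrix.of fun _ _ => 1) 0

theorem posPoint_det : (posPoint ρ σ κ).toBlocks₁₁.det ≠ 0 := by
  intro h
  obtain ⟨x, hx, h1⟩ := Matrix.exists_mulVec_eq_zero_iff.mpr h
  apply hx
  have h2 : ∀ k, x k + ∑ l, x l = 0 := by
    intro k
    have h3 := congrFun h1 k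
    simp only [posPoint, Matrix.toBlocks_fromBlocks₁₁, Matrix.mulVec, dotProduct,
      Matrix.of_apply, Pi.zero_apply] at h3
    have h4 : ∀ l, (if k = l then (2 : ℚ) else 1) * x l = (if k = l then x l else 0) + x l := by
      intro l
      split_ifs <;> ring
    rw [Finset.sum_congr rfl fun l _ => h4 l, Finset.sum_add_distrib] at h3
    simpa using h3
  have h5 : (∑ l, x l) * (1 + Fintype.card ρ) = 0 := by
    have h6 : ∑ k : ρ, (x k + ∑ l, x l) = 0 := Finset.sum_eq_zero fun k _ => h2 k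
    rw [Finset.sum_add_distrib, Finset.sum_const, Finset.card_univ, nsmul_eq_mul] at h6
    linarith
  have h7 : ∑ l, x l = 0 := by
    rcases mul_eq_zero.mp h5 with h8 | h8
    · exact h8
    · have : (0 : ℚ) ≤ Fintype.card ρ := Nat.cast_nonneg _
      linarith
  funext k
  have := h2 k
  rw [h7] at this
  simpa using this

theorem posPoint_pos [Nonempty ρ] (i : ρ ⊕ σ) (j : ρ ⊕ κ) : 0 < pmat (posPoint ρ σ κ) i j := by
  have hL : ∀ i k, 0 ≤ Lm (posPoint ρ σ κ) i k := by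
    intro i k
    rcases i with i | i
    · simp only [Lm, Matrix.fromRows_apply_inl, Matrix.one_apply]
      split_ifs <;> norm_num
    · simp [Lm, posPoint]
  have hU : ∀ k j, 0 ≤ Um (posPoint ρ σ κ) k j := by
    intro k j
    rcases j with j | j
    · simp only [Um, Matrix.fromCols_apply_inl, Matrix.one_apply]
      split_ifs <;> norm_num
    · simp [Um, posPoint]
  have hW : ∀ k l, 0 < (posPoint ρ σ κ).toBlocks₁₁ k l := by
    intro k l
    simp only [posPoint, Matrix.toBlocks_fromBlocks₁₁, Matrix.of_apply]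
    split_ifs <;> norm_num
  have hL' : ∃ k, 0 < Lm (posPoint ρ σ κ) i k := by
    rcases i with i | i
    · exact ⟨i, by simp [Lm]⟩
    · exact ⟨Classical.arbitrary ρ, by simp [Lm, posPoint]⟩
  have hU' : ∃ l, 0 < Um (posPoint ρ σ κ) l j := by
    rcases j with j | j
    · exact ⟨j, by simp [Um]⟩
    · exact ⟨Classical.arbitrary ρ, by simp [Um, posPoint]⟩
  obtain ⟨k, hk⟩ := hL'
  obtain ⟨l, hl⟩ := hU'
  rw [pmat, Matrix.mul_apply]
  have h1 : ∀ l, 0 < (Lm (posPoint ρ σ κ) * (posPoint ρ σ κ).toBlocks₁₁) i l := by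
    intro l
    rw [Matrix.mul_apply]
    exact Finset.sum_pos' (fun k _ => mul_nonneg (hL i k) (hW k l).le)
      ⟨k, Finset.mem_univ k, mul_pos hk (hW k l)⟩
  exact Finset.sum_pos' (fun l _ => mul_nonneg (h1 l).le (hU l j))
      ⟨l, Finset.mem_univ l, mul_pos (h1 l) hl⟩

theorem Jac_posPoint [Nonempty ρ] : (Jac (posPoint ρ σ κ)).det ≠ 0 := by
  intro h
  obtain ⟨y, hy, h1⟩ := Matrix.exists_mulVec_eq_zero_iff.mpr h
  apply hy
  set Y : Matrix (ρ ⊕ σ) (ρ ⊕ κ) ℚ := Matrix.of fun i j => y (i, j) with hY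
  have h2 : (fun b : (ρ ⊕ σ) × (ρ ⊕ κ) => Y b.1 b.2) = y := rfl
  rw [← h2, Jac_mulVec] at h1
  have h3 : dpsi (posPoint ρ σ κ) Y = 0 := by
    ext i j
    exact congrFun h1 (i, j)
  have h4 := injective_of_pos (posPoint ρ σ κ) (by simp [posPoint]) posPoint_det posPoint_pos
    Y h3
  rw [← h2, h4]
  rfl

end Pool.ML
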