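import Pool.Agent.ML14.Deg
import Pool.Agent.ML14.Generic

/-!
# Polynomials that give the data, up to powers of two denominators
-/

set_option linter.unusedSectionVars false
set_option linter.unusedSimpArgs false

namespace Pool.ML

open Matrix

/-- Variables: `C`, the lower rows of `W`, the lower rows of `W B`, and `Γ`. -/
abbrev Vr (ρ' σ κ : Type) := (σ × Option ρ') ⊕ ((Option ρ' × ρ') ⊕ ((κ × ρ') ⊕ (κ × σ)))

/-- Groups of variables. -/
inductive Gr (κ : Type)
  | c : Gr κ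
  | w : Gr κ
  | y : κ → Gr κ
  | g : κ → Gr κ
  deriving DecidableEq

/-- The group of a variable. -/
def grp {ρ' σ κ : Type} : Vr ρ' σ κ → Gr κ
  | Sum.inl _ => Gr.c
  | Sum.inr (Sum.inl _) => Gr.w
  | Sum.inr (Sum.inr (Sum.inl x)) => Gr.y x.1
  | Sum.inr (Sum.inr (Sum.inr x)) => Gr.g x.1

/-- Degree vectors. -/
def dg {κ : Type} (c w : ℕ) (y g : κ → ℕ) : Gr κ → ℕ
  | Gr.c => c
  | Gr.w => w
  | Gr.y j => y j
  | Gr.g j => g j

theorem dg_add {κ : Type} (c w : ℕ) (y g : κ → ℕ) (c' w' : ℕ) (y' g' : κ → ℕ) :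
    dg c w y g + dg c' w' y' g' = dg (c + c') (w + w') (y + y') (g + g') := by
  funext a
  cases a <;> rfl

theorem dg_smul {κ : Type} (n c w : ℕ) (y g : κ → ℕ) :
    n • dg c w y g = dg (n * c) (n * w) (n • y) (n • g) := by
  funext a
  cases a <;> rfl

theorem dg_sum {κ β : Type} (s : Finset β) (c w : β → ℕ) (y g : β → κ → ℕ) :
    ∑ b ∈ s, dg (c b) (w b) (y b) (g b) =
      dg (∑ b ∈ s, c b) (∑ b ∈ s, w b) (∑ b ∈ s, y b) (∑ b ∈ s, g b) := by
  funext a
  rw [Finset.sum_apply]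
  cases a <;> simp [dg]

theorem dg_le {κ : Type} {c w : ℕ} {y g : κ → ℕ} {c' w' : ℕ} {y' g' : κ → ℕ}
    (hc : c ≤ c') (hw : w ≤ w') (hy : ∀ j, y j ≤ y' j) (hg : ∀ j, g j ≤ g' j) :
    ∀ a, dg c w y g a ≤ dg c' w' y' g' a := by
  intro a
  cases a with
  | c => exact hc
  | w => exact hw
  | y j => exact hy j
  | g j => exact hg j

variable {ρ' σ κ : Type} [Fintype ρ'] [Fintype σ] [Fintype κ]
  [DecidableEq ρ'] [DecidableEq σ] [DecidableEq κ]
variable {A : Type} [CommRing A]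

/-- The variable `C t k`. -/
noncomputable def cP (t : σ) (k : Option ρ') : MvPolynomial (Vr ρ' σ κ) A :=
  MvPolynomial.X (Sum.inl (t, k))

/-- The rows `(1, C)`. -/
noncomputable def LP (i : Option ρ' ⊕ σ) (k : Option ρ') : MvPolynomial (Vr ρ' σ κ) A :=
  Sum.elim (fun l => if l = k then 1 else 0) (fun t => cP t k) i

/-- The rows `(-C, 1)`. -/
noncomputable def NP (i : Option ρ' ⊕ σ) (t : σ) : MvPolynomial (Vr ρ' σ κ) A :=
  Sum.elim (fun k => -cP t k) (fun t' => if t' = t then 1 else 0) i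

/-- The column sums of `(1, C)`. -/
noncomputable def sP (k : Option ρ') : MvPolynomial (Vr ρ' σ κ) A :=
  1 + ∑ t : σ, cP t k

/-- The lower rows of `W` and `W B`. -/
noncomputable def xP (j : Option ρ' ⊕ κ) (k : ρ') : MvPolynomial (Vr ρ' σ κ) A :=
  Sum.elim (fun j => MvPolynomial.X (Sum.inr (Sum.inl (j, k))))
    (fun j => MvPolynomial.X (Sum.inr (Sum.inr (Sum.inl (j, k))))) j

/-- The variable `Γ t j`. -/
noncomputable def gP (j : κ) (t : σ) : MvPolynomial (Vr ρ' σ κ) A :=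
  MvPolynomial.X (Sum.inr (Sum.inr (Sum.inr (j, t))))

/-- The scaled top row. -/
noncomputable def topP (v : Option ρ' ⊕ κ → A) (j : Option ρ' ⊕ κ) :
    MvPolynomial (Vr ρ' σ κ) A :=
  MvPolynomial.C (v j) - ∑ k : ρ', sP (some k) * xP j k

/-- The columns, with the top row scaled. -/
noncomputable def TP (v : Option ρ' ⊕ κ → A) (j : Option ρ' ⊕ κ) (k : Option ρ') :
    MvPolynomial (Vr ρ' σ κ) A :=
  Option.elim k (topP v j) (fun k => xP j k)

/-- The columns, with all rows scaled. -/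
noncomputable def HP (v : Option ρ' ⊕ κ → A) (j : Option ρ' ⊕ κ) (k : Option ρ') :
    MvPolynomial (Vr ρ' σ κ) A :=
  Option.elim k (topP v j) (fun k => sP none * xP j k)

/-- The matrix `W` with its top row scaled. -/
noncomputable def WP (v : Option ρ' ⊕ κ → A) :
    Matrix (Option ρ') (Option ρ') (MvPolynomial (Vr ρ' σ κ) A) :=
  Matrix.of fun k j => TP v (Sum.inl j) k

/-- The numerator of `B j j'`. -/
noncomputable def bP (v : Option ρ' ⊕ κ → A) (j : Option ρ') (j' : κ) :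
    MvPolynomial (Vr ρ' σ κ) A :=
  ((WP v).updateCol j (TP v (Sum.inr j'))).det

/-- The numerator of the data. -/
noncomputable def FP (v : Option ρ' ⊕ κ → A) (i : Option ρ' ⊕ σ) (j : Option ρ' ⊕ κ) :
    MvPolynomial (Vr ρ' σ κ) A :=
  (∑ k, LP i k * HP v j k) *
    Sum.elim (fun j => (WP v).det - ∑ t, NP i t * ∑ j', gP j' t * bP v j j')
      (fun j => 1 + ∑ t, NP i t * gP j t) j

/-- Degree vector of a column. -/
def colD (j : Option ρ' ⊕ κ) : Gr κ → ℕ :=
  Sum.elim (fun _ => dg 0 1 0 0) (fun j => dg 0 0 (Pi.single j 1) 0) j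

theorem Bd_cP (t : σ) (k : Option ρ') :
    Bd grp (dg 1 0 0 0) (cP t k : MvPolynomial (Vr ρ' σ κ) A) :=
  Bd.var _ _ (le_refl 1)

theorem Bd_LP (i : Option ρ' ⊕ σ) (k : Option ρ') :
    Bd grp (dg 1 0 0 0) (LP i k : MvPolynomial (Vr ρ' σ κ) A) := by
  rcases i with l | t
  · simp only [LP, Sum.elim_inl]
    split_ifs
    · exact Bd.one _
    · exact Bd.zero _
  · exact Bd_cP t k

theorem Bd_NP (i : Option ρ' ⊕ σ) (t : σ) :
    Bd grp (dg 1 0 0 0) (NP i t : MvPolynomial (Vr ρ' σ κ) A) := by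
  rcases i with l | t'
  · exact (Bd_cP t l).neg
  · simp only [NP, Sum.elim_inr]
    split_ifs
    · exact Bd.one _
    · exact Bd.zero _

theorem Bd_sP (k : Option ρ') : Bd grp (dg 1 0 0 0) (sP k : MvPolynomial (Vr ρ' σ κ) A) :=
  (Bd.one _).add (Bd.sum _ fun t _ => Bd_cP t k)

theorem Bd_xP (j : Option ρ' ⊕ κ) (k : ρ') :
    Bd grp (colD j) (xP j k : MvPolynomial (Vr ρ' σ κ) A) := by
  rcases j with j | j
  · exact Bd.var _ _ (le_refl 1)
  · apply Bd.var
    simp [grp, colD, dg]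

theorem Bd_gP (j : κ) (t : σ) :
    Bd grp (dg 0 0 0 (Pi.single j 1)) (gP j t : MvPolynomial (Vr ρ' σ κ) A) := by
  apply Bd.var
  simp [grp, dg]

theorem Bd_topP (v : Option ρ' ⊕ κ → A) (j : Option ρ' ⊕ κ) :
    Bd grp (dg 1 0 0 0 + colD j) (topP v j : MvPolynomial (Vr ρ' σ κ) A) :=
  (Bd.const _ _).sub (Bd.sum _ fun k _ => (Bd_sP _).mul (Bd_xP j k))

theorem Bd_TP (v : Option ρ' ⊕ κ → A) (j : Option ρ' ⊕ κ) (k : Option ρ') :
    Bd grp (dg 1 0 0 0 + colD j) (TP v j k : MvPolynomial (Vr ρ' σ κ) A) := by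
  rcases k with _ | k
  · exact Bd_topP v j
  · exact (Bd_xP j k).mono fun a => Nat.le_add_left _ _

theorem Bd_HP (v : Option ρ' ⊕ κ → A) (j : Option ρ' ⊕ κ) (k : Option ρ') :
    Bd grp (dg 1 0 0 0 + colD j) (HP v j k : MvPolynomial (Vr ρ' σ κ) A) := by
  rcases k with _ | k
  · exact Bd_topP v j
  · exact (Bd_sP _).mul (Bd_xP j k)

theorem Bd_WP (v : Option ρ' ⊕ κ → A) :
    Bd grp (dg (Fintype.card (Option ρ')) (Fintype.card (Option ρ')) 0 0)
      ((WP v).det : MvPolynomial (Vr ρ' σ κ) A) := by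
  have h := Bd.det (grp := grp) (M := (WP v : Matrix (Option ρ') (Option ρ')
    (MvPolynomial (Vr ρ' σ κ) A))) (d := fun _ => dg 1 1 0 0) (by
      intro k j
      have h1 := Bd_TP (σ := σ) v (Sum.inl j) k
      rw [colD, Sum.elim_inl, dg_add] at h1
      change Bd grp _ (TP v (Sum.inl j) k)
      simpa using h1)
  rw [Finset.sum_const, dg_smul] at h
  simpa using h

theorem Bd_bP (v : Option ρ' ⊕ κ → A) (j : Option ρ') (j' : κ) :
    Bd grp (dg (Fintype.card (Option ρ')) (Fintype.card (Option ρ')) 1 0)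
      (bP v j j' : MvPolynomial (Vr ρ' σ κ) A) := by
  have h := Bd.det (grp := grp) (M := ((WP v).updateCol j (TP v (Sum.inr j')) :
    Matrix (Option ρ') (Option ρ') (MvPolynomial (Vr ρ' σ κ) A)))
    (d := fun l => dg 1 1 (if l = j then 1 else 0) 0) (by
      intro k l
      by_cases hl : l = j
      · subst hl
        rw [Matrix.updateCol_self]
        have h1 := Bd_TP (σ := σ) v (Sum.inr j') k
        rw [colD, Sum.elim_inr, dg_add] at h1
        refine h1.mono (dg_le (by simp) (by simp) ?_ (by simp))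
        intro a
        simp only [Pi.add_apply, Pi.zero_apply, zero_add, if_true, Pi.one_apply]
        rw [Pi.single_apply]
        split_ifs <;> simp
      · rw [Matrix.updateCol_ne hl]
        have h1 := Bd_TP (σ := σ) v (Sum.inl l) k
        rw [colD, Sum.elim_inl, dg_add] at h1
        refine h1.mono (dg_le (by simp) (by simp) (by simp) (by simp)))
  rw [dg_sum] at h
  refine h.mono (dg_le (by simp) (by simp) ?_ (by simp))
  intro a
  rw [Finset.sum_ite_eq', if_pos (Finset.mem_univ _)]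

theorem Bd_FP_inr (v : Option ρ' ⊕ κ → A) (i : Option ρ' ⊕ σ) (j : κ) :
    Bd grp (dg 3 0 (Pi.single j 1) (Pi.single j 1))
      (FP v i (Sum.inr j) : MvPolynomial (Vr ρ' σ κ) A) := by
  have h1 : Bd grp (dg 1 0 0 0 + (dg 1 0 0 0 + colD (ρ' := ρ') (Sum.inr j)))
      (∑ k, LP i k * HP v (Sum.inr j) k : MvPolynomial (Vr ρ' σ κ) A) :=
    Bd.sum _ fun k _ => (Bd_LP i k).mul (Bd_HP v _ k)
  have h2 : Bd grp (dg 1 0 0 0 + dg 0 0 0 (Pi.single j 1))
      (1 + ∑ t, NP i t * gP j t : MvPolynomial (Vr ρ' σ κ) A) :=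
    (Bd.one _).add (Bd.sum _ fun t _ => (Bd_NP i t).mul (Bd_gP j t))
  have h3 := h1.mul h2
  rw [colD, Sum.elim_inr, dg_add, dg_add, dg_add, dg_add] at h3
  simpa [FP] using h3

theorem Bd_FP_inl (v : Option ρ' ⊕ κ → A) (i : Option ρ' ⊕ σ) (j : Option ρ') :
    Bd grp (dg (Fintype.card (Option ρ') + 3) (Fintype.card (Option ρ') + 1) 1 1)
      (FP v i (Sum.inl j) : MvPolynomial (Vr ρ' σ κ) A) := by
  have h1 : Bd grp (dg 1 0 0 0 + (dg 1 0 0 0 + colD (ρ' := ρ') (Sum.inl j)))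
      (∑ k, LP i k * HP v (Sum.inl j) k : MvPolynomial (Vr ρ' σ κ) A) :=
    Bd.sum _ fun k _ => (Bd_LP i k).mul (Bd_HP v _ k)
  have h2 : Bd grp (dg (Fintype.card (Option ρ') + 1) (Fintype.card (Option ρ')) 1 1)
      ((WP v).det - ∑ t, NP i t * ∑ j', gP j' t * bP v j j' :
        MvPolynomial (Vr ρ' σ κ) A) := by
    refine ((Bd_WP v).mono (dg_le (by simp) (by simp) (by simp) (by simp))).sub
      (Bd.sum _ fun t _ => ?_)
    have h3 : Bd grp (dg (Fintype.card (Option ρ')) (Fintype.card (Option ρ')) 1 1)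
        (∑ j', gP j' t * bP v j j' : MvPolynomial (Vr ρ' σ κ) A) := by
      refine Bd.sum _ fun j' _ => ?_
      have h4 := (Bd_gP (ρ' := ρ') (A := A) j' t).mul (Bd_bP (σ := σ) v j j')
      rw [dg_add] at h4
      refine h4.mono (dg_le (by simp) (by simp) (by simp) ?_)
      intro a
      simp only [Pi.add_apply, Pi.zero_apply, add_zero, Pi.one_apply]
      rw [Pi.single_apply]
      split_ifs <;> simp
    have h5 := (Bd_NP i t).mul h3
    rw [dg_add] at h5
    refine h5.mono (dg_le (by omega) (by omega) (by simp) (by simp))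
  have h3 := h1.mul h2
  rw [colD, Sum.elim_inl, dg_add, dg_add, dg_add] at h3
  refine Bd.mono (d := _) (F := FP v i (Sum.inl j)) h3
    (dg_le (by omega) (by omega) (by simp) (by simp))

end Pool.ML
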