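import Pool.Agent.ML14.Bounds

/-!
# The exponential growth rate
-/

set_option linter.unusedSectionVars false
set_option linter.unusedSimpArgs false
set_option linter.unusedVariables false

namespace Pool.ML

open Filter Topology

theorem tendsto_of_bounds (N : ℕ → ℕ) (β K d r : ℕ) (hβ : 1 ≤ β) (hK : 1 ≤ K)
    (hlow : ∀ n, r ≤ n → β ^ (n - r) ≤ N n)
    (hup : ∀ n, r ≤ n → N n ≤ K * n ^ d * β ^ (n - r)) :
    Tendsto (fun n : ℕ => (N n : ℝ) ^ (1 / (n : ℝ))) atTop (𝓝 (β : ℝ)) := by
  have hβ' : (1 : ℝ) ≤ β := by exact_mod_cast hβ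
  have hβ0 : (0 : ℝ) < β := by linarith
  have hK' : (1 : ℝ) ≤ K := by exact_mod_cast hK
  have hlogβ : 0 ≤ Real.log β := Real.log_nonneg hβ'
  have hinv : Tendsto (fun n : ℕ => (1 : ℝ) / n) atTop (𝓝 0) :=
    tendsto_one_div_atTop_nhds_zero_nat
  have hlogn : Tendsto (fun n : ℕ => Real.log n / n) atTop (𝓝 0) := by
    have h1 := Real.isLittleO_log_id_atTop.tendsto_div_nhds_zero
    exact h1.comp tendsto_natCast_atTop_atTop
  have hNpos : ∀ n, r ≤ n → (0 : ℝ) < N n := by
    intro n hn
    have h1 := hlow n hn
    have h2 : 0 < β ^ (n - r) := pow_pos hβ _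
    exact_mod_cast lt_of_lt_of_le h2 h1
  have hmain : Tendsto (fun n : ℕ => Real.log (N n) * (1 / (n : ℝ))) atTop
      (𝓝 (Real.log β)) := by
    have hL : Tendsto (fun n : ℕ => Real.log β - (r * Real.log β) * (1 / (n : ℝ))) atTop
        (𝓝 (Real.log β)) := by
      have := (hinv.const_mul (r * Real.log β)).const_sub (Real.log β)
      simpa using this
    have hU : Tendsto (fun n : ℕ => Real.log K * (1 / (n : ℝ)) + d * (Real.log n / n) +
        Real.log β) atTop (𝓝 (Real.log β)) := by
      have := ((hinv.const_mul (Real.log K)).add (hlogn.const_mul (d : ℝ))).add_const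
        (Real.log β)
      simpa using this
    refine tendsto_of_tendsto_of_tendsto_of_le_of_le' hL hU ?_ ?_
    · filter_upwards [eventually_ge_atTop (max r 1)] with n hn
      have hrn : r ≤ n := le_trans (le_max_left _ _) hn
      have hn1 : 1 ≤ n := le_trans (le_max_right _ _) hn
      have hn0 : (0 : ℝ) < n := by exact_mod_cast hn1
      have h1 : ((β : ℝ) ^ (n - r)) ≤ N n := by exact_mod_cast hlow n hrn
      have h2 := Real.log_le_log (by positivity) h1
      rw [Real.log_pow, Nat.cast_sub hrn] at h2
      have h3 : Real.log β - (r * Real.log β) * (1 / (n : ℝ)) =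
          ((n : ℝ) - r) * Real.log β * (1 / (n : ℝ)) := by
        field_simp
      rw [h3]
      exact mul_le_mul_of_nonneg_right h2 (by positivity)
    · filter_upwards [eventually_ge_atTop (max r 1)] with n hn
      have hrn : r ≤ n := le_trans (le_max_left _ _) hn
      have hn1 : 1 ≤ n := le_trans (le_max_right _ _) hn
      have hn0 : (0 : ℝ) < n := by exact_mod_cast hn1
      have h1 : (N n : ℝ) ≤ K * (n : ℝ) ^ d * (β : ℝ) ^ n := by
        have h2 : (N n : ℝ) ≤ K * (n : ℝ) ^ d * (β : ℝ) ^ (n - r) := by
          exact_mod_cast hup n hrn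
        refine le_trans h2 (mul_le_mul_of_nonneg_left ?_ (by positivity))
        exact pow_le_pow_right₀ hβ' (Nat.sub_le _ _)
      have h2 := Real.log_le_log (hNpos n hrn) h1
      rw [Real.log_mul (by positivity) (by positivity), Real.log_mul (by positivity)
        (by positivity), Real.log_pow, Real.log_pow] at h2
      have h3 : Real.log K * (1 / (n : ℝ)) + d * (Real.log n / n) + Real.log β =
          (Real.log K + d * Real.log n + n * Real.log β) * (1 / (n : ℝ)) := by
        field_simp
      rw [h3]
      exact mul_le_mul_of_nonneg_right h2 (by positivity)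
  have hexp := (Real.continuous_exp.tendsto (Real.log β)).comp hmain
  rw [Real.exp_log hβ0] at hexp
  refine hexp.congr' ?_
  filter_upwards [eventually_ge_atTop r] with n hn
  rw [Function.comp_apply, Real.rpow_def_of_pos (hNpos n hn)]

end Pool.ML
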