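import Pool.Agent.ML14.Calc

/-!
# The step: a new column multiplies the number of critical points
-/

set_option linter.unusedSectionVars false
set_option linter.unusedSimpArgs false

namespace Pool.ML

open Matrix Filter Topology

/-- There is a non-empty open set of data with at least `K` critical points. -/
def LB (I J : Type) [Fintype I] [Fintype J] (r K : ℕ) : Prop :=
  ∃ U : Set (I → J → ℂ), IsOpen U ∧ U.Nonempty ∧
    ∀ u ∈ U, ∃ S : Finset (Matrix I J ℂ), S.card = K ∧ ∀ p ∈ S, PCrit r (Matrix.of u) p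

variable {ρ σ κ : Type} [Fintype ρ] [Fintype σ] [Fintype κ]
  [DecidableEq ρ] [DecidableEq σ] [DecidableEq κ]

/-- From the data of the extended problem to the extended data, for a given scale `ε`. -/
noncomputable def theta (ε : ℂ) (U : (ρ ⊕ σ) → (ρ ⊕ (κ ⊕ Unit)) → ℂ) : Ed ρ σ κ :=
  (fun i j => U i (Sum.map id Sum.inl j), fun i => U i (Sum.inr (Sum.inr ())) / ε, ε)

theorem continuous_theta (ε : ℂ) :
    Continuous (theta ε : ((ρ ⊕ σ) → (ρ ⊕ (κ ⊕ Unit)) → ℂ) → Ed ρ σ κ) := by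
  unfold theta
  fun_prop

theorem psi_Xe_of_theta (z : Ec ρ σ κ) (ε : ℂ) (hε : ε ≠ 0)
    (U : (ρ ⊕ σ) → (ρ ⊕ (κ ⊕ Unit)) → ℂ) (h : Psi z = theta ε U) :
    psi (Xe (Matrix.of z.1) z.2.1 z.2.2.1 ε) = Matrix.of U := by
  have h3 : z.2.2.2 = ε := congrArg (fun w : Ed ρ σ κ => w.2.2) h
  have h1 : ∀ i j, uold (Matrix.of z.1) z.2.1 z.2.2.1 z.2.2.2 i j =
      U i (Sum.map id Sum.inl j) := fun i j => congrArg (fun w : Ed ρ σ κ => w.1 i j) h
  have h2 : ∀ i, dvec (Matrix.of z.1) z.2.1 i * zvec (Matrix.of z.1) z.2.2.1 i =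
      U i (Sum.inr (Sum.inr ())) / ε := fun i => congrArg (fun w : Ed ρ σ κ => w.2.1 i) h
  rw [h3] at h1
  ext i j
  rcases j with k | j | j
  · rw [psi_Xe_inl, h1]
    rfl
  · rw [psi_Xe_inr, h1]
    rfl
  · cases j
    rw [psi_Xe_new, h2]
    field_simp
    rfl

/-- The step, from a single data matrix with algebraically independent entries. -/
theorem step_alg [Nonempty ρ] (K : ℕ) (u₀ : (ρ ⊕ σ) → (ρ ⊕ κ) → ℂ) (hu₀ : Alg (Matrix.of u₀))
    (S : Finset (Matrix (ρ ⊕ σ) (ρ ⊕ κ) ℂ)) (hScard : S.card = K)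
    (hS : ∀ p ∈ S, PCrit (Fintype.card ρ) (Matrix.of u₀) p) :
    LB (ρ ⊕ σ) (ρ ⊕ (κ ⊕ Unit)) (Fintype.card ρ)
      (K * (Fintype.card (ρ ⊕ σ) - 1).choose (Fintype.card ρ - 1)) := by
  classical
  obtain ⟨k₀⟩ := (inferInstance : Nonempty ρ)
  set i₀ : ρ ⊕ σ := Sum.inl k₀ with hi₀
  set 𝒯 : Finset (Finset (ρ ⊕ σ)) :=
    Finset.powersetCard (Fintype.card ρ - 1) (Finset.univ.erase i₀) with h𝒯
  have h𝒯card : 𝒯.card = (Fintype.card (ρ ⊕ σ) - 1).choose (Fintype.card ρ - 1) := by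
    rw [h𝒯, Finset.card_powersetCard, Finset.card_erase_of_mem (Finset.mem_univ _),
      Finset.card_univ]
  have hρ : 0 < Fintype.card ρ := Fintype.card_pos
  have hT : ∀ T ∈ 𝒯, (insert i₀ T).card = Fintype.card ρ ∧ i₀ ∉ T := by
    intro T hT
    rw [h𝒯, Finset.mem_powersetCard] at hT
    have h1 : i₀ ∉ T := fun h => absurd (hT.1 h) (Finset.notMem_erase _ _)
    exact ⟨by rw [Finset.card_insert_of_notMem h1, hT.2]; omega, h1⟩
  -- the solutions
  have hsol : ∀ a : Matrix (ρ ⊕ σ) (ρ ⊕ κ) ℂ × Finset (ρ ⊕ σ), ∃ w : (ρ → ℂ) × (σ → ℂ),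
      a ∈ S ×ˢ 𝒯 →
      (∀ i, dvec (chart (Matrix.of u₀) a.1) w.1 i * zvec (chart (Matrix.of u₀) a.1) w.2 i =
        if i = i₀ then 1 else 0) ∧
      (∀ i, zvec (chart (Matrix.of u₀) a.1) w.2 i ≠ 0 ↔ i ∈ insert i₀ a.2) ∧
      (∀ i, i ∉ insert i₀ a.2 → dvec (chart (Matrix.of u₀) a.1) w.1 i ≠ 0) := by
    intro a
    by_cases ha : a ∈ S ×ˢ 𝒯
    · have ha' := Finset.mem_product.mp ha
      have hp := hS a.1 ha'.1
      have hX := chart_alg (Matrix.of u₀) a.1 hu₀ hp (std_minor_ne _ _ hu₀ hp)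
      obtain ⟨c, γ, h1, h2, h3⟩ := exists_limit _ hX k₀ (insert i₀ a.2) (hT _ ha'.2).1
        (Finset.mem_insert_self _ _)
      exact ⟨(c, γ), fun _ => ⟨h1, h2, h3⟩⟩
    · exact ⟨(0, 0), fun h => absurd h ha⟩
  choose w hw using hsol
  set Z : Matrix (ρ ⊕ σ) (ρ ⊕ κ) ℂ × Finset (ρ ⊕ σ) → Ec ρ σ κ := fun a =>
    (fun i j => chart (Matrix.of u₀) a.1 i j, (w a).1, (w a).2, 0) with hZ
  set A := S ×ˢ 𝒯 with hA
  have hXa : ∀ a ∈ A, Alg (chart (Matrix.of u₀) a.1) ∧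
      PCrit (Fintype.card ρ) (Matrix.of u₀) a.1 ∧ (Matrix.toBlocks₁₁ a.1).det ≠ 0 := by
    intro a ha
    have ha' := Finset.mem_product.mp ha
    have hp := hS a.1 ha'.1
    have hm := std_minor_ne _ _ hu₀ hp
    exact ⟨chart_alg (Matrix.of u₀) a.1 hu₀ hp hm, hp, hm⟩
  have hZinj : Set.InjOn Z A := by
    intro a ha b hb hab
    have ha' := hXa a ha
    have hb' := hXa b hb
    have h1 : chart (Matrix.of u₀) a.1 = chart (Matrix.of u₀) b.1 := by
      ext i j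
      exact congrArg (fun z : Ec ρ σ κ => z.1 i j) hab
    have h2 : a.1 = b.1 := by
      rw [← pmat_chart (Matrix.of u₀) a.1 ha'.2.1.rk ha'.2.2, h1,
        pmat_chart (Matrix.of u₀) b.1 hb'.2.1.rk hb'.2.2]
    have h3 : (w a).2 = (w b).2 := congrArg (fun z : Ec ρ σ κ => z.2.2.1) hab
    have h4 : insert i₀ a.2 = insert i₀ b.2 := by
      ext i
      rw [← (hw a ha).2.1 i, ← (hw b hb).2.1 i, h1, h3]
    have h5 : a.2 = b.2 := by
      have ha2 := (hT a.2 (Finset.mem_product.mp ha).2).2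
      have hb2 := (hT b.2 (Finset.mem_product.mp hb).2).2
      rw [← Finset.erase_insert ha2, h4, Finset.erase_insert hb2]
    exact Prod.ext h2 h5
  set w₀ : Ed ρ σ κ := (u₀, fun i => if i = i₀ then 1 else 0, 0) with hw₀
  have hPsi : ∀ a ∈ A, Psi (Z a) = w₀ := by
    intro a ha
    have ha' := hXa a ha
    have h1 : Matrix.of (Z a).1 = chart (Matrix.of u₀) a.1 := rfl
    rw [hw₀]
    refine Prod.ext ?_ (Prod.ext ?_ rfl)
    · funext i j
      change uold (Matrix.of (Z a).1) (Z a).2.1 (Z a).2.2.1 0 i j = u₀ i j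
      rw [uold_zero, h1, psi_chart _ _ ha'.2.1 ha'.2.2]
      rfl
    · funext i
      exact (hw a ha).1 i
  -- neighbourhoods
  obtain ⟨V, hV, hVdisj⟩ := ((A.image Z).finite_toSet).t2_separation
  set Ngood : Set (Ec ρ σ κ) := {z | (Matrix.of z.1).toBlocks₁₁.det ≠ 0 ∧
    ∀ i j, pmat (Matrix.of z.1) i j ≠ 0} with hNgood
  have hNopen : IsOpen Ngood := by
    have h1 : Ngood = {z | (Matrix.of z.1).toBlocks₁₁.det ≠ 0} ∩
        ⋂ i, ⋂ j, {z | pmat (Matrix.of z.1) i j ≠ 0} := by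
      ext z
      simp [hNgood]
    rw [h1]
    apply IsOpen.inter
    · have hc : Continuous fun z : Ec ρ σ κ => (Matrix.of z.1).toBlocks₁₁.det := by
        apply Continuous.matrix_det
        apply continuous_matrix
        intro i j
        simp only [Matrix.toBlocks₁₁, Matrix.of_apply]
        fun_prop
      exact isOpen_ne_fun hc continuous_const
    · apply isOpen_iInter_of_finite
      intro i
      apply isOpen_iInter_of_finite
      intro j
      exact isOpen_ne_fun (contDiff_pmat i j).continuous continuous_const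
  have hZgood : ∀ a ∈ A, Z a ∈ Ngood := by
    intro a ha
    have ha' := hXa a ha
    have h1 : Matrix.of (Z a).1 = chart (Matrix.of u₀) a.1 := rfl
    refine ⟨?_, ?_⟩
    · rw [h1]
      exact W_ne_of_alg _ ha'.1
    · intro i j
      rw [h1, pmat_chart (Matrix.of u₀) a.1 ha'.2.1.rk ha'.2.2]
      exact ha'.2.1.ne i j
  have hO : ∀ a ∈ A, Psi '' (V (Z a) ∩ Ngood) ∈ 𝓝 w₀ := by
    intro a ha
    have ha' := hXa a ha
    have h1 := map_nhds_Psi (chart (Matrix.of u₀) a.1) ha'.1 (insert i₀ a.2)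
      (hT a.2 (Finset.mem_product.mp ha).2).1 (w a).1 (w a).2 (hw a ha).2.1 (hw a ha).2.2
    have h2 : V (Z a) ∩ Ngood ∈ 𝓝 (Z a) :=
      ((hV (Z a)).2.inter hNopen).mem_nhds ⟨(hV (Z a)).1, hZgood a ha⟩
    have h3 := Filter.image_mem_map (m := Psi) h2
    have h4 : Filter.map Psi (𝓝 (Z a)) = 𝓝 (Psi (Z a)) := h1
    rw [h4, hPsi a ha] at h3
    exact h3
  have hO' : (⋂ a ∈ A, Psi '' (V (Z a) ∩ Ngood)) ∈ 𝓝 w₀ :=
    (Filter.biInter_finset_mem A).mpr hO
  obtain ⟨O, hOsub, hOopen, hw₀O⟩ := mem_nhds_iff.mp hO'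
  -- choose the scale
  have hcurve : Continuous fun t : ℂ =>
      ((u₀, fun i => (if i = i₀ then 1 else 0) + t, t) : Ed ρ σ κ) := by fun_prop
  have hev : ∀ᶠ t : ℂ in 𝓝 0,
      ((u₀, fun i => (if i = i₀ then 1 else 0) + t, t) : Ed ρ σ κ) ∈ O := by
    apply hcurve.continuousAt.eventually_mem
    apply hOopen.mem_nhds
    simpa [hw₀] using hw₀O
  have hev2 : ∀ᶠ t : ℂ in 𝓝 0, 1 + t ≠ 0 := by
    have hc : Continuous fun t : ℂ => 1 + t := by fun_prop
    apply hc.continuousAt.eventually_ne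
    simp
  obtain ⟨ε, ⟨hεO, hε1⟩, hε⟩ : ∃ ε : ℂ,
      (((u₀, fun i => (if i = i₀ then 1 else 0) + ε, ε) : Ed ρ σ κ) ∈ O ∧ 1 + ε ≠ 0) ∧
        ε ≠ 0 := by
    have h1 := (((hev.and hev2).filter_mono nhdsWithin_le_nhds).and
      (eventually_mem_nhdsWithin (a := (0 : ℂ)) (s := {0}ᶜ))).exists
    obtain ⟨t, ht, ht'⟩ := h1
    exact ⟨t, ht, ht'⟩
  refine ⟨theta ε ⁻¹' O ∩ ⋂ i, {U' | U' i (Sum.inr (Sum.inr ())) ≠ 0}, ?_, ?_, ?_⟩
  · apply IsOpen.inter
    · exact hOopen.preimage (continuous_theta ε)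
    · apply isOpen_iInter_of_finite
      intro i
      exact isOpen_ne_fun (by fun_prop) continuous_const
  · refine ⟨fun i j => Sum.elim (fun k => u₀ i (Sum.inl k))
      (Sum.elim (fun j => u₀ i (Sum.inr j)) (fun _ => ε * ((if i = i₀ then 1 else 0) + ε))) j,
      ?_, ?_⟩
    · have h1 : theta (ρ := ρ) (σ := σ) (κ := κ) ε (fun i j =>
        Sum.elim (fun k => u₀ i (Sum.inl k)) (Sum.elim (fun j => u₀ i (Sum.inr j))
          (fun _ => ε * ((if i = i₀ then 1 else 0) + ε))) j) =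
          (u₀, fun i => (if i = i₀ then 1 else 0) + ε, ε) := by
        refine Prod.ext ?_ (Prod.ext ?_ rfl)
        · funext i j
          rcases j with j | j <;> rfl
        · funext i
          simp only [theta, Sum.elim_inr]
          rw [mul_div_cancel_left₀ _ hε]
      rw [Set.mem_preimage, h1]
      exact hεO
    · rw [Set.mem_iInter]
      intro i
      change ε * ((if i = i₀ then 1 else 0) + ε) ≠ 0
      apply mul_ne_zero hε
      split_ifs
      · exact hε1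
      · rwa [zero_add]
  · rintro U' ⟨hU'O, hU'n⟩
    rw [Set.mem_iInter] at hU'n
    have hmem := hOsub hU'O
    rw [Set.mem_iInter₂] at hmem
    have hch : ∀ a, ∃ z : Ec ρ σ κ, a ∈ A → z ∈ V (Z a) ∩ Ngood ∧ Psi z = theta ε U' := by
      intro a
      by_cases ha : a ∈ A
      · obtain ⟨z, hz, hz'⟩ := hmem a ha
        exact ⟨z, fun _ => ⟨hz, hz'⟩⟩
      · exact ⟨0, fun h => absurd h ha⟩
    choose z hz using hch
    set P : Matrix (ρ ⊕ σ) (ρ ⊕ κ) ℂ × Finset (ρ ⊕ σ) → Matrix (ρ ⊕ σ) (ρ ⊕ (κ ⊕ Unit)) ℂ :=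
      fun a => pmat (Xe (Matrix.of (z a).1) (z a).2.1 (z a).2.2.1 ε) with hP
    have hpsi : ∀ a ∈ A, psi (Xe (Matrix.of (z a).1) (z a).2.1 (z a).2.2.1 ε) =
        Matrix.of U' := fun a ha => psi_Xe_of_theta (z a) ε hε U' (hz a ha).2
    have hWa : ∀ a ∈ A, (Xe (Matrix.of (z a).1) (z a).2.1 (z a).2.2.1 ε).toBlocks₁₁.det ≠ 0 := by
      intro a ha
      rw [Xe_W]
      exact (hz a ha).1.2.1
    have hPne : ∀ a ∈ A, ∀ i j, P a i j ≠ 0 := by
      intro a ha i j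
      have hg := (hz a ha).1.2.2
      simp only [hP]
      rcases j with k | j | j
      · rw [pmat_Xe_inl]
        exact hg _ _
      · rw [pmat_Xe_inr]
        exact hg _ _
      · cases j
        intro h0
        have h1 := congrFun (congrFun (hpsi a ha) i) (Sum.inr (Sum.inr ()))
        rw [psi, Matrix.of_apply, h0, zero_mul] at h1
        exact hU'n i h1.symm
    refine ⟨A.image P, ?_, ?_⟩
    · rw [Finset.card_image_of_injOn, hA, Finset.card_product, hScard, h𝒯card]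
      intro a ha b hb hab
      have h1 : Xe (Matrix.of (z a).1) (z a).2.1 (z a).2.2.1 ε =
          Xe (Matrix.of (z b).1) (z b).2.1 (z b).2.2.1 ε := by
        rw [← chart_pmat _ (hWa a ha) (hPne a ha), ← chart_pmat _ (hWa b hb) (hPne b hb),
          hpsi a ha, hpsi b hb]
        have hab' : pmat (Xe (Matrix.of (z a).1) (z a).2.1 (z a).2.2.1 ε) =
          pmat (Xe (Matrix.of (z b).1) (z b).2.1 (z b).2.2.1 ε) := hab
        rw [hab']
      obtain ⟨e1, e2, e3⟩ := Xe_inj _ _ _ _ _ _ ε hε h1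
      have h3 : (z a).2.2.2 = (z b).2.2.2 := by
        have ha3 : (z a).2.2.2 = ε := congrArg (fun w : Ed ρ σ κ => w.2.2) (hz a ha).2
        have hb3 : (z b).2.2.2 = ε := congrArg (fun w : Ed ρ σ κ => w.2.2) (hz b hb).2
        rw [ha3, hb3]
      have h2 : z a = z b := Prod.ext e1 (Prod.ext e2 (Prod.ext e3 h3))
      by_contra hne
      have h4 : Z a ≠ Z b := fun h => hne (hZinj ha hb h)
      have h5 := hVdisj (Finset.mem_coe.mpr (Finset.mem_image_of_mem Z ha))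
        (Finset.mem_coe.mpr (Finset.mem_image_of_mem Z hb)) h4
      exact Set.disjoint_left.mp h5 (hz a ha).1.1 (h2 ▸ (hz b hb).1.1)
    · intro p hp
      obtain ⟨a, ha, rfl⟩ := Finset.mem_image.mp hp
      have h1 := pcrit_pmat _ (hWa a ha) (hPne a ha)
      rw [hpsi a ha] at h1
      exact h1

/-- The step: a new column multiplies the number of critical points. -/
theorem step [Nonempty ρ] (K : ℕ) (h : LB (ρ ⊕ σ) (ρ ⊕ κ) (Fintype.card ρ) K) :
    LB (ρ ⊕ σ) (ρ ⊕ (κ ⊕ Unit)) (Fintype.card ρ)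
      (K * (Fintype.card (ρ ⊕ σ) - 1).choose (Fintype.card ρ - 1)) := by
  obtain ⟨U, hU, hUne, hUS⟩ := h
  obtain ⟨u₀, hu₀U, hu₀⟩ : ∃ u₀ : (ρ ⊕ σ) → (ρ ⊕ κ) → ℂ, u₀ ∈ U ∧ Alg (Matrix.of u₀) := by
    have hcont : Continuous (fun x : ((ρ ⊕ σ) × (ρ ⊕ κ)) → ℂ =>
        (fun i j => x (i, j) : (ρ ⊕ σ) → (ρ ⊕ κ) → ℂ)) := by fun_prop
    obtain ⟨u₁, hu₁⟩ := hUne
    obtain ⟨x, hx, hx'⟩ := exists_algInd _ (hU.preimage hcont) ⟨fun a => u₁ a.1 a.2, hu₁⟩
    exact ⟨fun i j => x (i, j), hx, hx'⟩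
  obtain ⟨S, hScard, hS⟩ := hUS u₀ hu₀U
  exact step_alg K u₀ hu₀ S hScard hS

end Pool.ML
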