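import Pool.Agent.ML14.MainCount
import Pool.Agent.ML14.Lower

/-!
# The upper bound
-/

set_option linter.unusedSectionVars false
set_option linter.unusedSimpArgs false
set_option linter.unusedVariables false

namespace Pool.ML

open Matrix

/-- The explicit upper bound, with `r = q + 1`, `m = r + s`, `n = r + k`. -/
def UBq (q s k : ℕ) : ℕ :=
  3 ^ ((q + 2) * (q + s)) * (q + s).factorial ^ (q + 1) *
    ((q + 1) ^ 2 + (q + 1) + 1) ^ ((q + 1) * q) *
    (8 * (q + 1 + k) ^ 2) ^ ((q + 1) * s) * (q + s).choose q ^ k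

theorem pow_le_three (n r k : ℕ) (hn : 1 ≤ n) (hk : k ≤ n) :
    (n + r) ^ k ≤ 3 ^ r * n ^ k := by
  have hn' : (0 : ℝ) < n := by exact_mod_cast hn
  have h1 : ((n : ℝ) + r) ^ k ≤ 3 ^ r * (n : ℝ) ^ k := by
    have h2 : ((n : ℝ) + r) = n * (1 + r / n) := by field_simp
    rw [h2, mul_pow, mul_comm]
    apply mul_le_mul_of_nonneg_right _ (by positivity)
    have h3 : (1 : ℝ) + r / n ≤ Real.exp (r / n) := by
      rw [add_comm]
      exact Real.add_one_le_exp _
    calc (1 + (r : ℝ) / n) ^ k ≤ (Real.exp (r / n)) ^ k :=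
          pow_le_pow_left₀ (by positivity) h3 k
      _ = Real.exp (k * (r / n)) := by rw [← Real.exp_nat_mul]
      _ ≤ Real.exp (r * 1) := by
          apply Real.exp_le_exp.mpr
          rw [mul_one]
          have h4 : (k : ℝ) ≤ n := by exact_mod_cast hk
          rw [mul_div_assoc', div_le_iff₀ hn']
          nlinarith [Nat.cast_nonneg (α := ℝ) r]
      _ = (Real.exp 1) ^ r := by rw [Real.exp_nat_mul]
      _ ≤ 3 ^ r := by
          apply pow_le_pow_left₀ (Real.exp_pos 1).le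
          have := Real.exp_one_lt_d9
          linarith
  exact_mod_cast h1

theorem factorial_mul_choose_le (c k : ℕ) : k.factorial * (c + k).choose k ≤ (c + k) ^ k := by
  rw [← Nat.descFactorial_eq_factorial_mul_choose]
  exact Nat.descFactorial_le_pow _ _

theorem le_factorial_mul_choose (t k : ℕ) : t ^ k ≤ k.factorial * (t + k).choose k := by
  have h1 : ((t + k + 1 - k : ℕ) ^ k : ℕ) ≤ k.factorial * (t + k).choose k := by
    have h2 := Nat.pow_le_choose (α := ℚ) k (t + k)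
    rw [div_le_iff₀ (by exact_mod_cast k.factorial_pos)] at h2
    have h3 : ((t + k + 1 - k : ℕ) ^ k : ℕ) ≤ (t + k).choose k * k.factorial := by
      exact_mod_cast h2
    rwa [mul_comm] at h3
  refine le_trans (Nat.pow_le_pow_left ?_ k) h1
  omega

variable {ρ' σ κ : Type} [Fintype ρ'] [Fintype σ] [Fintype κ]
  [DecidableEq ρ'] [DecidableEq σ] [DecidableEq κ]

theorem card_BB (t₁ t : ℕ) : (BB ρ' σ κ t₁ t).card =
    ((t₁ + (Fintype.card ρ' + Fintype.card σ)).choose
      (Fintype.card ρ' + Fintype.card σ)) ^ (Fintype.card ρ' + 1) *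
    ((t + (Fintype.card ρ' + Fintype.card σ)).choose
      (Fintype.card ρ' + Fintype.card σ)) ^ (Fintype.card κ) := by
  rw [BB, Fintype.card_piFinset, Fintype.prod_sum_type]
  simp only [tt, Sum.elim_inl, Sum.elim_inr, card_SB, Fintype.card_sum, Finset.prod_const,
    Finset.card_univ, Fintype.card_option]

theorem arith (q s k N P β a b c τ n : ℕ) (hP : P = (q + s).factorial)
    (hβ : β = (q + s).choose q) (hn : n = q + 1 + k)
    (hτ : τ = N + s * (q + 1) + (q + 1) * q + (q + s) + 1)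
    (ha : a = N + ((q + 1) * (τ * (q + 1 + 3)) + k * (3 * (n * τ))))
    (hb : b = N + (q + 1) * (τ * (q + 1 + 1)))
    (hc : c = N + ((q + 1) * τ + n * τ))
    (h : ((τ + (q + s)).choose (q + s)) ^ (q + 1) * ((n * τ + (q + s)).choose (q + s)) ^ k * N ≤
      (a + s * (q + 1)).choose (s * (q + 1)) * ((b + (q + 1) * q).choose ((q + 1) * q) *
        (((c + q).choose q) ^ k * ((c + s).choose s) ^ k))) :
    N ≤ UBq q s k := by
  have hτ1 : 1 ≤ τ := by omega
  have hn1 : 1 ≤ n := by omega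
  have hPβ : P = β * (q.factorial * s.factorial) := by
    rw [hP, hβ, ← mul_assoc]
    have := Nat.add_choose_mul_factorial_mul_factorial q s
    rw [← this, Nat.choose_symm_add]
  -- lower side
  have l1 : (τ ^ (q + s)) ^ (q + 1) ≤ P ^ (q + 1) *
      ((τ + (q + s)).choose (q + s)) ^ (q + 1) := by
    rw [← mul_pow, hP]
    exact Nat.pow_le_pow_left (le_factorial_mul_choose τ (q + s)) _
  have l2 : ((n * τ) ^ (q + s)) ^ k ≤ P ^ k * ((n * τ + (q + s)).choose (q + s)) ^ k := by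
    rw [← mul_pow, hP]
    exact Nat.pow_le_pow_left (le_factorial_mul_choose (n * τ) (q + s)) _
  -- upper side
  have hkn : k ≤ n := by omega
  have hqn : q + 1 ≤ n := by omega
  have u1 : (a + s * (q + 1)).choose (s * (q + 1)) ≤ (8 * n ^ 2 * τ) ^ (s * (q + 1)) := by
    refine le_trans (Nat.choose_le_pow _ _) (Nat.pow_le_pow_left ?_ _)
    rw [ha]
    have e1 : N + s * (q + 1) ≤ τ := by omega
    have e2 : (q + 1) * (τ * (q + 1 + 3)) ≤ τ * (n ^ 2 + 3 * n ^ 2) := by
      have : (q + 1) * (q + 1 + 3) ≤ n ^ 2 + 3 * n ^ 2 := by nlinarith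
      nlinarith
    have e3 : k * (3 * (n * τ)) ≤ 3 * n ^ 2 * τ := by
      have : k * n ≤ n ^ 2 := by nlinarith
      nlinarith
    have e4 : τ ≤ n ^ 2 * τ := by
      have : 1 ≤ n ^ 2 := Nat.one_le_pow _ _ hn1
      nlinarith
    nlinarith
  have u2 : (b + (q + 1) * q).choose ((q + 1) * q) ≤
      (((q + 1) ^ 2 + (q + 1) + 1) * τ) ^ ((q + 1) * q) := by
    refine le_trans (Nat.choose_le_pow _ _) (Nat.pow_le_pow_left ?_ _)
    rw [hb]
    have e1 : N + (q + 1) * q ≤ τ := by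
      rw [hτ]
      omega
    nlinarith
  have u3 : P * ((c + q).choose q * (c + s).choose s) ≤ β * ((n + (q + 2)) * τ) ^ (q + s) := by
    rw [hPβ]
    have e1 := factorial_mul_choose_le c q
    have e2 := factorial_mul_choose_le c s
    have e3 : c + q ≤ (n + (q + 2)) * τ := by
      rw [hc]
      have : N + q ≤ τ := by omega
      nlinarith
    have e4 : c + s ≤ (n + (q + 2)) * τ := by
      rw [hc]
      have : N + s ≤ τ := by omega
      nlinarith
    calc β * (q.factorial * s.factorial) * ((c + q).choose q * (c + s).choose s)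
        = β * ((q.factorial * (c + q).choose q) * (s.factorial * (c + s).choose s)) := by ring
      _ ≤ β * ((c + q) ^ q * (c + s) ^ s) := Nat.mul_le_mul_left _ (Nat.mul_le_mul e1 e2)
      _ ≤ β * (((n + (q + 2)) * τ) ^ q * ((n + (q + 2)) * τ) ^ s) :=
          Nat.mul_le_mul_left _ (Nat.mul_le_mul (Nat.pow_le_pow_left e3 _)
            (Nat.pow_le_pow_left e4 _))
      _ = β * ((n + (q + 2)) * τ) ^ (q + s) := by rw [← pow_add]
  have main : (τ ^ (q + s)) ^ (q + 1) * ((n * τ) ^ (q + s)) ^ k * N ≤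
      P ^ (q + 1) * ((8 * n ^ 2 * τ) ^ (s * (q + 1)) *
        ((((q + 1) ^ 2 + (q + 1) + 1) * τ) ^ ((q + 1) * q) *
          (β * ((n + (q + 2)) * τ) ^ (q + s)) ^ k)) := by
    calc (τ ^ (q + s)) ^ (q + 1) * ((n * τ) ^ (q + s)) ^ k * N
        ≤ (P ^ (q + 1) * ((τ + (q + s)).choose (q + s)) ^ (q + 1)) *
          (P ^ k * ((n * τ + (q + s)).choose (q + s)) ^ k) * N :=
          Nat.mul_le_mul_right _ (Nat.mul_le_mul l1 l2)
      _ = (P ^ (q + 1) * P ^ k) * (((τ + (q + s)).choose (q + s)) ^ (q + 1) *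
          ((n * τ + (q + s)).choose (q + s)) ^ k * N) := by ring
      _ ≤ (P ^ (q + 1) * P ^ k) * ((a + s * (q + 1)).choose (s * (q + 1)) *
          ((b + (q + 1) * q).choose ((q + 1) * q) *
            (((c + q).choose q) ^ k * ((c + s).choose s) ^ k))) := Nat.mul_le_mul_left _ h
      _ = P ^ (q + 1) * ((a + s * (q + 1)).choose (s * (q + 1)) *
          ((b + (q + 1) * q).choose ((q + 1) * q) *
            (P * ((c + q).choose q * (c + s).choose s)) ^ k)) := by
          rw [mul_pow, mul_pow]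
          ring
      _ ≤ _ := by
          refine Nat.mul_le_mul_left _ (Nat.mul_le_mul u1 (Nat.mul_le_mul u2 ?_))
          exact Nat.pow_le_pow_left u3 k
  have eL : (τ ^ (q + s)) ^ (q + 1) * ((n * τ) ^ (q + s)) ^ k * N =
      τ ^ ((q + s) * (q + 1) + (q + s) * k) * ((n ^ ((q + s) * k)) * N) := by
    rw [mul_pow, mul_pow, ← pow_mul, ← pow_mul, ← pow_mul, pow_add]
    ring
  have eR : P ^ (q + 1) * ((8 * n ^ 2 * τ) ^ (s * (q + 1)) *
        ((((q + 1) ^ 2 + (q + 1) + 1) * τ) ^ ((q + 1) * q) *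
          (β * ((n + (q + 2)) * τ) ^ (q + s)) ^ k)) =
      τ ^ ((q + s) * (q + 1) + (q + s) * k) * (P ^ (q + 1) * (8 * n ^ 2) ^ ((q + 1) * s) *
        ((q + 1) ^ 2 + (q + 1) + 1) ^ ((q + 1) * q) * β ^ k *
          (n + (q + 2)) ^ ((q + s) * k)) := by
    have ex : (q + s) * (q + 1) + (q + s) * k = (q + 1) * s + (q + 1) * q + (q + s) * k := by
      ring
    rw [ex, mul_comm s (q + 1), mul_pow (8 * n ^ 2) τ, mul_pow _ τ ((q + 1) * q),
      mul_pow (n + (q + 2)) τ, mul_pow β, mul_pow _ (τ ^ (q + s)) k, ← pow_mul, ← pow_mul,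
      pow_add, pow_add]
    ring
  rw [eL, eR] at main
  have h2 := Nat.le_of_mul_le_mul_left main (pow_pos hτ1 _)
  have h3 : (n + (q + 2)) ^ ((q + s) * k) ≤ 3 ^ ((q + 2) * (q + s)) * n ^ ((q + s) * k) := by
    have h4 := pow_le_three n (q + 2) k hn1 hkn
    calc (n + (q + 2)) ^ ((q + s) * k) = ((n + (q + 2)) ^ k) ^ (q + s) := by
          rw [← pow_mul, mul_comm]
      _ ≤ (3 ^ (q + 2) * n ^ k) ^ (q + s) := Nat.pow_le_pow_left h4 _
      _ = 3 ^ ((q + 2) * (q + s)) * n ^ ((q + s) * k) := by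
          rw [mul_pow, ← pow_mul, ← pow_mul, mul_comm k]
  have h5 : n ^ ((q + s) * k) * N ≤ n ^ ((q + s) * k) * UBq q s k := by
    refine le_trans h2 ?_
    calc P ^ (q + 1) * (8 * n ^ 2) ^ ((q + 1) * s) *
        ((q + 1) ^ 2 + (q + 1) + 1) ^ ((q + 1) * q) * β ^ k * (n + (q + 2)) ^ ((q + s) * k)
        ≤ P ^ (q + 1) * (8 * n ^ 2) ^ ((q + 1) * s) *
        ((q + 1) ^ 2 + (q + 1) + 1) ^ ((q + 1) * q) * β ^ k *
          (3 ^ ((q + 2) * (q + s)) * n ^ ((q + s) * k)) := Nat.mul_le_mul_left _ h3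
      _ = n ^ ((q + s) * k) * UBq q s k := by
          rw [UBq, ← hP, ← hβ, ← hn]
          ring
  exact Nat.le_of_mul_le_mul_left h5 (pow_pos hn1 _)

end Pool.ML
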