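import Pool.Agent.ML14.Autom

/-!
# Lower bounds for all data with algebraically independent entries
-/

set_option linter.unusedSectionVars false
set_option linter.unusedSimpArgs false

namespace Pool.ML

open Matrix

theorem rank_le_rank_map {I J : Type} [Fintype I] [Fintype J] (p : Matrix I J ℂ)
    (φ : ℂ ≃+* ℂ) : p.rank ≤ (p.map φ).rank := by
  obtain ⟨a, b, hab⟩ := exists_minor_ne (ρ := Fin p.rank) p (by simp)
  have h1 : ((p.map φ).submatrix a b).det ≠ 0 := by
    have h2 : (p.map φ).submatrix a b = (φ : ℂ →+* ℂ).mapMatrix (p.submatrix a b) := by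
      ext i j
      simp
    rw [h2, ← RingHom.map_det]
    simpa using hab
  have h3 := Matrix.rank_submatrix_le (p.map φ) a b
  rw [Matrix.rank_of_det_ne_zero h1, Fintype.card_fin] at h3
  exact h3

theorem rank_map {I J : Type} [Fintype I] [Fintype J] (p : Matrix I J ℂ)
    (φ : ℂ ≃+* ℂ) : (p.map φ).rank = p.rank := by
  apply le_antisymm
  · have h1 := rank_le_rank_map (p.map φ) φ.symm
    have h2 : (p.map φ).map φ.symm = p := by
      ext i j
      simp
    rwa [h2] at h1
  · exact rank_le_rank_map p φ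

theorem PCrit.map {I J : Type} [Fintype I] [Fintype J] {r : ℕ} {u p : Matrix I J ℂ}
    (h : PCrit r u p) (φ : ℂ ≃+* ℂ) : PCrit r (u.map φ) (p.map φ) := by
  have hG : G (u.map φ) (p.map φ) = (G u p).map φ := by
    ext i j
    simp [G]
  refine ⟨by rw [rank_map, h.rk], ?_, ?_, ?_⟩
  · intro i j
    rw [Matrix.map_apply]
    simpa using h.ne i j
  · rw [hG]
    ext a b
    have h1 := congrArg φ (congrFun (congrFun h.right a) b)
    simpa [Matrix.mul_apply, map_sum, map_mul] using h1
  · rw [hG]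
    ext a b
    have h1 := congrArg φ (congrFun (congrFun h.left a) b)
    simpa [Matrix.mul_apply, map_sum, map_mul] using h1

theorem Alg.sum_ne {m n : ℕ} (hm : 1 ≤ m) (hn : 1 ≤ n) (u : Matrix (Fin m) (Fin n) ℂ)
    (hu : Alg u) : ∑ i, ∑ j, u i j ≠ 0 := by
  intro h
  have h1 := (algebraicIndependent_iff.mp hu) (∑ x : Fin m × Fin n, MvPolynomial.X x) (by
    rw [map_sum]
    simp only [MvPolynomial.aeval_X]
    rw [Fintype.sum_prod_type]
    exact h)
  have h2 := congrArg (MvPolynomial.eval (fun _ : Fin m × Fin n => (1 : ℚ))) h1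
  rw [map_sum, map_zero] at h2
  simp only [MvPolynomial.eval_X, Finset.sum_const, Finset.card_univ, nsmul_eq_mul,
    mul_one, Nat.cast_eq_zero] at h2
  rw [Fintype.card_prod, Fintype.card_fin, Fintype.card_fin] at h2
  rcases Nat.mul_eq_zero.mp h2 with h3 | h3 <;> omega

/-- A lower bound on an open set of data is a lower bound for all data with algebraically
independent entries. -/
theorem le_encard {m n r K : ℕ} (hm : 1 ≤ m) (hn : 1 ≤ n) (h : LB (Fin m) (Fin n) r K)
    (u : Matrix (Fin m) (Fin n) ℂ)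
    (hu : AlgebraicIndependent ℚ (fun x : Fin m × Fin n => u x.1 x.2)) :
    (K : ℕ∞) ≤ {p | IsCritical r u p}.encard := by
  classical
  obtain ⟨U, hU, ⟨u₁, hu₁⟩, hS⟩ := h
  have hcont : Continuous (fun x : (Fin m × Fin n) → ℂ =>
      (fun i j => x (i, j) : Fin m → Fin n → ℂ)) := by fun_prop
  obtain ⟨x, hxU, hx⟩ := exists_algInd _ (hU.preimage hcont) ⟨fun a => u₁ a.1 a.2, hu₁⟩
  obtain ⟨S, hcard, hp⟩ := hS _ hxU
  obtain ⟨φ, hφ⟩ := exists_autom x (fun a : Fin m × Fin n => u a.1 a.2) hx hu
  have hmap : (Matrix.of fun i j => x (i, j)).map φ = u := by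
    ext i j
    simp [hφ]
  have hs := Alg.sum_ne hm hn u hu
  set s := ∑ i, ∑ j, u i j with hsdef
  have hinj : Function.Injective (fun p : Matrix (Fin m) (Fin n) ℂ => s⁻¹ • p.map φ) := by
    intro p q hpq
    have h1 := smul_injective' s⁻¹ (inv_ne_zero hs) hpq
    ext i j
    have h2 := congrFun (congrFun h1 i) j
    simpa using h2
  have hsub : ((S.image fun p => s⁻¹ • p.map φ : Finset (Matrix (Fin m) (Fin n) ℂ)) :
      Set (Matrix (Fin m) (Fin n) ℂ)) ⊆ {p | IsCritical r u p} := by
    intro p hpS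
    obtain ⟨q, hq, rfl⟩ := Finset.mem_image.mp (Finset.mem_coe.mp hpS)
    have h1 := (hp q hq).map φ
    rw [hmap] at h1
    exact IsCritical_of_PCrit hs h1
  have h2 := Set.encard_le_encard hsub
  rw [Set.encard_coe_eq_coe_finsetCard, Finset.card_image_of_injective _ hinj, hcard] at h2
  exact h2

end Pool.ML
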